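import Pool.Agent.H.MP_59b15d_al.h95t.Sf

/-!
# Sign characters

PROOFS. `exists_w`: `(w i).2 = 0 or 1` according to `θ (a i) = 1 or -1`, `(w i).1` according to
`θ (b i)`; `cls_a`, `cls_b`, `om_e' : om (e i) x = (x i).2`, `om_f' : om (f i) x = -(x i).1`; compare
by `hom_ext` (h76r/Ra.lean). `finite_char`: a character is determined by its values on the
generators (`hom_ext`): injection into `(Fin g → ℤˣ) × (Fin g → ℤˣ)`.
`th_congr`: `om x (w - w')` is even, `sg` of an even integer is 1. `dv_of_th`: `sg (om x (w - w')) = 1`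
for all `x` (`cls_surj`), so `om x (w - w')` is even for `x = e i, f i`; read off the coordinates.
`th_spm`: `om` is preserved by `spm h φ` (`sp_om`, `spm_cls`).
`th_ne_one`: `dv_of_th` with `w' = 0`.
`exists_trans`: `θ = th h w`, `w` is not divisible by 2 (else `θ = 1` by `th_congr`). `orb_mod2`:
`A` with `Dv 2 (A (f 0) - w)`, and `spm_surj`: `A = spm h ψ`. Then `θ (ψ x) = th h (A (f 0)) (ψ x) =
th h (f 0) x`.
`st_b0`: let `ψ` be in `St`, `A = spm h ψ`, `θ₀ = th h (f 0)`. `θ₀ (ψ x) = θ₀ x = th h (A (f 0)) (ψ x)`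
for all `x`, and `ψ` is onto, so `θ₀ = th h (A (f 0))` and `Dv 2 (A (f 0) - f 0)` by `dv_of_th`.
`θ' = th h w` and `cls (ψ (b 0)) = A (f 0)`, so `om (cls (ψ (b 0))) w - om (f 0) w` is even.
`eta_of`: for `θ = th h w` one can take `η v = sg (om v w)`; here in the form needed for the block of
the trivial character.
-/

set_option autoImplicit false

namespace Pool.Agent.H.MP_59b15d_al.H95T

open Pool.MP_59b15d_al.H24T Pool.MP_59b15d_al.H76R
open Pool.Agent.H.MP_59b15d_al.SP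

section

variable {G : Type*} [Group G] {g : ℕ} {a b : Fin g → G} (h : IsSurf a b)

theorem sg_even {n : ℤ} (hn : (2 : ℤ) ∣ n) : sg n = 1 := by
  obtain ⟨k, rfl⟩ := hn
  have h2 : (-1 : ℤˣ) ^ (2 : ℤ) = 1 := rfl
  rw [sg, zpow_mul, h2, one_zpow]

theorem even_of_sg {n : ℤ} (hn : sg n = 1) : (2 : ℤ) ∣ n := by
  by_contra hc
  obtain ⟨k, hk⟩ : ∃ k, n = 2 * k + 1 := ⟨n / 2, by omega⟩
  rw [hk, sg_add, sg_even (dvd_mul_right 2 k), one_mul, sg_one] at hn
  exact absurd hn (by decide)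

private theorem Ch_sg_congr {m n : ℤ} (hn : (2 : ℤ) ∣ m - n) : sg m = sg n := by
  have h1 : m = n + (m - n) := by ring
  rw [h1, sg_add, sg_even hn, mul_one]

private theorem Ch_even_sub {m n : ℤ} (hn : sg m = sg n) : (2 : ℤ) ∣ m - n := by
  have h1 : sg m = sg n * sg (m - n) := by
    rw [← sg_add]
    congr 1
    ring
  rw [hn] at h1
  exact even_of_sg (mul_eq_left.1 h1.symm)

private theorem Ch_exists_bit (u : ℤˣ) : ∃ n : ℤ, sg n = u := by
  rcases Int.units_eq_one_or u with h | h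
  · exact ⟨0, h ▸ sg_zero⟩
  · exact ⟨1, h ▸ sg_one⟩

include h in
theorem finite_char : Finite (G →* ℤˣ) := by
  refine Finite.of_injective
    (fun θ : G →* ℤˣ => ((fun i => θ (a i), fun i => θ (b i)) : (Fin g → ℤˣ) × (Fin g → ℤˣ)))
    fun θ θ' hθ => hom_ext h (fun i => ?_) fun i => ?_
  · exact congrFun (congrArg Prod.fst hθ) i
  · exact congrFun (congrArg Prod.snd hθ) i

theorem exists_w (θ : G →* ℤˣ) : ∃ w : V g, θ = th h w := by
  choose p hp using fun i => Ch_exists_bit (θ (a i))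
  choose q hq using fun i => Ch_exists_bit (θ (b i))
  refine ⟨fun i => (-(q i), p i), hom_ext h (fun i => ?_) fun i => ?_⟩
  · rw [th_apply, cls_a, om_e', ← hp]
  · rw [th_apply, cls_b, om_f', ← hq]
    congr 1
    ring

theorem th_congr {w w' : V g} (hw : Dv 2 (w - w')) : th h w = th h w' := by
  refine MonoidHom.ext fun x => ?_
  rw [th_apply, th_apply]
  refine Ch_sg_congr ?_
  rw [← om_sub_right]
  exact hw.om_right _

theorem dv_of_th {w w' : V g} (hw : th h w = th h w') : Dv 2 (w - w') := by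
  have h1 : ∀ v, (2 : ℤ) ∣ om v (w - w') := by
    intro v
    obtain ⟨x, rfl⟩ := cls_surj h v
    have h2 := DFunLike.congr_fun hw x
    rw [th_apply, th_apply] at h2
    rw [om_sub_right]
    exact Ch_even_sub h2
  choose p hp using fun i => h1 (e i)
  choose q hq using fun i => h1 (f i)
  refine ⟨fun i => (-(q i), p i), funext fun i => ?_⟩
  have h3 := hp i
  have h4 := hq i
  rw [om_e'] at h3
  rw [om_f'] at h4
  refine Prod.ext ?_ ?_
  · change ((w - w') i).1 = 2 * -(q i)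
    linarith
  · change ((w - w') i).2 = 2 * p i
    exact h3

theorem th_spm (φ : MCG a b) (w : V g) (x : G) :
    th h (spm h φ w) ((φ : MulAut G) x) = th h w x := by
  rw [th_apply, th_apply, ← spm_cls, sp_om]

/-- A character as a function of the class. -/
theorem eta_of (θ : G →* ℤˣ) : ∃ η : V g → ℤˣ, (∀ x y, η (x + y) = η x * η y) ∧
    ∀ x, θ x = η (cls h x) := by
  obtain ⟨w, rfl⟩ := exists_w h θ
  refine ⟨fun v => sg (om v w), fun x y => ?_, fun x => rfl⟩
  change sg (om (x + y) w) = sg (om x w) * sg (om y w)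
  rw [om_add_left, sg_add]

end

section

variable {G : Type*} [Group G] {n : ℕ} {a b : Fin (n + 1) → G} (h : IsSurf a b)

theorem th0_ne_one : th h (f 0) ≠ 1 := by
  intro h0
  have h1 := DFunLike.congr_fun h0 (a 0)
  rw [th_apply, cls_a, om_e_f, sg_one, MonoidHom.one_apply] at h1
  exact absurd h1 (by decide)

theorem exists_trans (θ : G →* ℤˣ) (hθ : θ ≠ 1) :
    ∃ ψ ∈ MCG a b, ∀ x, θ (ψ x) = th h (f 0) x := by
  obtain ⟨w, rfl⟩ := exists_w h θ
  have hw : ¬ Dv 2 w := by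
    intro hw
    refine hθ ?_
    have h1 : th h w = th h 0 := th_congr h (by rwa [sub_zero])
    rw [h1]
    refine MonoidHom.ext fun x => ?_
    rw [th_apply, om_zero_right, sg_zero]
    rfl
  obtain ⟨A, hA⟩ := orb_mod2 0 w hw
  obtain ⟨φ, rfl⟩ := spm_surj h A
  refine ⟨φ.1, φ.2, fun x => ?_⟩
  rw [← th_congr h hA]
  exact th_spm h φ (f 0) x

theorem st_b0 {ψ : MulAut G} (hψ : ψ ∈ St a b (th h (f 0))) (θ' : G →* ℤˣ) :
    θ' (ψ (b 0)) = θ' (b 0) := by
  obtain ⟨hm, hp⟩ := hψ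
  have h1 : th h (spm h ⟨ψ, hm⟩ (f 0)) = th h (f 0) := by
    refine MonoidHom.ext fun y => ?_
    obtain ⟨x, rfl⟩ := ψ.surjective y
    rw [hp x]
    exact th_spm h ⟨ψ, hm⟩ (f 0) x
  obtain ⟨w, rfl⟩ := exists_w h θ'
  have h2 := spm_cls h ⟨ψ, hm⟩ (b 0)
  rw [cls_b] at h2
  change _ = cls h (ψ (b 0)) at h2
  rw [th_apply, th_apply, ← h2, cls_b]
  refine Ch_sg_congr ?_
  rw [← om_sub_left]
  exact (dv_of_th h h1).om_left _

end

end Pool.Agent.H.MP_59b15d_al.H95T
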