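import Pool.Agent.H.MP_59b15d_al.h95t.Dr
import Pool.Agent.H.MP_59b15d_al.h95t.Ch

/-!
# The block of the trivial character

PROOFS. `der_one_fac`: `c` is a homomorphism (`θ = 1`); `L v = ∑ i ((v i).1 * c (a i) + (v i).2 * c (b i))`;
compare `c` and `x ↦ L (cls h x)` by `IsDer.ext` (both are crossed homomorphisms for `1`; `cls_mul`).
`exists_R1`: `St a b 1 ≤ MCG a b`; `R φ = spm h ⟨φ, φ.2.1⟩`; onto by `spm_surj` (each element of `MCG` is
in `St a b 1`).
`B1`: triv: `spm h φ = 1` gives `cls h (φ x) = cls h x` (`spm_cls`), `der_one_fac`. lev: the coordinates of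
`cls` are homomorphisms to `ℤ`; `cls_surj`.
`tor_PP`: if `cls h (φ x) = cls h x` for all `x` then `φ` preserves all `θ` (`eta_of`), and
`Triv 1 φ` by `der_one_fac`.
`sq_PP`: `τ` a twist `IsB a b i`, `θ (b i) = -1`: `τ ^ 2` is in `UU a b θ`. `τ (τ (a i)) = a i * b i * b i`,
all other generators are fixed. It preserves each character `θ'` (`θ' (b i) * θ' (b i) = 1`, `hom_ext`
for `θ'` and `θ' ∘ τ²`), and for a crossed homomorphism `c` for `θ`, `c` and `x ↦ c (τ (τ x))` agree on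
the generators: `c (a i * b i * b i) = c (a i) + θ (a i) • (c (b i) + θ (b i) • c (b i)) = c (a i)`;
`IsDer.ext`.
-/

set_option autoImplicit false

namespace Pool.Agent.H.MP_59b15d_al.H95T

open Pool.MP_59b15d_al.H24T Pool.MP_59b15d_al.H76R
open Pool.Agent.H.MP_59b15d_al.SP

variable {G : Type*} [Group G] {g : ℕ} {a b : Fin g → G} (h : IsSurf a b)

private theorem Bo_der_cls (L : V g →ₗ[ℤ] ℤ) : IsDer 1 fun x => L (cls h x) := by
  intro x y
  change L (cls h (x * y)) = L (cls h x) + (((1 : G →* ℤˣ) x : ℤˣ) : ℤ) • L (cls h y)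
  rw [cls_mul, map_add, MonoidHom.one_apply, Units.val_one, one_smul]

theorem der_one_fac {c : G → ℤ} (hc : IsDer 1 c) : ∃ L : V g →ₗ[ℤ] ℤ, ∀ x, c x = L (cls h x) := by
  let L : V g →ₗ[ℤ] ℤ :=
    { toFun := fun v => ∑ i, ((v i).1 * c (a i) + (v i).2 * c (b i))
      map_add' := by
        intro x y
        rw [← Finset.sum_add_distrib]
        refine Finset.sum_congr rfl fun i _ => ?_
        rw [Pi.add_apply, Prod.fst_add, Prod.snd_add]
        ring
      map_smul' := by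
        intro k x
        rw [Finset.smul_sum]
        refine Finset.sum_congr rfl fun i _ => ?_
        rw [Pi.smul_apply, Prod.smul_fst, Prod.smul_snd, RingHom.id_apply]
        simp only [smul_eq_mul]
        ring }
  refine ⟨L, fun x => ?_⟩
  refine IsDer.ext h hc (Bo_der_cls h L) (fun i => ?_) (fun i => ?_) x
  · change c (a i) = L (cls h (a i))
    rw [cls_a]
    change c (a i) = ∑ j, (((e i : V g) j).1 * c (a j) + ((e i : V g) j).2 * c (b j))
    rw [Finset.sum_eq_single i]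
    · rw [e_self]; simp
    · intro j _ hj
      rw [e_ne hj]; simp
    · simp
  · change c (b i) = L (cls h (b i))
    rw [cls_b]
    change c (b i) = ∑ j, (((f i : V g) j).1 * c (a j) + ((f i : V g) j).2 * c (b j))
    rw [Finset.sum_eq_single i]
    · rw [f_self]; simp
    · intro j _ hj
      rw [f_ne hj]; simp
    · simp

/-- The coordinates of the class. -/
private theorem Bo_der_fst (i : Fin g) : IsDer 1 fun x => (cls h x i).1 := by
  intro x y
  change (cls h (x * y) i).1 = (cls h x i).1 + (((1 : G →* ℤˣ) x : ℤˣ) : ℤ) • (cls h y i).1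
  rw [cls_mul, MonoidHom.one_apply, Units.val_one, one_smul]
  rfl

private theorem Bo_der_snd (i : Fin g) : IsDer 1 fun x => (cls h x i).2 := by
  intro x y
  change (cls h (x * y) i).2 = (cls h x i).2 + (((1 : G →* ℤˣ) x : ℤˣ) : ℤ) • (cls h y i).2
  rw [cls_mul, MonoidHom.one_apply, Units.val_one, one_smul]
  rfl

theorem exists_B1 : ∃ B : Block a b 1 g, ∀ (φ : St a b 1) (x : G),
    B.R φ (cls h x) = cls h ((φ : MulAut G) x) := by
  have hle : St a b 1 ≤ MCG a b := fun _ hx => hx.1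
  have hR : ∀ (φ : St a b 1) (x : G),
      ((spm h).comp (Subgroup.inclusion hle)) φ (cls h x) = cls h ((φ : MulAut G) x) :=
    fun φ x => spm_cls h (Subgroup.inclusion hle φ) x
  refine ⟨⟨(spm h).comp (Subgroup.inclusion hle), ?_, ?_, ?_⟩, hR⟩
  · intro A
    obtain ⟨φ, hφ⟩ := spm_surj h A
    exact ⟨⟨φ.1, φ.2, fun x => rfl⟩, hφ⟩
  · intro φ hφ
    refine ⟨fun x => rfl, fun c hc x _ => ?_⟩
    obtain ⟨L, hL⟩ := der_one_fac h hc
    rw [hL, hL, ← hR φ x, hφ]
    rfl
  · intro m φ hφ v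
    obtain ⟨y, rfl⟩ := cls_surj h v
    rw [hR]
    have h1 : ∀ i, m ∣ (cls h ((φ : MulAut G) y) i).1 - (cls h y i).1 := fun i =>
      hφ.2 _ (Bo_der_fst h i) y rfl
    have h2 : ∀ i, m ∣ (cls h ((φ : MulAut G) y) i).2 - (cls h y i).2 := fun i =>
      hφ.2 _ (Bo_der_snd h i) y rfl
    choose p hp using h1
    choose q hq using h2
    refine ⟨fun i => (p i, q i), funext fun i => Prod.ext ?_ ?_⟩
    · exact hp i
    · exact hq i

/-- The block of the trivial character. -/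
noncomputable def B1 : Block a b 1 g := (exists_B1 h).choose

theorem B1_cls (φ : St a b 1) (x : G) : (B1 h).R φ (cls h x) = cls h ((φ : MulAut G) x) :=
  (exists_B1 h).choose_spec φ x

theorem B1_B {i : Fin g} {φ : St a b 1} (hτ : IsB a b i (φ : MulAut G)) :
    (B1 h).R φ = T (f i) 1 := by
  have h1 : spm h ⟨(φ : MulAut G), φ.2.1⟩ = T (f i) 1 :=
    spm_B h (φ := ⟨(φ : MulAut G), φ.2.1⟩) hτ
  rw [← h1]
  refine sp_ext fun v => ?_
  obtain ⟨y, rfl⟩ := cls_surj h v
  rw [B1_cls]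
  exact (spm_cls h ⟨(φ : MulAut G), φ.2.1⟩ y).symm

theorem tor_UU {φ : MulAut G} (hφ : φ ∈ MCG a b) (hc : ∀ x, cls h (φ x) = cls h x) :
    φ ∈ UU a b 1 := by
  refine ⟨⟨hφ, fun θ x => ?_⟩, fun x => rfl, fun c hd x _ => ?_⟩
  · obtain ⟨η, -, hη⟩ := eta_of h θ
    rw [hη, hη, hc]
  · obtain ⟨L, hL⟩ := der_one_fac h hd
    rw [hL, hL, hc]

include h in
theorem sq_UU {i : Fin g} {τ : MulAut G} (hτ : IsB a b i τ) {θ : G →* ℤˣ} (hθ : θ (b i) = -1) :
    τ ^ 2 ∈ UU a b θ := by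
  obtain ⟨h1, h2, h3⟩ := hτ
  have hm : τ ∈ MCG a b :=
    Subgroup.subset_closure (Or.inr (Or.inr (Or.inl ⟨i, trivial, h1, h2, h3⟩)))
  have hsq : ∀ x, (τ ^ 2) x = τ (τ x) := by
    intro x
    rw [pow_two]
    rfl
  have hai : (τ ^ 2) (a i) = a i * b i * b i := by
    rw [hsq, h1, map_mul, h1, h2]
  have hak : ∀ k, k ≠ i → (τ ^ 2) (a k) = a k := by
    intro k hk
    rw [hsq, h3 k hk, h3 k hk]
  have hbk : ∀ k, (τ ^ 2) (b k) = b k := by
    intro k
    rw [hsq, h2, h2]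
  have hP : ∀ θ' : G →* ℤˣ, Pres θ' (τ ^ 2) := by
    intro θ' x
    have h4 : θ'.comp (τ ^ 2).toMonoidHom = θ' := by
      refine hom_ext h (fun k => ?_) fun k => ?_
      · change θ' ((τ ^ 2) (a k)) = θ' (a k)
        by_cases hk : k = i
        · rw [hk, hai, map_mul, map_mul, mul_assoc, Int.units_mul_self, mul_one]
        · rw [hak k hk]
      · change θ' ((τ ^ 2) (b k)) = θ' (b k)
        rw [hbk]
    exact DFunLike.congr_fun h4 x
  refine ⟨⟨(MCG a b).pow_mem hm 2, hP⟩, hP θ, fun c hc x _ => ?_⟩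
  refine IsDer.ext h (hc.comp (hP θ)) hc (fun k => ?_) (fun k => ?_) x
  · change c ((τ ^ 2) (a k)) = c (a k)
    by_cases hk : k = i
    · rw [hk, hai, hc, hc, map_mul, hθ]
      simp
    · rw [hak k hk]
  · change c ((τ ^ 2) (b k)) = c (b k)
    rw [hbk]

end Pool.Agent.H.MP_59b15d_al.H95T
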