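import Pool.Agent.H.MP_59b15d_al.h11c.Hone

/-!
# Crossed homomorphisms for sign characters

`IsDer θ c`: `c (x * y) = c x + θ x • c y`. `Triv θ φ`: `φ` preserves `θ` and the restrictions of
all crossed homomorphisms to the kernel of `θ`. `St a b θ`: the stabiliser of `θ` in the mapping
class group, `PP a b`: the stabiliser of all `θ`, `UU a b θ`: its subgroup acting trivially on the
block of `θ`. `th h w`: the sign character `x ↦ (-1) ^ om (cls x) w`.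
-/

set_option autoImplicit false

namespace Pool.Agent.H.MP_59b15d_al.H95T

open Pool.MP_59b15d_al.H24T Pool.MP_59b15d_al.H76R
open Pool.Agent.H.MP_59b15d_al.SP

section

variable {G : Type*} [Group G]

/-- A crossed homomorphism for the sign character `θ`. -/
def IsDer {E : Type*} [AddCommGroup E] (θ : G →* ℤˣ) (c : G → E) : Prop :=
  ∀ x y, c (x * y) = c x + (θ x : ℤ) • c y

/-- `φ` preserves `θ`. -/
def Pres (θ : G →* ℤˣ) (φ : MulAut G) : Prop := ∀ x, θ (φ x) = θ x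

/-- `φ` acts trivially on the block of `θ`. -/
def Triv (θ : G →* ℤˣ) (φ : MulAut G) : Prop :=
  Pres θ φ ∧ ∀ c : G → ℤ, IsDer θ c → ∀ x, θ x = 1 → c (φ x) = c x

/-- `φ` acts trivially modulo `m` on the block of `θ`. -/
def TrivN (m : ℤ) (θ : G →* ℤˣ) (φ : MulAut G) : Prop :=
  Pres θ φ ∧ ∀ c : G → ℤ, IsDer θ c → ∀ x, θ x = 1 → m ∣ c (φ x) - c x

lemma Pres.mul {θ : G →* ℤˣ} {φ ψ : MulAut G} (h1 : Pres θ φ) (h2 : Pres θ ψ) :
    Pres θ (φ * ψ) := fun x => (h1 (ψ x)).trans (h2 x)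

lemma Pres.one (θ : G →* ℤˣ) : Pres θ (1 : MulAut G) := fun _ => rfl

lemma Pres.inv {θ : G →* ℤˣ} {φ : MulAut G} (h1 : Pres θ φ) : Pres θ φ⁻¹ := by
  intro x
  have h2 := h1 (φ⁻¹ x)
  rw [MulAut.apply_inv_self] at h2
  exact h2.symm

lemma Triv.mul {θ : G →* ℤˣ} {φ ψ : MulAut G} (h1 : Triv θ φ) (h2 : Triv θ ψ) :
    Triv θ (φ * ψ) :=
  ⟨h1.1.mul h2.1, fun c hc x hx =>
    (h1.2 c hc (ψ x) ((h2.1 x).trans hx)).trans (h2.2 c hc x hx)⟩

lemma Triv.one (θ : G →* ℤˣ) : Triv θ (1 : MulAut G) := ⟨Pres.one θ, fun _ _ _ _ => rfl⟩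

lemma Triv.inv {θ : G →* ℤˣ} {φ : MulAut G} (h1 : Triv θ φ) : Triv θ φ⁻¹ := by
  refine ⟨h1.1.inv, fun c hc x hx => ?_⟩
  have h2 := h1.2 c hc (φ⁻¹ x) ((h1.1.inv x).trans hx)
  rw [MulAut.apply_inv_self] at h2
  exact h2.symm

/-- Restriction along an automorphism. -/
lemma IsDer.comp {E : Type*} [AddCommGroup E] {θ θ' : G →* ℤˣ} {c : G → E} (hc : IsDer θ c)
    {φ : MulAut G} (hφ : ∀ x, θ (φ x) = θ' x) : IsDer θ' fun x => c (φ x) := by
  intro x y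
  change c (φ (x * y)) = _
  rw [map_mul, hc, hφ]

/-- Conjugation. -/
lemma Triv.conj {θ θ' : G →* ℤˣ} {φ ψ : MulAut G} (h1 : Triv θ' φ)
    (hψ : ∀ x, θ (ψ x) = θ' x) : Triv θ (ψ * φ * ψ⁻¹) := by
  have h2 : ∀ x, θ' (ψ⁻¹ x) = θ x := by
    intro x
    rw [← hψ, MulAut.apply_inv_self]
  refine ⟨fun x => ?_, fun c hc x hx => ?_⟩
  · change θ (ψ (φ (ψ⁻¹ x))) = θ x
    rw [hψ, h1.1, h2]
  · have h3 := h1.2 _ (hc.comp hψ) (ψ⁻¹ x) ((h2 x).trans hx)
    change c (ψ (φ (ψ⁻¹ x))) = c (ψ (ψ⁻¹ x)) at h3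
    rw [MulAut.apply_inv_self] at h3
    exact h3

end

section

variable {G : Type*} [Group G] {g : ℕ}

/-- The stabiliser of `θ`. -/
def St (a b : Fin g → G) (θ : G →* ℤˣ) : Subgroup (MulAut G) where
  carrier := {φ | φ ∈ MCG a b ∧ Pres θ φ}
  mul_mem' h1 h2 := ⟨(MCG a b).mul_mem h1.1 h2.1, h1.2.mul h2.2⟩
  one_mem' := ⟨(MCG a b).one_mem, Pres.one θ⟩
  inv_mem' h1 := ⟨(MCG a b).inv_mem h1.1, h1.2.inv⟩

/-- The mapping classes which preserve all sign characters. -/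
def PP (a b : Fin g → G) : Subgroup (MulAut G) where
  carrier := {φ | φ ∈ MCG a b ∧ ∀ θ, Pres θ φ}
  mul_mem' h1 h2 := ⟨(MCG a b).mul_mem h1.1 h2.1, fun θ => (h1.2 θ).mul (h2.2 θ)⟩
  one_mem' := ⟨(MCG a b).one_mem, fun θ => Pres.one θ⟩
  inv_mem' h1 := ⟨(MCG a b).inv_mem h1.1, fun θ => (h1.2 θ).inv⟩

/-- Those which act trivially on the block of `θ`. -/
def UU (a b : Fin g → G) (θ : G →* ℤˣ) : Subgroup (MulAut G) where
  carrier := {φ | φ ∈ PP a b ∧ Triv θ φ}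
  mul_mem' h1 h2 := ⟨(PP a b).mul_mem h1.1 h2.1, h1.2.mul h2.2⟩
  one_mem' := ⟨(PP a b).one_mem, Triv.one θ⟩
  inv_mem' h1 := ⟨(PP a b).inv_mem h1.1, h1.2.inv⟩

/-- `N` is normalised by the mapping class group. -/
def Nml (a b : Fin g → G) (N : Subgroup (MulAut G)) : Prop :=
  ∀ f ∈ MCG a b, ∀ x ∈ N, f * x * f⁻¹ ∈ N

/-- The isolation property for the block of `θ`. -/
def Iso (a b : Fin g → G) (N : Subgroup (MulAut G)) (θ : G →* ℤˣ) : Prop :=
  ∃ m : ℤ, m ≠ 0 ∧ ∀ φ ∈ PP a b, TrivN m θ φ →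
    ∃ x ∈ N, x ∈ PP a b ∧ (∀ θ', θ' ≠ θ → Triv θ' x) ∧ Triv θ (x⁻¹ * φ)

/-- The sign. -/
def sg (n : ℤ) : ℤˣ := (-1) ^ n

lemma sg_add (m n : ℤ) : sg (m + n) = sg m * sg n := zpow_add _ _ _

lemma sg_zero : sg 0 = 1 := rfl

lemma sg_one : sg 1 = -1 := rfl

lemma sg_neg_one : sg (-1) = -1 := by rw [sg, zpow_neg_one]; rfl

variable {a b : Fin g → G}

/-- The sign character of `w`. -/
noncomputable def th (h : IsSurf a b) (w : V g) : G →* ℤˣ where
  toFun x := sg (om (cls h x) w)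
  map_one' := by rw [cls_one, om_zero_left]; rfl
  map_mul' x y := by rw [cls_mul, om_add_left, sg_add]

lemma th_apply (h : IsSurf a b) (w : V g) (x : G) : th h w x = sg (om (cls h x) w) := rfl

/-- A block: an action of the stabiliser of `θ` by symplectic matrices, which detects the triviality
on the block of `θ`. -/
structure Block (a b : Fin g → G) (θ : G →* ℤˣ) (n : ℕ) where
  R : St a b θ →* Sp n
  surj : Function.Surjective R
  triv : ∀ φ, R φ = 1 → Triv θ φ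
  lev : ∀ (m : ℤ) (φ : St a b θ), TrivN m θ φ → Cg m (R φ)

/-- The image of a subgroup. -/
def Block.im {θ : G →* ℤˣ} {n : ℕ} (B : Block a b θ n) (F : Subgroup (MulAut G)) :
    Subgroup (Sp n) := (F.subgroupOf (St a b θ)).map B.R

end

section

variable {n : ℕ}

/-- The orbit of the basis vectors. -/
def Orb (v : V n) : Prop := ∃ (A : Sp n) (i : Fin n), A (f i) = v

/-- `U` contains a power of each transvection. -/
def Full (U : Subgroup (Sp n)) : Prop := ∀ v, Orb v → ∃ m : ℤ, m ≠ 0 ∧ T v m ∈ U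

end

end Pool.Agent.H.MP_59b15d_al.H95T
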