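import Pool.Agent.H.MP_59b15d_al.h95t.Defs

/-!
# Crossed homomorphisms: basic facts

PROOFS. `IsDer.one'`: `c (1 * 1)`. `IsDer.inv'`: `c (x * x⁻¹) = 0` and `θ x * θ x = 1`.
`IsDer.comm1`: if `θ x = 1`, `θ y = 1`, `c (x * y * x⁻¹ * y⁻¹) = 0`.
`IsDer.ext`: the set of all `x` with `c x = c' x` is a subgroup (closed under products and
inverses by `IsDer.inv'`) and contains the generators; `h.closure_eq` (file h24t/Surf.lean).
`exists_der`: in the semidirect product `Multiplicative E ⋊ ℤˣ` (action by sign; or any explicit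
group structure on `E × ℤˣ`: `(u, s) * (v, t) = (u + s • v, s * t)`) the elements
`(u i, θ (a i))` and `(v i, θ (b i))` commute by `hr`, so `relWord = 1` (list product of ones), and
`IsSurf.lift` gives a homomorphism `F`; its second component is `θ` by `hom_ext`
(h76r/Ra.lean); its first component is `c`.
`der_b0`: `θ = th h (f 0)` has `θ (a 0) = -1` (`cls_a`, `om_e_f`, `sg_one`), `θ (b 0) = 1`,
`θ (a i.succ) = 1 = θ (b i.succ)`. The set `S` of all `x` with `θ x = 1` and `c x = 0` is a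
subgroup; it contains the commutators of `a i.succ, b i.succ`, so `relWord` of the last `n` handles
is in `S`; `relWord_succ` (h24t/Ab.lean) and `IsSurf.relWord_eq` give that
`a 0 * b 0 * (a 0)⁻¹ * (b 0)⁻¹` is in `S`. Now `c (a 0 * b 0) = c (b 0 * a 0)` (multiply), i.e.
`c (a 0) - c (b 0) = c (b 0) + c (a 0)`, so `2 • c (b 0) = 0`.
-/

set_option autoImplicit false

namespace Pool.Agent.H.MP_59b15d_al.H95T

open Pool.MP_59b15d_al.H24T Pool.MP_59b15d_al.H76R
open Pool.Agent.H.MP_59b15d_al.SP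

section

/-- The semidirect product of `E` and the signs. -/
private structure Dr_T (E : Type*) where
  u : E
  s : ℤˣ

private theorem Dr_T.ext' {E : Type*} {x y : Dr_T E} (h1 : x.u = y.u) (h2 : x.s = y.s) :
    x = y := by
  cases x
  cases y
  cases h1
  cases h2
  rfl

private theorem Dr_sq (s : ℤˣ) : (s : ℤ) * (s : ℤ) = 1 := by
  rw [← Units.val_mul, Int.units_mul_self, Units.val_one]

private instance Dr_T_mul {E : Type*} [AddCommGroup E] : Mul (Dr_T E) :=
  ⟨fun x y => ⟨x.u + (x.s : ℤ) • y.u, x.s * y.s⟩⟩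

private instance Dr_T_one {E : Type*} [AddCommGroup E] : One (Dr_T E) := ⟨⟨0, 1⟩⟩

private instance Dr_T_inv {E : Type*} [AddCommGroup E] : Inv (Dr_T E) :=
  ⟨fun x => ⟨-((x.s : ℤ) • x.u), x.s⟩⟩

private instance Dr_T_group {E : Type*} [AddCommGroup E] : Group (Dr_T E) :=
  Group.ofLeftAxioms
    (by
      intro x y z
      apply Dr_T.ext'
      · change x.u + (x.s : ℤ) • y.u + ((x.s * y.s : ℤˣ) : ℤ) • z.u =
          x.u + (x.s : ℤ) • (y.u + (y.s : ℤ) • z.u)
        rw [Units.val_mul, mul_smul, smul_add, add_assoc]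
      · exact mul_assoc _ _ _)
    (by
      intro x
      apply Dr_T.ext'
      · change 0 + ((1 : ℤˣ) : ℤ) • x.u = x.u
        rw [Units.val_one, one_smul, zero_add]
      · exact one_mul _)
    (by
      intro x
      apply Dr_T.ext'
      · change -((x.s : ℤ) • x.u) + (x.s : ℤ) • x.u = 0
        rw [neg_add_cancel]
      · exact Int.units_mul_self _)

variable {G E : Type*} [Group G] [AddCommGroup E] {θ : G →* ℤˣ} {c c' : G → E}

theorem IsDer.one' (hc : IsDer θ c) : c 1 = 0 := by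
  have h1 := hc 1 1
  rw [mul_one, map_one, Units.val_one, one_smul] at h1
  exact left_eq_add.1 h1

theorem IsDer.inv' (hc : IsDer θ c) (x : G) : c x⁻¹ = -((θ x : ℤ) • c x) := by
  have h1 := hc x x⁻¹
  rw [mul_inv_cancel, hc.one'] at h1
  have h2 : (θ x : ℤ) • c x⁻¹ = -c x := eq_neg_of_add_eq_zero_right h1.symm
  have h3 := congrArg (fun z => (θ x : ℤ) • z) h2
  simp only [smul_smul, Dr_sq, one_smul, smul_neg] at h3
  exact h3

theorem IsDer.sub' (hc : IsDer θ c) (hc' : IsDer θ c') : IsDer θ fun x => c x - c' x := by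
  intro x y
  simp only [hc x y, hc' x y, smul_sub]
  abel

/-- Linear images. -/
theorem IsDer.map {E' : Type*} [AddCommGroup E'] (hc : IsDer θ c) (L : E →ₗ[ℤ] E') :
    IsDer θ fun x => L (c x) := by
  intro x y
  simp only [hc x y, map_add, map_smul]

theorem IsDer.ext {g : ℕ} {a b : Fin g → G} (h : IsSurf a b) (hc : IsDer θ c)
    (hc' : IsDer θ c') (ha : ∀ i, c (a i) = c' (a i)) (hb : ∀ i, c (b i) = c' (b i)) (x : G) :
    c x = c' x := by
  let S : Subgroup G :=
    { carrier := {x | c x = c' x}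
      mul_mem' := by
        intro x y hx hy
        change c (x * y) = c' (x * y)
        rw [hc x y, hc' x y, show c x = c' x from hx, show c y = c' y from hy]
      one_mem' := by
        change c 1 = c' 1
        rw [hc.one', hc'.one']
      inv_mem' := by
        intro x hx
        change c x⁻¹ = c' x⁻¹
        rw [hc.inv', hc'.inv', show c x = c' x from hx] }
  have h1 : S = ⊤ := by
    rw [eq_top_iff, ← h.closure_eq, Subgroup.closure_le]
    rintro _ (⟨i, rfl⟩ | ⟨i, rfl⟩)
    · exact ha i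
    · exact hb i
  have h2 : x ∈ S := by rw [h1]; trivial
  exact h2

theorem exists_der {g : ℕ} {a b : Fin g → G} (h : IsSurf a b) (θ : G →* ℤˣ) (u v : Fin g → E)
    (hr : ∀ i, u i + (θ (a i) : ℤ) • v i = v i + (θ (b i) : ℤ) • u i) :
    ∃ c : G → E, IsDer θ c ∧ (∀ i, c (a i) = u i) ∧ ∀ i, c (b i) = v i := by
  let p : Fin g → Dr_T E := fun i => ⟨u i, θ (a i)⟩
  let q : Fin g → Dr_T E := fun i => ⟨v i, θ (b i)⟩
  have hpq : ∀ i, p i * q i * (p i)⁻¹ * (q i)⁻¹ = 1 := by
    intro i
    have h1 : p i * q i = q i * p i := by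
      apply Dr_T.ext'
      · exact hr i
      · exact mul_comm _ _
    rw [h1, mul_inv_cancel_right, mul_inv_cancel]
  have hw : relWord p q = 1 := by
    unfold relWord
    rw [List.prod_eq_one]
    intro x hx
    rw [List.mem_ofFn] at hx
    obtain ⟨i, rfl⟩ := hx
    exact hpq i
  obtain ⟨F, hFa, hFb⟩ := h.lift p q hw
  let sgn : Dr_T E →* ℤˣ :=
    { toFun := fun x => x.s
      map_one' := rfl
      map_mul' := fun _ _ => rfl }
  have h2 : sgn.comp F = θ := by
    apply hom_ext h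
    · intro i
      change (F (a i)).s = θ (a i)
      rw [hFa]
    · intro i
      change (F (b i)).s = θ (b i)
      rw [hFb]
  have h3 : ∀ x, (F x).s = θ x := fun x => DFunLike.congr_fun h2 x
  refine ⟨fun x => (F x).u, ?_, ?_, ?_⟩
  · intro x y
    change (F (x * y)).u = (F x).u + (θ x : ℤ) • (F y).u
    rw [map_mul, ← h3]
    rfl
  · intro i
    change (F (a i)).u = u i
    rw [hFa]
  · intro i
    change (F (b i)).u = v i
    rw [hFb]

end

section

variable {G : Type*} [Group G] {n : ℕ} {a b : Fin (n + 1) → G} (h : IsSurf a b)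

theorem th0_a0 : th h (f 0) (a 0) = -1 := by
  rw [th_apply, cls_a, om_e_f, sg_one]

theorem th0_b0 : th h (f 0) (b 0) = 1 := by
  rw [th_apply, cls_b, om_f_f, sg_zero]

theorem th0_a (i : Fin n) : th h (f 0) (a i.succ) = 1 := by
  rw [th_apply, cls_a, om_e_f_ne (Fin.succ_ne_zero i), sg_zero]

theorem th0_b (i : Fin n) : th h (f 0) (b i.succ) = 1 := by
  rw [th_apply, cls_b, om_f_f, sg_zero]

private theorem Dr_comm {G E : Type*} [Group G] [AddCommGroup E] {θ : G →* ℤˣ} {c : G → E}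
    (hc : IsDer θ c) {x y : G} (hx : θ x = 1) (hy : θ y = 1) :
    θ (x * y * x⁻¹ * y⁻¹) = 1 ∧ c (x * y * x⁻¹ * y⁻¹) = 0 := by
  constructor
  · simp only [map_mul, map_inv, hx, hy, inv_one, mul_one]
  · rw [hc (x * y * x⁻¹) y⁻¹, hc (x * y) x⁻¹, hc x y, hc.inv', hc.inv']
    simp only [map_mul, map_inv, hx, hy, inv_one, mul_one, Units.val_one, one_smul]
    abel

private theorem Dr_relWord_succ {P : Type*} [Group P] {k : ℕ} (x y : Fin (k + 1) → P) :
    relWord x y = x 0 * y 0 * (x 0)⁻¹ * (y 0)⁻¹ *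
      relWord (fun i => x i.succ) (fun i => y i.succ) := by
  unfold relWord
  rw [List.ofFn_succ, List.prod_cons]

theorem der_b0 {E : Type*} [AddCommGroup E] (hE : ∀ x : E, x + x = 0 → x = 0) {c : G → E}
    (hc : IsDer (th h (f 0)) c) : c (b 0) = 0 := by
  let S : Subgroup G :=
    { carrier := {x | th h (f 0) x = 1 ∧ c x = 0}
      mul_mem' := by
        rintro x y ⟨hx, hx'⟩ ⟨hy, hy'⟩
        refine ⟨?_, ?_⟩
        · rw [map_mul, hx, hy, mul_one]
        · rw [hc x y, hx', hy', smul_zero, add_zero]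
      one_mem' := ⟨map_one _, hc.one'⟩
      inv_mem' := by
        rintro x ⟨hx, hx'⟩
        refine ⟨?_, ?_⟩
        · rw [map_inv, hx, inv_one]
        · rw [hc.inv', hx', smul_zero, neg_zero] }
  have h1 : relWord (fun i : Fin n => a i.succ) (fun i => b i.succ) ∈ S := by
    unfold relWord
    apply Subgroup.list_prod_mem
    intro x hx
    rw [List.mem_ofFn] at hx
    obtain ⟨i, rfl⟩ := hx
    exact Dr_comm hc (th0_a h i) (th0_b h i)
  have h2 := Dr_relWord_succ a b
  rw [h.relWord_eq] at h2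
  have h3 : a 0 * b 0 * (a 0)⁻¹ * (b 0)⁻¹ ∈ S := by
    rw [eq_inv_of_mul_eq_one_left h2.symm]
    exact S.inv_mem h1
  obtain ⟨h4, h5⟩ := h3
  have h6 := hc (a 0 * b 0 * (a 0)⁻¹ * (b 0)⁻¹) (b 0 * a 0)
  rw [h4, h5, Units.val_one, one_smul, zero_add,
    show a 0 * b 0 * (a 0)⁻¹ * (b 0)⁻¹ * (b 0 * a 0) = a 0 * b 0 by group, hc (a 0) (b 0),
    hc (b 0) (a 0), th0_a0, th0_b0] at h6
  rw [Units.val_neg, Units.val_one, neg_smul, one_smul, one_smul] at h6
  apply hE
  have h7 : c (b 0) + c (b 0) = c (b 0) + c (a 0) - (c (a 0) + -c (b 0)) := by abel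
  rw [h7, ← h6, sub_self]

end

end Pool.Agent.H.MP_59b15d_al.H95T
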