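import Pool.Agent.H.MP_59b15d_al.R.Iso
import Pool.Agent.H.MP_59b15d_al.h95t.Defs

/-!
# Triviality on all blocks implies triviality on the abelianization of `K`

`KK G` is the intersection of the kernels of all sign characters (for a finitely generated group:
the kernel of `G → H₁(G; ℤ/2)`). The transfer argument is in `R/Tr.lean`, the torsion in
`R/Iso.lean`.
-/

set_option autoImplicit false

namespace Pool.Agent.H.MP_59b15d_al.H95T

open Pool.MP_59b15d_al.H24T Pool.MP_59b15d_al.H76R Pool.MP_59b15d_al.H76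
open Pool.Agent.H.MP_59b15d_al.SP

/-- The intersection of the kernels of the sign characters. -/
def KK (G : Type*) [Group G] : Subgroup G := ⨅ θ : G →* ℤˣ, θ.ker

section

variable {G : Type*} [Group G]

theorem mem_KK {x : G} : x ∈ KK G ↔ ∀ θ : G →* ℤˣ, θ x = 1 := by
  unfold KK
  rw [Subgroup.mem_iInf]
  exact Iff.rfl

theorem KK_char : (KK G).Characteristic := by
  rw [Subgroup.characteristic_iff_le_comap]
  intro φ x hx
  rw [Subgroup.mem_comap, mem_KK]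
  rw [mem_KK] at hx
  intro θ
  exact hx (θ.comp φ.toMonoidHom)

theorem KK_fi (hf : Finite (G →* ℤˣ)) : (KK G).FiniteIndex :=
  Subgroup.finiteIndex_iInf fun θ => Subgroup.finiteIndex_ker θ

private theorem Ea_sq (x : G) : x * x ∈ KK G := by
  rw [mem_KK]
  intro θ
  rw [map_mul, Int.units_mul_self]

private theorem Ea_triv {φ : MulAut G} (hφ : ∀ θ, Triv θ φ) (x : G) : φ x * x⁻¹ ∈ KK G := by
  rw [mem_KK]
  intro θ
  rw [map_mul, map_inv, (hφ θ).1 x, mul_inv_cancel]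

private theorem Ea_fix {φ : MulAut G} (hφ : ∀ θ, Triv θ φ) (θ : G →* ℤˣ) (c : G → ℤ)
    (hc : R.IsCr θ c) (y : G) (hy : y ∈ KK G) : c (φ y) = c y := by
  refine (hφ θ).2 c (fun u v => ?_) y (mem_KK.1 hy θ)
  rw [smul_eq_mul]
  exact hc u v

private theorem Ea_hom (hf : Finite (G →* ℤˣ)) {φ : MulAut G} (hφ : ∀ θ, Triv θ φ) {f : G → ℤ}
    (hh : R.HomOn (KK G) f) {y : G} (hy : y ∈ KK G) : f (φ y) = f y := by
  have hc := KK_char (G := G)
  exact R.hom_fix (KK G) (KK_fi hf) Ea_sq (Ea_triv hφ) (fun θ _ c hcr y hy => Ea_fix hφ θ c hcr y hy)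
    hh hy

theorem triv_hom (hf : Finite (G →* ℤˣ)) {φ : MulAut G} (hφ : ∀ θ, Triv θ φ)
    (p : KK G →* Multiplicative ℤ) (x y : KK G) (hxy : (y : G) = φ x) : p y = p x := by
  classical
  obtain ⟨q, hq⟩ : ∃ q : G → ℤ, q = fun z =>
      if hz : z ∈ KK G then Multiplicative.toAdd (p ⟨z, hz⟩) else 0 := ⟨_, rfl⟩
  have h1 : ∀ z : KK G, q z = Multiplicative.toAdd (p z) := by
    intro z
    rw [hq]
    exact dif_pos z.2
  have h2 : R.HomOn (KK G) q := by
    intro u hu v hv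
    have h3 := h1 (⟨u, hu⟩ * ⟨v, hv⟩)
    rw [map_mul, toAdd_mul, ← h1, ← h1] at h3
    exact h3
  have h3 := Ea_hom hf hφ h2 x.2
  rw [← hxy, h1, h1] at h3
  exact Multiplicative.toAdd.injective h3

theorem end_triv [Group.FG G] (hf : Finite (G →* ℤˣ)) :
    ∃ Δ : Subgroup G, Δ.Characteristic ∧ Δ.FiniteIndex ∧
      ∀ φ : MulAut G, (∀ θ, Triv θ φ) → φ ∈ trivMod Δ →
        φ ∈ trivMod (KK G) ∧ ∀ y ∈ KK G, φ y * y⁻¹ ∈ ⁅KK G, KK G⁆ := by
  have hc := KK_char (G := G)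
  obtain ⟨Δ, h1, h2, h3⟩ := R.tors_sep (KK G) (KK_fi hf)
  exact ⟨Δ, h1, h2, fun φ hφ h4 => ⟨Ea_triv hφ, h3 φ h4 fun f hh y hy => Ea_hom hf hφ hh hy⟩⟩

end

end Pool.Agent.H.MP_59b15d_al.H95T
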