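import Pool.Agent.H.MP_59b15d_al.h95t.Dr

/-!
# Levels

PROOFS. Let `Q` be the finite group of all `(x, s)`, `x : ZMod m`, `s : ℤˣ`, with
`(x, s) * (x', s') = (x + s x', s s')` (e.g. `Multiplicative (ZMod m) ⋊ ℤˣ`, or the dihedral group; `m`
replaced by `m.natAbs`, which is not 0). For a sign character `θ` and a crossed homomorphism `c`
the map `x ↦ (c x mod m, θ x)` is a homomorphism `G →* Q`. Let `Γ` be the intersection of the
kernels of all homomorphisms `G →* Q`; it is characteristic, and of finite index because `G` is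
finitely generated, so that there are only finitely many homomorphisms to the finite group `Q`
(`R.sep`, `surf_fg` and the lemma `exists_char_lev` in lin/Cong.lean show how this is done in the
library; a homomorphism is determined by its values on the generators of `G`).
`trivN_of_lev`: for `φ` trivial modulo `Γ`, `φ x = y * x` with `y` in `Γ`: `θ (φ x) = θ x`, and
`c (φ x) = c y + θ y • c x = c y + c x`, `m ∣ c y`.
-/

set_option autoImplicit false

namespace Pool.Agent.H.MP_59b15d_al.H95T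

open Pool.MP_59b15d_al.H24T Pool.MP_59b15d_al.H76R Pool.MP_59b15d_al.H76
open Pool.Agent.H.MP_59b15d_al.SP

section

/-- The semidirect product of `ZMod N` and the signs. -/
private structure Lv_Q (N : ℕ) where
  u : ZMod N
  s : ℤˣ

private theorem Lv_Q.ext' {N : ℕ} {x y : Lv_Q N} (h1 : x.u = y.u) (h2 : x.s = y.s) : x = y := by
  cases x
  cases y
  cases h1
  cases h2
  rfl

private instance Lv_Q_mul {N : ℕ} : Mul (Lv_Q N) :=
  ⟨fun x y => ⟨x.u + (x.s : ℤ) • y.u, x.s * y.s⟩⟩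

private instance Lv_Q_one {N : ℕ} : One (Lv_Q N) := ⟨⟨0, 1⟩⟩

private instance Lv_Q_inv {N : ℕ} : Inv (Lv_Q N) := ⟨fun x => ⟨-((x.s : ℤ) • x.u), x.s⟩⟩

private instance Lv_Q_group {N : ℕ} : Group (Lv_Q N) :=
  Group.ofLeftAxioms
    (by
      intro x y z
      apply Lv_Q.ext'
      · change x.u + (x.s : ℤ) • y.u + ((x.s * y.s : ℤˣ) : ℤ) • z.u =
          x.u + (x.s : ℤ) • (y.u + (y.s : ℤ) • z.u)
        rw [Units.val_mul, mul_smul, smul_add, add_assoc]
      · exact mul_assoc _ _ _)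
    (by
      intro x
      apply Lv_Q.ext'
      · change 0 + ((1 : ℤˣ) : ℤ) • x.u = x.u
        rw [Units.val_one, one_smul, zero_add]
      · exact one_mul _)
    (by
      intro x
      apply Lv_Q.ext'
      · change -((x.s : ℤ) • x.u) + (x.s : ℤ) • x.u = 0
        rw [neg_add_cancel]
      · exact Int.units_mul_self _)

private theorem Lv_Q_finite {N : ℕ} [NeZero N] : Finite (Lv_Q N) := by
  refine Finite.of_injective (fun x : Lv_Q N => (x.u, x.s)) ?_
  intro x y hxy
  exact Lv_Q.ext' (congrArg Prod.fst hxy) (congrArg Prod.snd hxy)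

variable {G : Type*} [Group G]

private theorem Lv_finite_hom [Group.FG G] {Q : Type*} [Group Q] [Finite Q] :
    Finite (G →* Q) := by
  obtain ⟨S, hS, hSf⟩ := Group.fg_iff.1 (inferInstance : Group.FG G)
  have hfin : Finite S := hSf
  refine Finite.of_injective (fun (F : G →* Q) (s : S) => F s) ?_
  intro F F' hF
  refine MonoidHom.eq_of_eqOn_dense hS ?_
  intro x hx
  exact congrFun hF ⟨x, hx⟩

/-- The homomorphism of a crossed homomorphism. -/
private def Lv_hom {N : ℕ} {θ : G →* ℤˣ} {c : G → ℤ} (hc : IsDer θ c) : G →* Lv_Q N where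
  toFun x := ⟨(c x : ZMod N), θ x⟩
  map_one' := by
    apply Lv_Q.ext'
    · change ((c 1 : ℤ) : ZMod N) = 0
      rw [hc.one', Int.cast_zero]
    · exact map_one θ
  map_mul' x y := by
    apply Lv_Q.ext'
    · change ((c (x * y) : ℤ) : ZMod N) = (c x : ZMod N) + (θ x : ℤ) • (c y : ZMod N)
      rw [hc x y, smul_eq_mul, Int.cast_add, Int.cast_mul, zsmul_eq_mul]
    · exact map_mul θ x y

theorem exists_lev [Group.FG G] {m : ℤ} (hm : m ≠ 0) :
    ∃ Γ : Subgroup G, Γ.Characteristic ∧ Γ.FiniteIndex ∧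
      ∀ x ∈ Γ, ∀ θ : G →* ℤˣ, θ x = 1 ∧ ∀ c : G → ℤ, IsDer θ c → m ∣ c x := by
  have hN : NeZero m.natAbs := ⟨Int.natAbs_ne_zero.2 hm⟩
  have hQ : Finite (Lv_Q m.natAbs) := Lv_Q_finite
  have hH : Finite (G →* Lv_Q m.natAbs) := Lv_finite_hom
  refine ⟨⨅ F : G →* Lv_Q m.natAbs, F.ker, ?_, ?_, ?_⟩
  · rw [Subgroup.characteristic_iff_le_comap]
    intro φ x hx
    rw [Subgroup.mem_comap, Subgroup.mem_iInf]
    rw [Subgroup.mem_iInf] at hx
    intro F
    exact hx (F.comp φ.toMonoidHom)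
  · exact Subgroup.finiteIndex_iInf fun F => Subgroup.finiteIndex_ker F
  · intro x hx θ
    rw [Subgroup.mem_iInf] at hx
    have key : ∀ c : G → ℤ, IsDer θ c → θ x = 1 ∧ m ∣ c x := by
      intro c hc
      have h1 : Lv_hom hc x = (1 : Lv_Q m.natAbs) := hx (Lv_hom hc)
      have h2 : ((c x : ℤ) : ZMod m.natAbs) = 0 := congrArg Lv_Q.u h1
      have h3 : θ x = 1 := congrArg Lv_Q.s h1
      refine ⟨h3, ?_⟩
      have h4 := (ZMod.intCast_zmod_eq_zero_iff_dvd _ _).1 h2
      exact Int.natAbs_dvd.1 h4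
    refine ⟨(key (fun _ => 0) (fun _ _ => by simp)).1, fun c hc => (key c hc).2⟩

theorem exists_trivN [Group.FG G] {m : ℤ} (hm : m ≠ 0) :
    ∃ Γ : Subgroup G, Γ.Characteristic ∧ Γ.FiniteIndex ∧
      ∀ φ ∈ trivMod Γ, ∀ θ, TrivN m θ φ := by
  obtain ⟨Γ, h1, h2, h3⟩ := exists_lev (G := G) hm
  refine ⟨Γ, h1, h2, fun φ hφ θ => ?_⟩
  have h4 : ∀ x, φ x * x⁻¹ ∈ Γ := fun x => hφ x
  refine ⟨fun x => ?_, fun c hc x _ => ?_⟩
  · have h5 := (h3 _ (h4 x) θ).1
    rw [map_mul, map_inv] at h5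
    exact mul_inv_eq_one.1 h5
  · have h5 := h3 _ (h4 x) θ
    have h6 := hc (φ x * x⁻¹) x
    rw [inv_mul_cancel_right, h5.1, Units.val_one, one_smul] at h6
    rw [h6, add_sub_cancel_right]
    exact h5.2 c hc

end

end Pool.Agent.H.MP_59b15d_al.H95T
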