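import Pool.Agent.H.MP_59b15d_al.h95t.IsC
import Pool.Agent.H.MP_59b15d_al.h95t.Ea
import Pool.Agent.H.MP_59b15d_al.h95t.Lv

/-!
# The theorem
-/

set_option autoImplicit false

namespace Pool.Agent.H.MP_59b15d_al.H95T

open Pool.MP_59b15d_al.H24T Pool.MP_59b15d_al.H76R Pool.MP_59b15d_al.H76
open Pool.Agent.H.MP_59b15d_al.SP

variable {G : Type*} [Group G] {g : ℕ} {a b : Fin g → G}

/-- Subgroups containing the mapping classes trivial modulo `[K, K]`. -/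
theorem base (h : IsSurf a b) (hg : 4 ≤ g) : R.CongAbove (MCG a b) ⁅KK G, KK G⁆ := by
  have hGfg : Group.FG G := surf_fg h
  have hfin : Finite (G →* ℤˣ) := finite_char h
  have hKc : (KK G).Characteristic := KK_char
  have hKf : (KK G).FiniteIndex := KK_fi hfin
  refine R.congAbove_of_normal (Subgroup.commutator_characteristic _ _) ?_
  intro N hNM hn hf hle
  obtain ⟨Γ₁, hc1, hf1, h1⟩ := R.end_part (KK G) hKc hKf (MCG a b) N hf hle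
  obtain ⟨Δ, hcΔ, hfΔ, h2⟩ := end_triv (G := G) hfin
  have hc2 : (Γ₁ ⊓ Δ).Characteristic := inf_char hc1 hcΔ
  have hf2 : (Γ₁ ⊓ Δ).FiniteIndex := inferInstance
  have hN1 : Nml a b (N ⊓ trivMod (Γ₁ ⊓ Δ)) := by
    rintro ψ hψ x ⟨hx1, hx2⟩
    exact ⟨hn ψ hψ x hx1, (trivMod_normal hc2).conj_mem x hx2 ψ⟩
  have hf3 : (N ⊓ trivMod (Γ₁ ⊓ Δ)).relIndex (MCG a b) ≠ 0 := by
    have e1 : (trivMod (Γ₁ ⊓ Δ)).FiniteIndex := trivMod_finiteIndex hc2 hf2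
    have e2 : ((trivMod (Γ₁ ⊓ Δ)).subgroupOf (MCG a b)).FiniteIndex := inferInstance
    have e3 : (N.subgroupOf (MCG a b)).FiniteIndex := ⟨hf⟩
    have e4 : ((N ⊓ trivMod (Γ₁ ⊓ Δ)).subgroupOf (MCG a b)).FiniteIndex := by
      have e5 : (N ⊓ trivMod (Γ₁ ⊓ Δ)).subgroupOf (MCG a b) =
          N.subgroupOf (MCG a b) ⊓ (trivMod (Γ₁ ⊓ Δ)).subgroupOf (MCG a b) := rfl
      rw [e5]
      infer_instance
    exact e4.index_ne_zero
  obtain ⟨m, hm, h3⟩ := split h hg hN1 hf3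
  obtain ⟨Γ₂, hc3, hf4, h4⟩ := exists_trivN (G := G) hm
  refine ⟨(Γ₁ ⊓ Δ) ⊓ Γ₂, inf_char hc2 hc3, inferInstance, fun φ hφ hφt => ?_⟩
  have hφ1 : φ ∈ trivMod (Γ₁ ⊓ Δ) := trivMod_mono inf_le_left hφt
  obtain ⟨x, hx, hxM, hxt⟩ := h3 φ hφ (h4 φ (trivMod_mono inf_le_right hφt))
  have hy : x⁻¹ * φ ∈ trivMod (Γ₁ ⊓ Δ) := Subgroup.mul_mem _ (Subgroup.inv_mem _ hx.2) hφ1
  obtain ⟨h5, h6⟩ := h2 _ hxt (trivMod_mono inf_le_right hy)
  have h7 := h1 _ (Subgroup.mul_mem _ (Subgroup.inv_mem _ hxM) hφ) h5 h6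
    (trivMod_mono inf_le_left hy)
  have h8 := N.mul_mem hx.1 h7
  rwa [mul_inv_cancel_left] at h8

theorem lc_eq (K : Subgroup G) (k : ℕ) : R.lc K k = K.lowerCentralSeries k := by
  induction k with
  | zero => rfl
  | succ k ih => rw [R.lc_succ, ih]; rfl

/-- The congruence subgroup property above the lower central series of `K`. -/
theorem main (h : IsSurf a b) (hg : 4 ≤ g) (k : ℕ) (H : Subgroup (MulAut G))
    (hH : H.relIndex (MCG a b) ≠ 0)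
    (hD : ∀ φ ∈ MCG a b, (∀ x, φ x * x⁻¹ ∈ (KK G).lowerCentralSeries k) → φ ∈ H) :
    ∃ Γ : Subgroup G, Γ.Characteristic ∧ Γ.FiniteIndex ∧
      (∀ φ ∈ MCG a b, (∀ x, φ x * x⁻¹ ∈ Γ) → φ ∈ H) ∧
      ((∀ x : G, MulAut.conj x ∈ H) → ∀ φ ∈ MCG a b, InnMod Γ φ → φ ∈ H) := by
  have hGfg : Group.FG G := surf_fg h
  have hfin : Finite (G →* ℤˣ) := finite_char h
  have hKc : (KK G).Characteristic := KK_char
  have hKf : (KK G).FiniteIndex := KK_fi hfin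
  obtain ⟨Γ, hc, hf, h1⟩ := R.devissage (KK G) hKf (MCG a b) (base h hg) k H hH
    (fun φ hφ hφt => hD φ hφ (fun x => by rw [← lc_eq]; exact hφt x))
  refine ⟨Γ, hc, hf, h1, fun hI φ hφ hi => ?_⟩
  have hn : Γ.Normal := inferInstance
  obtain ⟨x, hx⟩ := (innMod_iff hn).1 hi
  have hM : MulAut.conj x ∈ MCG a b := Subgroup.subset_closure (Or.inl ⟨x, rfl⟩)
  have h2 := h1 _ ((MCG a b).mul_mem ((MCG a b).inv_mem hM) hφ) hx
  have h3 := H.mul_mem (hI x) h2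
  rwa [mul_inv_cancel_left] at h3

end Pool.Agent.H.MP_59b15d_al.H95T
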