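import Pool.Agent.H.MP_59b15d_al.h76r.Defs
import Pool.Agent.H.MP_59b15d_al.h76r.Ra
import Pool.Agent.H.MP_59b15d_al.sp.Base

/-!
# The relator word in central extensions

`π : E → Q` a homomorphism with central kernel, `p : G → Q`; `RW π a b p z`: `z` is the product of the
commutators of lifts of `p (a i)` and `p (b i)`.

PROOFS. `RW.unique`: if `π x = π x'`, `π y = π y'` then `x' = x * c`, `y' = y * d` with `c, d` central, so
`x' * y' * x'⁻¹ * y'⁻¹ = x * y * x⁻¹ * y⁻¹`; so the lists in the two `relWord`s are equal.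
`RW.exists`: choose lifts (`π` onto).
`RW.comp`: Let `Z` be the set of all `φ : MulAut G` such that for all `p`, `z`:
`RW p z ↔ RW (p.comp φ) z`. It is a subgroup (`p.comp φ⁻¹` for the inverse). It suffices that for each
generator `τ` of `MCG` and all `p`, `z`: `RW p z → RW (p.comp τ) z`; the converse follows: `RW p z'` for
some `z'` by `RW.exists`, so `RW (p.comp τ) z'`, `z = z'` by `RW.unique`. Generators, with lifts `A, B`
of `p (a i)`, `p (b i)`:
 inner automorphism by `x`: let `X` be a lift of `p x`; the elements `X * A i * X⁻¹`, `X * B i * X⁻¹` are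
lifts of `p (x * a i * x⁻¹)`, ..; their `relWord` is `X * z * X⁻¹`, and this is `z`, because `z` is
central: `π z = relWord (p (a i)) (p (b i)) = p (relWord a b) = 1`.
 `IsA a b i τ`: lifts `A k`, `if k = i then B k * A k else B k`; the commutators do not change:
`x * (y * x) * x⁻¹ * (y * x)⁻¹ = x * y * x⁻¹ * y⁻¹`. `IsB`: `(x * y) * y * (x * y)⁻¹ * y⁻¹ = ..`.
 `IsC a b i j τ` (here `(j : ℕ) = i + 1` in `Twists`): with `U = (A j)⁻¹ * B i` the lifts
`A i * U`, `U⁻¹ * A j * U * U` (for `b i`), `U⁻¹ * A j * U`, `B j * U`, the others unchanged; by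
`relWord_tele` (h76r/Ra.lean) exactly as in the proof of `exists_TC` in h76r/Rb.lean (with
`e k = (new commutator i)⁻¹ * (old commutator i)` for `k = i + 1` and `e k = 1` otherwise).
-/

set_option autoImplicit false

namespace Pool.Agent.H.MP_59b15d_al.H95T

open Pool.MP_59b15d_al.H24T Pool.MP_59b15d_al.H76R
open Pool.Agent.H.MP_59b15d_al.SP

section

variable {E Q G : Type*} [Group E] [Group Q] [Group G] {g : ℕ}

/-- `z` is the product of the commutators of lifts. -/
def RW (π : E →* Q) (a b : Fin g → G) (p : G →* Q) (z : E) : Prop :=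
  ∃ A B : Fin g → E, (∀ i, π (A i) = p (a i)) ∧ (∀ i, π (B i) = p (b i)) ∧ relWord A B = z

variable {π : E →* Q} {a b : Fin g → G}

private theorem foA_comm (hπ : ∀ z, π z = 1 → ∀ x, z * x = x * z) {x x' y y' : E}
    (hx : π x = π x') (hy : π y = π y') :
    x * y * x⁻¹ * y⁻¹ = x' * y' * x'⁻¹ * y'⁻¹ := by
  obtain ⟨c, hc, rfl⟩ : ∃ c, π c = 1 ∧ x = c * x' :=
    ⟨x * x'⁻¹, by rw [map_mul, map_inv, hx, mul_inv_cancel], by group⟩
  obtain ⟨d, hd, rfl⟩ : ∃ d, π d = 1 ∧ y = d * y' :=
    ⟨y * y'⁻¹, by rw [map_mul, map_inv, hy, mul_inv_cancel], by group⟩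
  calc c * x' * (d * y') * (c * x')⁻¹ * (d * y')⁻¹
      = (c * (x' * (d * y') * x'⁻¹)) * c⁻¹ * (d * y')⁻¹ := by group
    _ = (x' * (d * y') * x'⁻¹) * c * c⁻¹ * (d * y')⁻¹ := by rw [hπ c hc]
    _ = (x' * d) * (y' * x'⁻¹ * y'⁻¹) * d⁻¹ := by group
    _ = (d * x') * (y' * x'⁻¹ * y'⁻¹) * d⁻¹ := by rw [hπ d hd x']
    _ = (d * (x' * y' * x'⁻¹ * y'⁻¹)) * d⁻¹ := by group
    _ = (x' * y' * x'⁻¹ * y'⁻¹) * d * d⁻¹ := by rw [hπ d hd]
    _ = x' * y' * x'⁻¹ * y'⁻¹ := by group

private theorem foA_congr {P : Type*} [Group P] {m : ℕ} {x y x' y' : Fin m → P}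
    (h : ∀ i, x i * y i * (x i)⁻¹ * (y i)⁻¹ = x' i * y' i * (x' i)⁻¹ * (y' i)⁻¹) :
    relWord x y = relWord x' y' := by
  unfold relWord
  congr 2
  funext i
  exact h i

theorem RW.unique (hπ : ∀ z, π z = 1 → ∀ x, z * x = x * z) {p : G →* Q} {z z' : E}
    (h1 : RW π a b p z) (h2 : RW π a b p z') : z = z' := by
  obtain ⟨A, B, hA, hB, rfl⟩ := h1
  obtain ⟨A', B', hA', hB', rfl⟩ := h2
  exact foA_congr fun i => foA_comm hπ ((hA i).trans (hA' i).symm) ((hB i).trans (hB' i).symm)

private theorem foA_exists (hs : Function.Surjective π) (p : G →* Q) : ∃ z, RW π a b p z := by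
  choose l hl using hs
  exact ⟨relWord (fun i => l (p (a i))) (fun i => l (p (b i))), _, _, fun i => hl _,
    fun i => hl _, rfl⟩

private theorem foA_conj (h : IsSurf a b) (hπ : ∀ z, π z = 1 → ∀ x, z * x = x * z)
    (hs : Function.Surjective π) (x : G) {p : G →* Q} {z : E} (h1 : RW π a b p z) :
    RW π a b (p.comp (MulAut.conj x).toMonoidHom) z := by
  obtain ⟨A, B, hA, hB, rfl⟩ := h1
  obtain ⟨X, hX⟩ := hs (p x)
  have h2 : ∀ (y : G) (Y : E), π Y = p y →
      π (X * Y * X⁻¹) = (p.comp (MulAut.conj x).toMonoidHom) y := by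
    intro y Y hY
    change _ = p (x * y * x⁻¹)
    rw [map_mul, map_mul, map_inv, map_mul, map_mul, map_inv, hX, hY]
  refine ⟨fun i => X * A i * X⁻¹, fun i => X * B i * X⁻¹, fun i => h2 _ _ (hA i),
    fun i => h2 _ _ (hB i), ?_⟩
  have h3 := map_relWord (MulAut.conj X).toMonoidHom A B
  have h4 : π (relWord A B) = 1 := by
    rw [map_relWord]
    have h5 : relWord (fun i => π (A i)) (fun i => π (B i)) = p (relWord a b) := by
      rw [map_relWord]
      congr 1
      · funext i
        exact hA i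
      · funext i
        exact hB i
    rw [h5, h.relWord_eq, map_one]
  have h6 : (MulAut.conj X).toMonoidHom (relWord A B) = relWord A B := by
    change X * relWord A B * X⁻¹ = relWord A B
    rw [← hπ _ h4 X, mul_assoc, mul_inv_cancel, mul_one]
  rw [h6] at h3
  exact h3.symm

private theorem foA_A {i : Fin g} {T : MulAut G} (hT : IsA a b i T) {p : G →* Q} {z : E}
    (h1 : RW π a b p z) : RW π a b (p.comp T.toMonoidHom) z := by
  obtain ⟨A, B, hA, hB, rfl⟩ := h1
  obtain ⟨t1, t2, t3⟩ := hT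
  refine ⟨A, fun k => if k = i then B k * A k else B k, fun k => ?_, fun k => ?_, ?_⟩
  · change _ = p (T (a k))
    rw [t2, hA]
  · change π (if k = i then B k * A k else B k) = p (T (b k))
    by_cases hk : k = i
    · subst hk
      rw [if_pos rfl, t1, map_mul, map_mul, hA, hB]
    · rw [if_neg hk, t3 k hk, hB]
  · refine foA_congr fun k => ?_
    by_cases hk : k = i
    · simp only [hk, if_true]
      group
    · simp only [if_neg hk]

private theorem foA_B {i : Fin g} {T : MulAut G} (hT : IsB a b i T) {p : G →* Q} {z : E}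
    (h1 : RW π a b p z) : RW π a b (p.comp T.toMonoidHom) z := by
  obtain ⟨A, B, hA, hB, rfl⟩ := h1
  obtain ⟨t1, t2, t3⟩ := hT
  refine ⟨fun k => if k = i then A k * B k else A k, B, fun k => ?_, fun k => ?_, ?_⟩
  · change π (if k = i then A k * B k else A k) = p (T (a k))
    by_cases hk : k = i
    · subst hk
      rw [if_pos rfl, t1, map_mul, map_mul, hA, hB]
    · rw [if_neg hk, t3 k hk, hA]
  · change _ = p (T (b k))
    rw [t2, hB]
  · refine foA_congr fun k => ?_
    by_cases hk : k = i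
    · simp only [hk, if_true]
      group
    · simp only [if_neg hk]

private theorem foA_C {i j : Fin g} (hij : (j : ℕ) = i + 1) {T : MulAut G}
    (hT : IsC a b i j T) {p : G →* Q} {z : E} (h1 : RW π a b p z) :
    RW π a b (p.comp T.toMonoidHom) z := by
  obtain ⟨A, B, hA, hB, rfl⟩ := h1
  obtain ⟨u, hu, t1, t2, t3, t4, t5⟩ := hT
  have hji : j ≠ i := by
    intro h1
    rw [h1] at hij
    omega
  let U : E := (A j)⁻¹ * B i
  have hU : π U = p u := by
    rw [hu, map_mul, map_inv, map_mul, map_inv, hA, hB]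
  let s : Fin g → E := fun k => if k = i then A i * U else
    if k = j then U⁻¹ * A j * U else A k
  let t : Fin g → E := fun k => if k = i then U⁻¹ * A j * U * U else
    if k = j then B j * U else B k
  have si : s i = A i * ((A j)⁻¹ * B i) := by simp [s, U]
  have sj : s j = ((A j)⁻¹ * B i)⁻¹ * A j * ((A j)⁻¹ * B i) := by
    simp only [s, U, if_neg hji, if_true]
  have ti : t i = ((A j)⁻¹ * B i)⁻¹ * A j * ((A j)⁻¹ * B i) * ((A j)⁻¹ * B i) := by
    simp only [t, U, if_true]
  have tj : t j = B j * ((A j)⁻¹ * B i) := by simp only [t, U, if_neg hji, if_true]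
  let e : ℕ → E := fun k => if k = i + 1 then (s i * t i * (s i)⁻¹ * (t i)⁻¹)⁻¹ *
    (A i * B i * (A i)⁻¹ * (B i)⁻¹) else 1
  have hjm : (j : ℕ) < g := j.2
  refine ⟨s, t, fun k => ?_, fun k => ?_, ?_⟩
  · change _ = p (T (a k))
    by_cases hk : k = i
    · subst hk
      rw [t1, map_mul, ← hA, ← hU]
      simp only [s, if_true, map_mul]
    · by_cases hk2 : k = j
      · subst hk2
        rw [t3, map_mul, map_mul, map_inv, ← hA, ← hU]
        simp only [s, if_neg hk, if_true, map_mul, map_inv]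
      · rw [(t5 k hk hk2).1, ← hA]
        simp only [s, if_neg hk, if_neg hk2]
  · change _ = p (T (b k))
    by_cases hk : k = i
    · subst hk
      rw [t2, map_mul, map_mul, map_mul, map_inv, ← hA, ← hU]
      simp only [t, if_true, map_mul, map_inv]
    · by_cases hk2 : k = j
      · subst hk2
        rw [t4, map_mul, ← hB, ← hU]
        simp only [t, if_neg hk, if_true, map_mul]
      · rw [(t5 k hk hk2).2, ← hB]
        simp only [t, if_neg hk, if_neg hk2]
  · have he : ∀ k : Fin g, s k * t k * (s k)⁻¹ * (t k)⁻¹ =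
        e k * (A k * B k * (A k)⁻¹ * (B k)⁻¹) * (e (k + 1))⁻¹ := by
      intro k
      by_cases hk : k = i
      · subst hk
        simp only [e, if_true]
        rw [if_neg (by omega)]
        group
      · by_cases hk2 : k = j
        · subst hk2
          simp only [e]
          rw [if_pos hij, if_neg (by omega), sj, tj, si, ti]
          group
        · have h1 : (k : ℕ) ≠ i := fun h => hk (Fin.ext h)
          have h2 : (k : ℕ) ≠ j := fun h => hk2 (Fin.ext h)
          simp only [e, s, t, if_neg hk, if_neg hk2]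
          rw [if_neg (by omega), if_neg (by omega)]
          group
    have e0 : e 0 = 1 := by
      simp only [e]
      rw [if_neg (by omega)]
    have em : e g = 1 := by
      simp only [e]
      rw [if_neg (by omega)]
    rw [relWord_tele A B s t e he, e0, em, one_mul, inv_one, mul_one]

theorem RW.comp (h : IsSurf a b) (hπ : ∀ z, π z = 1 → ∀ x, z * x = x * z)
    (hs : Function.Surjective π) {φ : MulAut G} (hφ : φ ∈ MCG a b) {p : G →* Q} {z : E}
    (h1 : RW π a b p z) : RW π a b (p.comp φ.toMonoidHom) z := by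
  let Z : Subgroup (MulAut G) :=
    { carrier := {φ | ∀ (p : G →* Q) (z : E),
        RW π a b p z ↔ RW π a b (p.comp φ.toMonoidHom) z}
      mul_mem' := by
        intro φ ψ h2 h3 p z
        have h4 : p.comp (φ * ψ).toMonoidHom =
          (p.comp φ.toMonoidHom).comp ψ.toMonoidHom := rfl
        rw [h4]
        exact (h2 p z).trans (h3 _ z)
      one_mem' := by
        intro p z
        have h4 : p.comp (1 : MulAut G).toMonoidHom = p := rfl
        rw [h4]
      inv_mem' := by
        intro φ h2 p z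
        have h3 := h2 (p.comp φ⁻¹.toMonoidHom) z
        have h4 : (p.comp φ⁻¹.toMonoidHom).comp φ.toMonoidHom = p := by
          ext x
          change p (φ⁻¹ (φ x)) = p x
          rw [MulAut.inv_apply_self]
        rw [h4] at h3
        exact h3.symm }
  have hgen : ∀ τ : MulAut G, (∀ (p : G →* Q) (z : E), RW π a b p z →
      RW π a b (p.comp τ.toMonoidHom) z) → τ ∈ Z := by
    intro τ hτ p z
    refine ⟨hτ p z, fun h2 => ?_⟩
    obtain ⟨z', hz'⟩ := foA_exists (a := a) (b := b) hs p
    rw [RW.unique hπ h2 (hτ p z' hz')]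
    exact hz'
  have hle : MCG a b ≤ Z := by
    unfold MCG
    rw [Subgroup.closure_le]
    rintro τ (⟨x, rfl⟩ | ⟨i, -, hi⟩ | ⟨i, -, hi⟩ | ⟨i, j, hij, -, hi⟩)
    · exact hgen _ fun p z h2 => foA_conj h hπ hs x h2
    · exact hgen _ fun p z h2 => foA_A hi h2
    · exact hgen _ fun p z h2 => foA_B hi h2
    · exact hgen _ fun p z h2 => foA_C hij hi h2
  exact (hle hφ p z).1 h1

end

end Pool.Agent.H.MP_59b15d_al.H95T
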