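import Pool.Agent.H.MP_59b15d_al.h95t.Dr

/-!
# The block of the character `θ₀ = th h (f 0)`

`θ₀ (a 0) = -1`, all other values on the generators are 1 (`th0_a0` etc.).

PROOFS. `exists_D0`: `exists_der` with `u = Fin.cons 0 e`, `v = Fin.cons 0 f` (as functions
`Fin (n + 1) → V n`); the condition is trivial at 0, and at `i.succ` both signs are 1.
`Lz`: copy the definition `Lm` in h11c/Hone.lean: `Lz φ v = ∑ i, ((v i).1 • D0 (φ (a i.succ)) + (v i).2 •
D0 (φ (b i.succ)))`; `Lz_e`, `Lz_f` as `Lm_e`, `Lm_f`.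
`der_fac`: let `L v = ∑ i, ((v i).1 * c (a i.succ) + (v i).2 * c (b i.succ))`. The crossed homomorphism
`d x = c x - L (D0 x)` (`IsDer.sub'`, `IsDer.map`) vanishes at all generators except `a 0`
(at `b 0` by `der_b0` for both). Hence `2 * d x = (1 - θ₀ x) * d (a 0)` for all `x`: both sides are
crossed homomorphisms (`x ↦ 1 - θ x` is one: `1 - θ x θ y = (1 - θ x) + θ x (1 - θ y)`) and agree at the
generators (`IsDer.ext`). So `d x = 0` if `θ₀ x = 1`.
`Lz_D0`: the same argument for the `V n`-valued crossed homomorphism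
`d x = D0 (φ x) - Lz φ (D0 x)` (`IsDer.comp` for `x ↦ D0 (φ x)`, here `Pres` is used): it vanishes at all
generators except `a 0` (at `b 0` by `der_b0`), so `2 • d x = (1 - θ₀ x) • d (a 0)`, and `d x = 0` if
`θ₀ x = 1` (`V n` has no 2-torsion).
`D0_surj`: the elements `x` with `θ₀ x = 1` form a subgroup on which `D0` is additive and
`D0 x⁻¹ = - D0 x`; it contains the `a i.succ, b i.succ`; `expand v`, as in `cls_surj` (h11c/Hone.lean).
-/

set_option autoImplicit false

namespace Pool.Agent.H.MP_59b15d_al.H95T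

open Pool.MP_59b15d_al.H24T Pool.MP_59b15d_al.H76R
open Pool.Agent.H.MP_59b15d_al.SP

variable {G : Type*} [Group G] {n : ℕ} {a b : Fin (n + 1) → G} (h : IsSurf a b)

theorem exists_D0 : ∃ D : G → V n, IsDer (th h (f 0)) D ∧ D (a 0) = 0 ∧ D (b 0) = 0 ∧
    (∀ i : Fin n, D (a i.succ) = e i) ∧ ∀ i : Fin n, D (b i.succ) = f i := by
  obtain ⟨c, hc, hca, hcb⟩ := exists_der h (th h (f 0))
    (Fin.cons (0 : V n) (fun i : Fin n => e i) : Fin (n + 1) → V n)
    (Fin.cons (0 : V n) (fun i : Fin n => f i) : Fin (n + 1) → V n) (by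
      intro i
      refine Fin.cases ?_ (fun i => ?_) i
      · rw [Fin.cons_zero, Fin.cons_zero, smul_zero, smul_zero]
      · rw [Fin.cons_succ, Fin.cons_succ, th0_a, th0_b, Units.val_one, one_smul, one_smul,
          add_comm])
  refine ⟨c, hc, ?_, ?_, fun i => ?_, fun i => ?_⟩
  · rw [hca, Fin.cons_zero]
  · rw [hcb, Fin.cons_zero]
  · rw [hca, Fin.cons_succ]
  · rw [hcb, Fin.cons_succ]

private theorem Zb_key {E : Type*} [AddCommGroup E] (hE : ∀ x : E, x + x = 0 → x = 0) {d : G → E}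
    (hd : IsDer (th h (f 0)) d) (ha : ∀ i : Fin n, d (a i.succ) = 0)
    (hb : ∀ i : Fin n, d (b i.succ) = 0) {x : G} (hx : th h (f 0) x = 1) : d x = 0 := by
  have hb0 : d (b 0) = 0 := der_b0 h hE hd
  have h1 : IsDer (th h (f 0)) fun x => d x + d x := by
    intro x y
    change d (x * y) + d (x * y) = d x + d x + (th h (f 0) x : ℤ) • (d y + d y)
    rw [hd x y, smul_add]
    abel
  have h2 : IsDer (th h (f 0)) fun x => (1 - (th h (f 0) x : ℤ)) • d (a 0) := by
    intro x y
    change (1 - (th h (f 0) (x * y) : ℤ)) • d (a 0) = (1 - (th h (f 0) x : ℤ)) • d (a 0) +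
      (th h (f 0) x : ℤ) • ((1 - (th h (f 0) y : ℤ)) • d (a 0))
    rw [map_mul, Units.val_mul, smul_smul, ← add_smul]
    congr 1
    ring
  have h3 := IsDer.ext h h1 h2 (fun i => by
    refine Fin.cases ?_ (fun i => ?_) i
    · rw [th0_a0, Units.val_neg, Units.val_one, sub_neg_eq_add, add_smul, one_smul]
    · rw [ha, th0_a, Units.val_one, sub_self, zero_smul, add_zero]) (fun i => by
    refine Fin.cases ?_ (fun i => ?_) i
    · rw [hb0, th0_b0, Units.val_one, sub_self, zero_smul, add_zero]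
    · rw [hb, th0_b, Units.val_one, sub_self, zero_smul, add_zero]) x
  apply hE
  change d x + d x = (1 - (th h (f 0) x : ℤ)) • d (a 0) at h3
  rw [h3, hx, Units.val_one, sub_self, zero_smul]

/-- The universal crossed homomorphism modulo the coordinate of `a 0`. -/
noncomputable def D0 : G → V n := (exists_D0 h).choose

theorem D0_der : IsDer (th h (f 0)) (D0 h) := (exists_D0 h).choose_spec.1
theorem D0_a0 : D0 h (a 0) = 0 := (exists_D0 h).choose_spec.2.1
theorem D0_b0 : D0 h (b 0) = 0 := (exists_D0 h).choose_spec.2.2.1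
theorem D0_a (i : Fin n) : D0 h (a i.succ) = e i := (exists_D0 h).choose_spec.2.2.2.1 i
theorem D0_b (i : Fin n) : D0 h (b i.succ) = f i := (exists_D0 h).choose_spec.2.2.2.2 i

theorem D0_mul {x : G} (hx : th h (f 0) x = 1) (y : G) : D0 h (x * y) = D0 h x + D0 h y := by
  rw [D0_der h x y, hx, Units.val_one, one_smul]

theorem D0_inv {x : G} (hx : th h (f 0) x = 1) : D0 h x⁻¹ = -D0 h x := by
  rw [(D0_der h).inv', hx, Units.val_one, one_smul]

theorem der_fac {c : G → ℤ} (hc : IsDer (th h (f 0)) c) :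
    ∃ L : V n →ₗ[ℤ] ℤ, (∀ i, L (e i) = c (a i.succ)) ∧ (∀ i, L (f i) = c (b i.succ)) ∧
      ∀ x, th h (f 0) x = 1 → c x = L (D0 h x) := by
  let L : V n →ₗ[ℤ] ℤ :=
    { toFun := fun v => ∑ i, ((v i).1 * c (a i.succ) + (v i).2 * c (b i.succ))
      map_add' := by
        intro x y
        rw [← Finset.sum_add_distrib]
        refine Finset.sum_congr rfl fun i _ => ?_
        rw [Pi.add_apply, Prod.fst_add, Prod.snd_add]
        ring
      map_smul' := by
        intro k x
        rw [Finset.smul_sum]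
        refine Finset.sum_congr rfl fun i _ => ?_
        rw [Pi.smul_apply, Prod.smul_fst, Prod.smul_snd, RingHom.id_apply]
        simp only [smul_eq_mul]
        ring }
  have hLe : ∀ i, L (e i) = c (a i.succ) := by
    intro i
    change ∑ j, (((e i : V n) j).1 * c (a j.succ) + ((e i : V n) j).2 * c (b j.succ)) = _
    rw [Finset.sum_eq_single i]
    · rw [e_self]; simp
    · intro j _ hj
      rw [e_ne hj]; simp
    · simp
  have hLf : ∀ i, L (f i) = c (b i.succ) := by
    intro i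
    change ∑ j, (((f i : V n) j).1 * c (a j.succ) + ((f i : V n) j).2 * c (b j.succ)) = _
    rw [Finset.sum_eq_single i]
    · rw [f_self]; simp
    · intro j _ hj
      rw [f_ne hj]; simp
    · simp
  refine ⟨L, hLe, hLf, fun x hx => ?_⟩
  have h1 : IsDer (th h (f 0)) fun x => c x - L (D0 h x) := hc.sub' ((D0_der h).map L)
  have h2 := Zb_key h (fun x hx => by omega) h1 (fun i => by
    change c (a i.succ) - L (D0 h (a i.succ)) = 0
    rw [D0_a, hLe, sub_self]) (fun i => by
    change c (b i.succ) - L (D0 h (b i.succ)) = 0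
    rw [D0_b, hLf, sub_self]) hx
  exact sub_eq_zero.1 h2

/-- The linear map induced by `φ`. -/
noncomputable def Lz (φ : MulAut G) : V n →ₗ[ℤ] V n where
  toFun v := ∑ i, ((v i).1 • D0 h (φ (a i.succ)) + (v i).2 • D0 h (φ (b i.succ)))
  map_add' x y := by
    rw [← Finset.sum_add_distrib]
    refine Finset.sum_congr rfl fun i _ => ?_
    rw [Pi.add_apply, Prod.fst_add, Prod.snd_add]
    module
  map_smul' k x := by
    rw [Finset.smul_sum]
    refine Finset.sum_congr rfl fun i _ => ?_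
    rw [Pi.smul_apply, Prod.smul_fst, Prod.smul_snd, RingHom.id_apply]
    simp only [smul_eq_mul]
    module

theorem Lz_e (φ : MulAut G) (i : Fin n) : Lz h φ (e i) = D0 h (φ (a i.succ)) := by
  change ∑ j : Fin n, (((e i : V n) j).1 • D0 h (φ (a j.succ)) +
    ((e i : V n) j).2 • D0 h (φ (b j.succ))) = _
  rw [Finset.sum_eq_single i]
  · rw [e_self]; simp
  · intro j _ hj
    rw [e_ne hj]; simp
  · simp

theorem Lz_f (φ : MulAut G) (i : Fin n) : Lz h φ (f i) = D0 h (φ (b i.succ)) := by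
  change ∑ j : Fin n, (((f i : V n) j).1 • D0 h (φ (a j.succ)) +
    ((f i : V n) j).2 • D0 h (φ (b j.succ))) = _
  rw [Finset.sum_eq_single i]
  · rw [f_self]; simp
  · intro j _ hj
    rw [f_ne hj]; simp
  · simp

theorem Lz_D0 {φ : MulAut G} (hφ : Pres (th h (f 0)) φ) {x : G} (hx : th h (f 0) x = 1) :
    Lz h φ (D0 h x) = D0 h (φ x) := by
  have h1 : IsDer (th h (f 0)) fun x => Lz h φ (D0 h x) - D0 h (φ x) :=
    ((D0_der h).map (Lz h φ)).sub' ((D0_der h).comp hφ)
  have h2 := Zb_key h (fun x hx => by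
    funext i
    have h3 := congrFun hx i
    have h4 : (x i).1 + (x i).1 = 0 := congrArg Prod.fst h3
    have h5 : (x i).2 + (x i).2 = 0 := congrArg Prod.snd h3
    refine Prod.ext ?_ ?_
    · change (x i).1 = 0
      omega
    · change (x i).2 = 0
      omega) h1 (fun i => by
    change Lz h φ (D0 h (a i.succ)) - D0 h (φ (a i.succ)) = 0
    rw [D0_a, Lz_e, sub_self]) (fun i => by
    change Lz h φ (D0 h (b i.succ)) - D0 h (φ (b i.succ)) = 0
    rw [D0_b, Lz_f, sub_self]) hx
  exact sub_eq_zero.1 h2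

theorem D0_surj (v : V n) : ∃ x, th h (f 0) x = 1 ∧ D0 h x = v := by
  let A : AddSubgroup (V n) :=
    { carrier := {v | ∃ x, th h (f 0) x = 1 ∧ D0 h x = v}
      add_mem' := by
        rintro _ _ ⟨x, hx, rfl⟩ ⟨y, hy, rfl⟩
        exact ⟨x * y, by rw [map_mul, hx, hy, mul_one], D0_mul h hx y⟩
      zero_mem' := ⟨1, map_one _, (D0_der h).one'⟩
      neg_mem' := by
        rintro _ ⟨x, hx, rfl⟩
        exact ⟨x⁻¹, by rw [map_inv, hx, inv_one], D0_inv h hx⟩ }
  have h1 : v ∈ A := by
    rw [expand v]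
    refine A.sum_mem fun i _ => A.add_mem (A.zsmul_mem ⟨a i.succ, th0_a h i, D0_a h i⟩ _)
      (A.zsmul_mem ⟨b i.succ, th0_b h i, D0_b h i⟩ _)
  exact h1

end Pool.Agent.H.MP_59b15d_al.H95T
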