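import Pool.Agent.H.MP_59b15d_al.h95t.FoA
import Pool.Agent.H.MP_59b15d_al.h95t.Zb

/-!
# The symplectic form on the block of `θ₀`

PROOFS. `form_inv`: Let `E` be the group of all `(x, y, z, s)`, `x y z : ℤ`, `s : ℤˣ`, with the product
`(x + s x', y + s y', z + z' + x s y', s s')` (associative since `s * s = 1`; the inverse of
`(x, y, z, s)` is `(-s x, -s y, -z + x y, s)`: check `z - z + x y + x s (-s y) = 0`), `Q` the group of
all `(x, y, s)`, `π : E → Q` forgetting `z`: kernel = all `(0, 0, z, 1)`, central. (The structure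
`Hs` in h93c/Heis.lean is a model for the code.) `c, c'` give `p : G →* Q`,
`p x = (c x, c' x, θ₀ x)`. The elements `A i = (c (a i), c' (a i), 0, θ₀ (a i))`,
`B i = (c (b i), c' (b i), 0, θ₀ (b i))` are lifts. Since `c (b 0) = c' (b 0) = 0` (`der_b0`), `B 0 = 1`
and the commutator for index 0 is 1; for `i.succ` both signs are 1 and the commutator is
`(0, 0, c (a i.succ) * c' (b i.succ) - c (b i.succ) * c' (a i.succ), 1)`. So `relWord A B` is
`(0, 0, Om a b c c', 1)` (product of a list of central elements: `relWord_succ` and induction, or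
`List.prod_ofFn`), i.e. `RW π a b p (0, 0, Om a b c c', 1)`. The homomorphism `p.comp φ` belongs in
the same way to `c ∘ φ, c' ∘ φ` (crossed homomorphisms for `θ₀` by `IsDer.comp`, as `φ` preserves
`θ₀`), so `RW π a b (p.comp φ) (0, 0, Om a b (c ∘ φ) (c' ∘ φ), 1)`; by `RW.comp` also
`RW π a b (p.comp φ) (0, 0, Om a b c c', 1)`; `RW.unique`.

`om_Lz`: write `L = Lz h φ`. For `v : V n` let `c_v x = om (D0 h x) v` (`IsDer.map` with `omL v`).
`Om a b c_v c_w = ∑ i (om (e i) v * om (f i) w - om (f i) v * om (e i) w) = om v w` (`om_e'`, `om_f'`).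
`form_inv` (with `D0 h (φ (a i.succ)) = L (e i)`, `Lz_e`, `Lz_f`):
`∑ i (om (L (e i)) v * om (L (f i)) w - om (L (f i)) v * om (L (e i)) w) = om v w`.  (1)
Put `v* = ∑ i (-(om (L (f i)) v) • e i + om (L (e i)) v • f i)`; then `om x v* = om (L x) v` for all `x`
(for `x = e i, f i`; linearity, `expand`), and (1) says `om v* w* = om v w` (`om v* w* =
∑ i ((v* i).1 * (w* i).2 - (v* i).2 * (w* i).1)`). So `om (L v*) w = om v* w* = om v w` for all `w`,
hence `L v* = v` (`om_ext`, `om_swap`). `L` is injective: `Lz h φ⁻¹ (L v) = v` by `D0_surj`, `Lz_D0`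
twice. Since `L ((L y)*) = L y`, `(L y)* = y`. Finally `om (L x) (L y) = om x (L y)* = om x y`.
-/

set_option autoImplicit false

namespace Pool.Agent.H.MP_59b15d_al.H95T

open Pool.MP_59b15d_al.H24T Pool.MP_59b15d_al.H76R
open Pool.Agent.H.MP_59b15d_al.SP

/-- The extension of `FoBQ`. -/
@[ext]
structure FoBE where
  x : ℤ
  y : ℤ
  z : ℤ
  s : ℤˣ

/-- The group of pairs with a sign. -/
@[ext]
structure FoBQ where
  x : ℤ
  y : ℤ
  s : ℤˣ

private lemma FoB_sq (s : ℤˣ) : (s : ℤ) * s = 1 := Int.units_coe_mul_self s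

namespace FoBE

instance : Mul FoBE :=
  ⟨fun p q => ⟨p.x + p.s * q.x, p.y + p.s * q.y, p.z + q.z + p.x * (p.s * q.y), p.s * q.s⟩⟩
instance : One FoBE := ⟨⟨0, 0, 0, 1⟩⟩
instance : Inv FoBE := ⟨fun p => ⟨-(p.s * p.x), -(p.s * p.y), -p.z + p.x * p.y, p.s⟩⟩

lemma mul_x (p q : FoBE) : (p * q).x = p.x + p.s * q.x := rfl
lemma mul_y (p q : FoBE) : (p * q).y = p.y + p.s * q.y := rfl
lemma mul_z (p q : FoBE) : (p * q).z = p.z + q.z + p.x * (p.s * q.y) := rfl
lemma mul_s (p q : FoBE) : (p * q).s = p.s * q.s := rfl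
lemma one_x : (1 : FoBE).x = 0 := rfl
lemma one_y : (1 : FoBE).y = 0 := rfl
lemma one_z : (1 : FoBE).z = 0 := rfl
lemma one_s : (1 : FoBE).s = 1 := rfl
lemma inv_x (p : FoBE) : (p⁻¹).x = -(p.s * p.x) := rfl
lemma inv_y (p : FoBE) : (p⁻¹).y = -(p.s * p.y) := rfl
lemma inv_z (p : FoBE) : (p⁻¹).z = -p.z + p.x * p.y := rfl
lemma inv_s (p : FoBE) : (p⁻¹).s = p.s := rfl

instance : Group FoBE := Group.ofLeftAxioms
  (fun p q r => by
    ext
    · simp only [mul_x, mul_s, Units.val_mul]; ring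
    · simp only [mul_y, mul_s, Units.val_mul]; ring
    · simp only [mul_x, mul_y, mul_z, mul_s, Units.val_mul]
      linear_combination (q.x * q.s * r.y) * FoB_sq p.s
    · simp only [mul_s, mul_assoc])
  (fun p => by
    ext
    · simp only [mul_x, one_x, one_s, Units.val_one]; ring
    · simp only [mul_y, one_y, one_s, Units.val_one]; ring
    · simp only [mul_z, one_x, one_z, one_s, Units.val_one]; ring
    · simp only [mul_s, one_s, one_mul])
  (fun p => by
    ext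
    · simp only [mul_x, inv_x, inv_s, one_x]; ring
    · simp only [mul_y, inv_y, inv_s, one_y]; ring
    · simp only [mul_z, inv_x, inv_z, inv_s, one_z]
      linear_combination (-(p.x * p.y)) * FoB_sq p.s
    · simp only [mul_s, inv_s, one_s, Int.units_mul_self])

end FoBE

namespace FoBQ

instance : Mul FoBQ := ⟨fun p q => ⟨p.x + p.s * q.x, p.y + p.s * q.y, p.s * q.s⟩⟩
instance : One FoBQ := ⟨⟨0, 0, 1⟩⟩
instance : Inv FoBQ := ⟨fun p => ⟨-(p.s * p.x), -(p.s * p.y), p.s⟩⟩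

lemma mul_x (p q : FoBQ) : (p * q).x = p.x + p.s * q.x := rfl
lemma mul_y (p q : FoBQ) : (p * q).y = p.y + p.s * q.y := rfl
lemma mul_s (p q : FoBQ) : (p * q).s = p.s * q.s := rfl
lemma one_x : (1 : FoBQ).x = 0 := rfl
lemma one_y : (1 : FoBQ).y = 0 := rfl
lemma one_s : (1 : FoBQ).s = 1 := rfl
lemma inv_x (p : FoBQ) : (p⁻¹).x = -(p.s * p.x) := rfl
lemma inv_y (p : FoBQ) : (p⁻¹).y = -(p.s * p.y) := rfl
lemma inv_s (p : FoBQ) : (p⁻¹).s = p.s := rfl

instance : Group FoBQ := Group.ofLeftAxioms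
  (fun p q r => by
    ext
    · simp only [mul_x, mul_s, Units.val_mul]; ring
    · simp only [mul_y, mul_s, Units.val_mul]; ring
    · simp only [mul_s, mul_assoc])
  (fun p => by
    ext
    · simp only [mul_x, one_x, one_s, Units.val_one]; ring
    · simp only [mul_y, one_y, one_s, Units.val_one]; ring
    · simp only [mul_s, one_s, one_mul])
  (fun p => by
    ext
    · simp only [mul_x, inv_x, inv_s, one_x]; ring
    · simp only [mul_y, inv_y, inv_s, one_y]; ring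
    · simp only [mul_s, inv_s, one_s, Int.units_mul_self])

end FoBQ

/-- The projection. -/
def FoBpi : FoBE →* FoBQ where
  toFun p := ⟨p.x, p.y, p.s⟩
  map_one' := rfl
  map_mul' _ _ := rfl

private lemma FoBpi_central (z : FoBE) (hz : FoBpi z = 1) (q : FoBE) : z * q = q * z := by
  have hx : z.x = 0 := congrArg FoBQ.x hz
  have hy : z.y = 0 := congrArg FoBQ.y hz
  have hs : z.s = 1 := congrArg FoBQ.s hz
  ext
  · rw [FoBE.mul_x, FoBE.mul_x, hx, hs, Units.val_one]; ring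
  · rw [FoBE.mul_y, FoBE.mul_y, hy, hs, Units.val_one]; ring
  · rw [FoBE.mul_z, FoBE.mul_z, hx, hy]; ring
  · rw [FoBE.mul_s, FoBE.mul_s, hs, one_mul, mul_one]

private lemma FoBpi_surj : Function.Surjective FoBpi := fun q => ⟨⟨q.x, q.y, 0, q.s⟩, rfl⟩

private lemma FoB_prod {n : ℕ} (k : Fin n → ℤ) :
    (List.ofFn fun i => (⟨0, 0, k i, 1⟩ : FoBE)).prod = ⟨0, 0, ∑ i, k i, 1⟩ := by
  induction n with
  | zero => rfl
  | succ n ih =>
    rw [List.ofFn_succ, List.prod_cons, ih, Fin.sum_univ_succ]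
    ext
    · rw [FoBE.mul_x]; simp
    · rw [FoBE.mul_y]; simp
    · rw [FoBE.mul_z]; simp
    · rw [FoBE.mul_s]; simp

private lemma FoB_succ {P : Type*} [Group P] {k : ℕ} (x y : Fin (k + 1) → P) :
    relWord x y = x 0 * y 0 * (x 0)⁻¹ * (y 0)⁻¹ *
      relWord (fun i => x i.succ) (fun i => y i.succ) := by
  unfold relWord
  rw [List.ofFn_succ, List.prod_cons]

private lemma FoB_comm (x y x' y' : ℤ) :
    (⟨x, y, 0, 1⟩ : FoBE) * ⟨x', y', 0, 1⟩ * (⟨x, y, 0, 1⟩ : FoBE)⁻¹ * (⟨x', y', 0, 1⟩ : FoBE)⁻¹ =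
      ⟨0, 0, x * y' - x' * y, 1⟩ := by
  ext
  · simp only [FoBE.mul_x, FoBE.mul_s, FoBE.inv_x, FoBE.inv_s, Units.val_one, mul_one]; ring
  · simp only [FoBE.mul_y, FoBE.mul_s, FoBE.inv_y, FoBE.inv_s, Units.val_one, mul_one]; ring
  · simp only [FoBE.mul_x, FoBE.mul_z, FoBE.mul_s, FoBE.inv_x, FoBE.inv_y, FoBE.inv_z,
      FoBE.inv_s, Units.val_one, mul_one]
    ring
  · simp only [FoBE.mul_s, FoBE.inv_s, mul_one]

section

variable {G : Type*} [Group G]

/-- The homomorphism given by two crossed homomorphisms. -/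
def FoBp {θ : G →* ℤˣ} {c c' : G → ℤ} (hc : IsDer θ c) (hc' : IsDer θ c') : G →* FoBQ where
  toFun x := ⟨c x, c' x, θ x⟩
  map_one' := by
    ext
    · exact hc.one'
    · exact hc'.one'
    · rw [map_one]; rfl
  map_mul' x y := by
    ext
    · exact hc x y
    · exact hc' x y
    · exact congrArg _ (map_mul θ x y)

end

variable {G : Type*} [Group G] {n : ℕ} {a b : Fin (n + 1) → G}

/-- The form on crossed homomorphisms. -/
def Om (a b : Fin (n + 1) → G) (c c' : G → ℤ) : ℤ :=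
  ∑ i : Fin n, (c (a i.succ) * c' (b i.succ) - c (b i.succ) * c' (a i.succ))

private lemma FoB_RW (h : IsSurf a b) {c c' : G → ℤ} (hc : IsDer (th h (f 0)) c)
    (hc' : IsDer (th h (f 0)) c') :
    RW FoBpi a b (FoBp hc hc') ⟨0, 0, Om a b c c', 1⟩ := by
  have hE : ∀ x : ℤ, x + x = 0 → x = 0 := fun x hx => by omega
  refine ⟨fun i => ⟨c (a i), c' (a i), 0, th h (f 0) (a i)⟩,
    fun i => ⟨c (b i), c' (b i), 0, th h (f 0) (b i)⟩, fun i => rfl, fun i => rfl, ?_⟩
  have hb0 : (⟨c (b 0), c' (b 0), 0, th h (f 0) (b 0)⟩ : FoBE) = 1 := by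
    rw [der_b0 h hE hc, der_b0 h hE hc', th0_b0]
    rfl
  rw [FoB_succ, hb0, mul_one, mul_inv_cancel, one_mul, inv_one, one_mul]
  unfold relWord Om
  rw [← FoB_prod]
  congr 2
  funext i
  simp only [th0_a, th0_b]
  exact FoB_comm _ _ _ _

theorem form_inv (h : IsSurf a b) {φ : MulAut G} (hφ : φ ∈ St a b (th h (f 0))) {c c' : G → ℤ}
    (hc : IsDer (th h (f 0)) c) (hc' : IsDer (th h (f 0)) c') :
    Om a b (fun x => c (φ x)) (fun x => c' (φ x)) = Om a b c c' := by
  have h1 := FoB_RW h hc hc'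
  have h2 := RW.comp h FoBpi_central FoBpi_surj hφ.1 h1
  have hd := hc.comp (φ := φ) hφ.2
  have hd' := hc'.comp (φ := φ) hφ.2
  have h3 := FoB_RW h hd hd'
  have h4 : (FoBp hc hc').comp φ.toMonoidHom = FoBp hd hd' := by
    refine MonoidHom.ext fun x => ?_
    have h5 := hφ.2 x
    change (⟨c (φ x), c' (φ x), th h (f 0) (φ x)⟩ : FoBQ) = ⟨c (φ x), c' (φ x), th h (f 0) x⟩
    rw [h5]
  rw [h4] at h2
  have h5 := RW.unique FoBpi_central h3 h2
  exact congrArg FoBE.z h5

theorem Lz_Lz_inv (h : IsSurf a b) {φ : MulAut G} (hφ : φ ∈ St a b (th h (f 0))) (v : V n) :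
    Lz h φ (Lz h φ⁻¹ v) = v := by
  obtain ⟨x, hx, rfl⟩ := D0_surj h v
  have h1 : Pres (th h (f 0)) φ⁻¹ := hφ.2.inv
  rw [Lz_D0 h h1 hx, Lz_D0 h hφ.2 ((h1 x).trans hx), MulAut.apply_inv_self]

/-- The adjoint. -/
private noncomputable def FoBst (h : IsSurf a b) (φ : MulAut G) (v : V n) : V n :=
  fun i => (-(om (Lz h φ (f i)) v), om (Lz h φ (e i)) v)

private lemma FoBst_om (h : IsSurf a b) (φ : MulAut G) (x v : V n) :
    om x (FoBst h φ v) = om (Lz h φ x) v := by
  change omL (FoBst h φ v) x = omL v (Lz h φ x)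
  conv_lhs => rw [expand x]
  conv_rhs => rw [expand x]
  rw [map_sum, map_sum, map_sum]
  refine Finset.sum_congr rfl fun i _ => ?_
  rw [map_add, map_add, map_add, map_smul, map_smul, map_smul, map_smul, map_smul, map_smul,
    omL_apply, omL_apply, omL_apply, omL_apply, om_e', om_f']
  simp only [FoBst, neg_neg]

private lemma FoBst_form (h : IsSurf a b) {φ : MulAut G} (hφ : φ ∈ St a b (th h (f 0)))
    (v w : V n) : om (FoBst h φ v) (FoBst h φ w) = om v w := by
  have hv : IsDer (th h (f 0)) fun x => omL v (D0 h x) := (D0_der h).map (omL v)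
  have hw : IsDer (th h (f 0)) fun x => omL w (D0 h x) := (D0_der h).map (omL w)
  have h1 := form_inv h hφ hv hw
  unfold Om at h1
  simp only [omL_apply, D0_a, D0_b, ← Lz_e, ← Lz_f, om_e', om_f'] at h1
  have h2 : om v w = ∑ i : Fin n, ((v i).2 * -(w i).1 - -(v i).1 * (w i).2) := by
    rw [om]
    exact Finset.sum_congr rfl fun i _ => by ring
  rw [h2, ← h1, om]
  refine Finset.sum_congr rfl fun i _ => ?_
  simp only [FoBst]
  ring

private lemma FoB_Lst (h : IsSurf a b) {φ : MulAut G} (hφ : φ ∈ St a b (th h (f 0))) (v : V n) :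
    Lz h φ (FoBst h φ v) = v := by
  refine om_ext fun x => ?_
  rw [om_swap, ← FoBst_om, FoBst_form h hφ, om_swap v x, neg_neg]

theorem om_Lz (h : IsSurf a b) {φ : MulAut G} (hφ : φ ∈ St a b (th h (f 0))) (v w : V n) :
    om (Lz h φ v) (Lz h φ w) = om v w := by
  have hinv : φ⁻¹ ∈ St a b (th h (f 0)) := (St a b (th h (f 0))).inv_mem hφ
  have h1 : ∀ y : V n, Lz h φ⁻¹ (Lz h φ y) = y := by
    intro y
    have h2 := Lz_Lz_inv h hinv y
    rwa [inv_inv] at h2
  have h3 : FoBst h φ (Lz h φ w) = w := by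
    have h4 := congrArg (Lz h φ⁻¹) (FoB_Lst h hφ (Lz h φ w))
    rwa [h1, h1] at h4
  rw [← FoBst_om, h3]

end Pool.Agent.H.MP_59b15d_al.H95T
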