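import Pool.Agent.H.MP_59b15d_al.h95t.Zb

/-!
# A mapping class in the Torelli group which acts as a transvection on the block of `θ₀`

PROOF (checked by computer on words). Write `a₀ = a 0`, `b₀ = b 0`, `a₁ = a i₀.succ`, `b₁ = b i₀.succ`,
`τA = TA h 0`, `τB = TB h 0` (handle 0), `τC = TC h 0 i₀.succ _` (h76r/Rb.lean; all in `MCG a b`,
`isA_iff` etc. in h76r/Sd.lean).
(1) `y = τA⁻¹ * τB` fixes all generators except `a₀, b₀`; `y a₀ = a₀ b₀ a₀⁻¹`, `y b₀ = b₀ a₀⁻¹`;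
`y³ a₀ = γ a₀⁻¹`, `y³ b₀ = a₀ b₀⁻¹ a₀⁻¹`, `γ = a₀ b₀ a₀⁻¹ b₀⁻¹`; `y³ γ = γ`; `y⁶ a₀ = γ a₀ γ⁻¹`,
`y⁶ b₀ = γ b₀ γ⁻¹`. Let `t = y⁶`: conjugation by `γ` on `a₀, b₀`, the other generators fixed.
(2) `ψ = τA * τC` (first `τC`): with `u = a₁⁻¹ b₀`: `ψ a₀ = τA (a₀ u) = a₀ a₁⁻¹ b₀ a₀`;
`ψ b₀ = τA (u⁻¹ a₁ u u)` with `τA u = a₁⁻¹ b₀ a₀`; `ψ a₁ = τA (u⁻¹ a₁ u)`, `ψ b₁ = b₁ a₁⁻¹ b₀ a₀`. And
`ψ⁻¹ a₁ = u a₁ u⁻¹`, `ψ⁻¹ b₁ = b₁ u⁻¹` (check by applying `ψ`: `τC u = u`, `τC a₁ = u⁻¹ a₁ u`,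
`τC b₁ = b₁ u`, `τA a₁ = a₁`, `τA b₁ = b₁`).
(3) `φ = ψ * t * ψ⁻¹`. `cls (φ x) = cls x`: `t` is conjugation on generators, so `cls (t x) = cls x` for
all `x` (both sides homomorphisms; `hom_ext`), hence with `spm` (`spm h t = 1`, so `spm h φ = 1`) or
directly. So `φ` preserves `θ₀`.
(4) Both sides of the second claim are linear in `D0 h x` (`Lz_D0`), so it suffices to take
`x = a i.succ` and `x = b i.succ`. For `i ≠ i₀` the generators are fixed by `τA, τC, t`, so by `φ`, and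
`om (e i) (e i₀) = 0`, `om (f i) (e i₀) = 0`. For `i₀`: let `θ₁ = θ₀ ∘ ψ` and `C x = D0 h (ψ x)`
(crossed homomorphism for `θ₁`, `IsDer.comp`). `θ₁ a₀ = 1`, `θ₁ b₀ = -1`, `θ₁ a₁ = 1`, `θ₁ b₁ = -1`;
`C a₀ = e i₀` (`D0 (a₀ a₁⁻¹ b₀ a₀) = 0 - (-(e i₀) + 0 + 0)`), and one needs no other value:
`C γ = C a₀ + C b₀ - θ₁.. = 2 • C a₀` (general: `C (x y x⁻¹ y⁻¹) = (1 - θ y) • C x + (θ x - 1) • C y`),
`θ₁ γ = 1`, `C (γ b₀ γ⁻¹) = C b₀ + (1 - θ₁ b₀) • C γ = C b₀ + 4 • e i₀`. So for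
`u' = t u = a₁⁻¹ γ b₀ γ⁻¹`: `C u' = C u + 4 • e i₀`, `θ₁ u' = θ₁ u = -1`.
`φ a₁ = ψ (t (u a₁ u⁻¹)) = ψ (u' a₁ u'⁻¹)`: `D0 (φ a₁) = C (u' a₁ u'⁻¹) = C u' + θ₁ u • C a₁ - θ₁ a₁ • C u'
= - C a₁`, the same as `C (u a₁ u⁻¹) = D0 (ψ (ψ⁻¹ a₁)) = D0 a₁ = e i₀`.
`φ b₁ = ψ (b₁ u'⁻¹)`: `C (b₁ u'⁻¹) = C b₁ + θ₁ b₁ • C u'⁻¹`, `C u'⁻¹ = - θ₁ u' • C u' = C u'`; so
`D0 (φ b₁) = C b₁ - C u' = (C b₁ - C u) - 4 • e i₀ = D0 b₁ - 4 • e i₀ = f i₀ - 4 • e i₀`, and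
`4 * om (f i₀) (e i₀) = -4`.
-/

set_option autoImplicit false

namespace Pool.Agent.H.MP_59b15d_al.H95T

open Pool.MP_59b15d_al.H24T Pool.MP_59b15d_al.H76R
open Pool.Agent.H.MP_59b15d_al.SP

variable {G : Type*} [Group G] {n : ℕ} {a b : Fin (n + 1) → G} (h : IsSurf a b)

/-- The sixth power of `τA⁻¹ τB` on the first handle. -/
private theorem Gm_y {y : MulAut G} {p q : G} (h1 : y p = p * q * p⁻¹) (h2 : y q = q * p⁻¹) :
    ((y * y * y) * (y * y * y)) p = (p * q * p⁻¹ * q⁻¹) * p * (p * q * p⁻¹ * q⁻¹)⁻¹ ∧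
      ((y * y * y) * (y * y * y)) q = (p * q * p⁻¹ * q⁻¹) * q * (p * q * p⁻¹ * q⁻¹)⁻¹ := by
  have e1 : y (y p) = p * q * p⁻¹ * p⁻¹ := by
    rw [h1, map_mul, map_mul, map_inv, h1, h2]
    group
  have e2 : y (y q) = p⁻¹ := by
    rw [h2, map_mul, map_inv, h1, h2]
    group
  have e3 : (y * y * y) p = p * q * p⁻¹ * q⁻¹ * p⁻¹ := by
    change y (y (y p)) = _
    rw [e1, map_mul, map_mul, map_mul, map_inv, h1, h2]
    group
  have e4 : (y * y * y) q = p * q⁻¹ * p⁻¹ := by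
    change y (y (y q)) = _
    rw [e2, map_inv, h1]
    group
  constructor
  · change (y * y * y) ((y * y * y) p) = _
    rw [e3]
    simp only [map_mul, map_inv, e3, e4]
    group
  · change (y * y * y) ((y * y * y) q) = _
    rw [e4]
    simp only [map_mul, map_inv, e3, e4]
    group

/-- The computation with crossed homomorphisms. -/
private theorem Gm_calc {E : Type*} [AddCommGroup E] {θ : G →* ℤˣ} {C : G → E} (hC : IsDer θ C)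
    {p q r s : G} (hp : θ p = 1) (hq : θ q = -1) (hr : θ r = 1) (hs : θ s = -1) {w : E}
    (hw : C p = w) :
    C ((r⁻¹ * ((p * q * p⁻¹ * q⁻¹) * q * (p * q * p⁻¹ * q⁻¹)⁻¹)) * r *
        (r⁻¹ * ((p * q * p⁻¹ * q⁻¹) * q * (p * q * p⁻¹ * q⁻¹)⁻¹))⁻¹) =
      C ((r⁻¹ * q) * r * (r⁻¹ * q)⁻¹) ∧
    C (s * (r⁻¹ * ((p * q * p⁻¹ * q⁻¹) * q * (p * q * p⁻¹ * q⁻¹)⁻¹))⁻¹) =
      C (s * (r⁻¹ * q)⁻¹) - (4 : ℤ) • w := by
  have hC' : ∀ x y, C (x * y) = C x + (θ x : ℤ) • C y := hC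
  have hi : ∀ x, C x⁻¹ = -((θ x : ℤ) • C x) := hC.inv'
  -- the commutator
  obtain ⟨γ, hγ⟩ : ∃ γ, γ = p * q * p⁻¹ * q⁻¹ := ⟨_, rfl⟩
  have t1 : θ γ = 1 := by
    rw [hγ, map_mul, map_mul, map_mul, map_inv, map_inv, hp, hq]
    rfl
  have c1 : C γ = (2 : ℤ) • w := by
    rw [hγ]
    simp only [hC', hi, map_mul, map_inv, hp, hq, hw]
    simp
    module
  rw [← hγ]
  obtain ⟨u, hu⟩ : ∃ u, u = r⁻¹ * q := ⟨_, rfl⟩
  obtain ⟨u', hu'⟩ : ∃ u', u' = r⁻¹ * (γ * q * γ⁻¹) := ⟨_, rfl⟩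
  have t2 : θ u = -1 := by
    rw [hu, map_mul, map_inv, hr, hq]
    rfl
  have t3 : θ u' = -1 := by
    rw [hu', map_mul, map_mul, map_mul, map_inv, map_inv, hr, hq, t1]
    rfl
  have c2 : C u' = C u + (4 : ℤ) • w := by
    rw [hu', hu]
    simp only [hC', hi, map_mul, map_inv, hr, hq, t1, c1]
    simp
    module
  rw [← hu, ← hu']
  constructor
  · simp only [hC', hi, map_mul, map_inv, hr, t2, t3]
    simp
  · simp only [hC', hi, map_mul, map_inv, hs, t2, t3, c2]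
    simp
    module

theorem exists_gm {i₀ : Fin n} (h0 : (i₀ : ℕ) = 0) :
    ∃ φ ∈ MCG a b, (∀ x, cls h (φ x) = cls h x) ∧ ∀ x, th h (f 0) x = 1 →
      D0 h (φ x) = D0 h x + (4 * om (D0 h x) (e i₀)) • e i₀ := by
  have hij : ((i₀.succ : Fin (n + 1)) : ℕ) = ((0 : Fin (n + 1)) : ℕ) + 1 := by
    rw [Fin.val_succ, h0]
    rfl
  have hne0 : ∀ i : Fin n, (i.succ : Fin (n + 1)) ≠ 0 := fun i => Fin.succ_ne_zero i
  -- the twists
  obtain ⟨A, hA⟩ : ∃ A, A = TA h 0 := ⟨_, rfl⟩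
  obtain ⟨B, hB⟩ : ∃ B, B = TB h 0 := ⟨_, rfl⟩
  obtain ⟨T', hT⟩ : ∃ T', T' = TC h 0 i₀.succ hij := ⟨_, rfl⟩
  have mA : A ∈ MCG a b :=
    Subgroup.subset_closure (Or.inr (Or.inl ⟨0, trivial, (isA_iff h 0 A).2 hA⟩))
  have mB : B ∈ MCG a b :=
    Subgroup.subset_closure (Or.inr (Or.inr (Or.inl ⟨0, trivial, (isB_iff h 0 B).2 hB⟩)))
  have mT : T' ∈ MCG a b :=
    Subgroup.subset_closure (Or.inr (Or.inr (Or.inr
      ⟨0, i₀.succ, hij, trivial, (isC_iff h 0 i₀.succ hij T').2 hT⟩)))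
  have A_a : ∀ k, A (a k) = a k := fun k => by rw [hA]; exact TA_a h 0 k
  have A_b0 : A (b 0) = b 0 * a 0 := by rw [hA]; exact TA_b h 0
  have A_b : ∀ k, k ≠ 0 → A (b k) = b k := fun k hk => by rw [hA]; exact TA_b_ne h hk
  have B_b : ∀ k, B (b k) = b k := fun k => by rw [hB]; exact TB_b h 0 k
  have B_a0 : B (a 0) = a 0 * b 0 := by rw [hB]; exact TB_a h 0
  have B_a : ∀ k, k ≠ 0 → B (a k) = a k := fun k hk => by rw [hB]; exact TB_a_ne h hk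
  have iA_a : ∀ k, A⁻¹ (a k) = a k := by
    intro k
    have h1 := MulAut.inv_apply_self G A (a k)
    rwa [A_a] at h1
  have iA_b0 : A⁻¹ (b 0) = b 0 * (a 0)⁻¹ := by
    have h1 := MulAut.inv_apply_self G A (b 0 * (a 0)⁻¹)
    rwa [map_mul, map_inv, A_b0, A_a, mul_inv_cancel_right] at h1
  have iA_b : ∀ k, k ≠ 0 → A⁻¹ (b k) = b k := by
    intro k hk
    have h1 := MulAut.inv_apply_self G A (b k)
    rwa [A_b k hk] at h1
  obtain ⟨p, hp⟩ : ∃ p, p = a 0 := ⟨_, rfl⟩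
  obtain ⟨q, hq⟩ : ∃ q, q = b 0 := ⟨_, rfl⟩
  obtain ⟨r, hr⟩ : ∃ r, r = a i₀.succ := ⟨_, rfl⟩
  obtain ⟨s, hs⟩ : ∃ s, s = b i₀.succ := ⟨_, rfl⟩
  have T_p : T' p = p * (r⁻¹ * q) := by
    rw [hT, hp, hq, hr]
    exact TC_ai h 0 i₀.succ hij
  have T_r : T' r = (r⁻¹ * q)⁻¹ * r * (r⁻¹ * q) := by
    rw [hT, hq, hr]
    exact TC_aj h 0 i₀.succ hij
  have T_q : T' q = (r⁻¹ * q)⁻¹ * r * (r⁻¹ * q) * (r⁻¹ * q) := by
    rw [hT, hq, hr]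
    exact TC_bi h 0 i₀.succ hij
  have T_s : T' s = s * (r⁻¹ * q) := by
    rw [hT, hq, hr, hs]
    exact TC_bj h 0 i₀.succ hij
  have T_a : ∀ i : Fin n, i ≠ i₀ → T' (a i.succ) = a i.succ := fun i hi => by
    rw [hT]
    exact TC_a_ne h hij (hne0 i) fun h1 => hi (Fin.succ_injective _ h1)
  have T_b : ∀ i : Fin n, i ≠ i₀ → T' (b i.succ) = b i.succ := fun i hi => by
    rw [hT]
    exact TC_b_ne h hij (hne0 i) fun h1 => hi (Fin.succ_injective _ h1)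
  have A_p : A p = p := by rw [hp]; exact A_a 0
  have A_q : A q = q * p := by rw [hp, hq]; exact A_b0
  have A_r : A r = r := by rw [hr]; exact A_a _
  have A_s : A s = s := by rw [hs]; exact A_b _ (hne0 i₀)
  -- the sixth power
  obtain ⟨y, hy⟩ : ∃ y, y = A⁻¹ * B := ⟨_, rfl⟩
  have y_p : y p = p * q * p⁻¹ := by
    rw [hy, hp, hq]
    change A⁻¹ (B (a 0)) = _
    rw [B_a0, map_mul, iA_a, iA_b0, mul_assoc]
  have y_q : y q = q * p⁻¹ := by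
    rw [hy, hp, hq]
    change A⁻¹ (B (b 0)) = _
    rw [B_b, iA_b0]
  have y_a : ∀ i : Fin n, y (a i.succ) = a i.succ := by
    intro i
    rw [hy]
    change A⁻¹ (B (a i.succ)) = _
    rw [B_a _ (hne0 i), iA_a]
  have y_b : ∀ i : Fin n, y (b i.succ) = b i.succ := by
    intro i
    rw [hy]
    change A⁻¹ (B (b i.succ)) = _
    rw [B_b, iA_b _ (hne0 i)]
  obtain ⟨t, ht⟩ : ∃ t, t = (y * y * y) * (y * y * y) := ⟨_, rfl⟩
  obtain ⟨t_p, t_q⟩ := Gm_y y_p y_q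
  rw [← ht] at t_p t_q
  have t_a : ∀ i : Fin n, t (a i.succ) = a i.succ := by
    intro i
    rw [ht]
    change y (y (y (y (y (y (a i.succ)))))) = _
    rw [y_a, y_a, y_a, y_a, y_a, y_a]
  have t_b : ∀ i : Fin n, t (b i.succ) = b i.succ := by
    intro i
    rw [ht]
    change y (y (y (y (y (y (b i.succ)))))) = _
    rw [y_b, y_b, y_b, y_b, y_b, y_b]
  have t_r : t r = r := by rw [hr]; exact t_a i₀
  have t_s : t s = s := by rw [hs]; exact t_b i₀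
  have my : y ∈ MCG a b := by
    rw [hy]
    exact (MCG a b).mul_mem ((MCG a b).inv_mem mA) mB
  have mt : t ∈ MCG a b := by
    rw [ht]
    exact (MCG a b).mul_mem ((MCG a b).mul_mem ((MCG a b).mul_mem my my) my)
      ((MCG a b).mul_mem ((MCG a b).mul_mem my my) my)
  have H1t : H1 h t = 1 := by
    refine lin_ext (fun i => ?_) (fun i => ?_)
    · rw [H1_e]
      change _ = e i
      rw [← cls_a h i]
      refine Fin.cases ?_ (fun j => ?_) i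
      · rw [← hp, t_p, cls_mul, cls_mul, cls_inv]
        abel
      · rw [t_a]
    · rw [H1_f]
      change _ = f i
      rw [← cls_b h i]
      refine Fin.cases ?_ (fun j => ?_) i
      · rw [← hq, t_q, cls_mul, cls_mul, cls_inv]
        abel
      · rw [t_b]
  -- the conjugate
  obtain ⟨ψ, hψ⟩ : ∃ ψ, ψ = A * T' := ⟨_, rfl⟩
  have mψ : ψ ∈ MCG a b := by
    rw [hψ]
    exact (MCG a b).mul_mem mA mT
  have hφ : ∀ x, (ψ * t * ψ⁻¹) (ψ x) = ψ (t x) := by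
    intro x
    change ψ (t (ψ⁻¹ (ψ x))) = _
    rw [MulAut.inv_apply_self]
  have hcls : ∀ x, cls h ((ψ * t * ψ⁻¹) x) = cls h x := by
    intro x
    rw [← H1_cls, map_mul, map_mul, H1t, mul_one, map_inv, mul_inv_cancel]
    rfl
  refine ⟨ψ * t * ψ⁻¹, (MCG a b).mul_mem ((MCG a b).mul_mem mψ mt) ((MCG a b).inv_mem mψ), hcls,
    fun x hx => ?_⟩
  have hpres : Pres (th h (f 0)) (ψ * t * ψ⁻¹) := by
    intro z
    rw [th_apply, th_apply, hcls]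
  rw [← Lz_D0 h hpres hx, ← T_apply]
  -- it is enough to look at the basis
  have ψ_a : ∀ i : Fin n, i ≠ i₀ → ψ (a i.succ) = a i.succ := by
    intro i hi
    rw [hψ]
    change A (T' (a i.succ)) = _
    rw [T_a i hi, A_a]
  have ψ_b : ∀ i : Fin n, i ≠ i₀ → ψ (b i.succ) = b i.succ := by
    intro i hi
    rw [hψ]
    change A (T' (b i.succ)) = _
    rw [T_b i hi, A_b _ (hne0 i)]
  -- the values of the crossed homomorphism
  obtain ⟨θ, hθ⟩ : ∃ θ : G →* ℤˣ, θ = (th h (f 0)).comp ψ.toMonoidHom := ⟨_, rfl⟩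
  have θ_app : ∀ x, θ x = th h (f 0) (ψ x) := by
    intro x
    rw [hθ]
    rfl
  have hC : IsDer θ fun x => D0 h (ψ x) := (D0_der h).comp fun x => (θ_app x).symm
  have v_p : th h (f 0) p = -1 := by rw [hp]; exact th0_a0 h
  have v_q : th h (f 0) q = 1 := by rw [hq]; exact th0_b0 h
  have v_r : th h (f 0) r = 1 := by rw [hr]; exact th0_a h i₀
  have v_s : th h (f 0) s = 1 := by rw [hs]; exact th0_b h i₀
  have ψ_p : ψ p = p * (r⁻¹ * (q * p)) := by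
    rw [hψ]
    change A (T' p) = _
    rw [T_p, map_mul, map_mul, map_inv, A_p, A_r, A_q]
  have ψ_q : ψ q = (r⁻¹ * (q * p))⁻¹ * r * (r⁻¹ * (q * p)) * (r⁻¹ * (q * p)) := by
    rw [hψ]
    change A (T' q) = _
    rw [T_q]
    simp only [map_mul, map_inv, A_r, A_q]
  have ψ_r : ψ r = (r⁻¹ * (q * p))⁻¹ * r * (r⁻¹ * (q * p)) := by
    rw [hψ]
    change A (T' r) = _
    rw [T_r]
    simp only [map_mul, map_inv, A_r, A_q]
  have ψ_s : ψ s = s * (r⁻¹ * (q * p)) := by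
    rw [hψ]
    change A (T' s) = _
    rw [T_s]
    simp only [map_mul, map_inv, A_r, A_q, A_s]
  have θ_p : θ p = 1 := by
    rw [θ_app, ψ_p]
    simp only [map_mul, map_inv, v_p, v_q, v_r]
    rfl
  have θ_q : θ q = -1 := by
    rw [θ_app, ψ_q]
    simp only [map_mul, map_inv, v_p, v_q, v_r]
    rfl
  have θ_r : θ r = 1 := by
    rw [θ_app, ψ_r]
    simp only [map_mul, map_inv, v_p, v_q, v_r]
    rfl
  have θ_s : θ s = -1 := by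
    rw [θ_app, ψ_s]
    simp only [map_mul, map_inv, v_p, v_q, v_r, v_s]
    rfl
  have C_p : D0 h (ψ p) = e i₀ := by
    have d1 : ∀ x y, D0 h (x * y) = D0 h x + (th h (f 0) x : ℤ) • D0 h y := D0_der h
    have d2 : D0 h p = 0 := by rw [hp]; exact D0_a0 h
    have d3 : D0 h q = 0 := by rw [hq]; exact D0_b0 h
    have d4 : D0 h r = e i₀ := by rw [hr]; exact D0_a h i₀
    have d5 : D0 h r⁻¹ = -e i₀ := by rw [D0_inv h v_r, d4]
    rw [ψ_p, d1, d1, d1, d2, d3, d5, v_p]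
    simp
  obtain ⟨k1, k2⟩ := Gm_calc hC θ_p θ_q θ_r θ_s C_p
  -- the preimages of `r` and `s`
  have ψ_u : ψ ((r⁻¹ * q) * r * (r⁻¹ * q)⁻¹) = r := by
    simp only [map_mul, map_inv, ψ_r, ψ_q]
    group
  have ψ_v : ψ (s * (r⁻¹ * q)⁻¹) = s := by
    simp only [map_mul, map_inv, ψ_r, ψ_q, ψ_s]
    group
  have w_r : D0 h ((ψ * t * ψ⁻¹) r) = e i₀ := by
    have e1 : (ψ * t * ψ⁻¹) r = ψ (t ((r⁻¹ * q) * r * (r⁻¹ * q)⁻¹)) := by
      rw [← hφ, ψ_u]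
    have e2 : t ((r⁻¹ * q) * r * (r⁻¹ * q)⁻¹) =
        (r⁻¹ * ((p * q * p⁻¹ * q⁻¹) * q * (p * q * p⁻¹ * q⁻¹)⁻¹)) * r *
        (r⁻¹ * ((p * q * p⁻¹ * q⁻¹) * q * (p * q * p⁻¹ * q⁻¹)⁻¹))⁻¹ := by
      rw [map_mul, map_mul, map_inv, map_mul, map_inv, t_r, t_q]
    rw [e1, e2]
    refine k1.trans ?_
    change D0 h (ψ ((r⁻¹ * q) * r * (r⁻¹ * q)⁻¹)) = _
    rw [ψ_u, hr]
    exact D0_a h i₀
  have w_s : D0 h ((ψ * t * ψ⁻¹) s) = f i₀ - (4 : ℤ) • e i₀ := by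
    have e1 : (ψ * t * ψ⁻¹) s = ψ (t (s * (r⁻¹ * q)⁻¹)) := by
      rw [← hφ, ψ_v]
    have e2 : t (s * (r⁻¹ * q)⁻¹) =
        s * (r⁻¹ * ((p * q * p⁻¹ * q⁻¹) * q * (p * q * p⁻¹ * q⁻¹)⁻¹))⁻¹ := by
      rw [map_mul, map_inv, map_mul, map_inv, t_r, t_s, t_q]
    rw [e1, e2]
    refine k2.trans ?_
    change D0 h (ψ (s * (r⁻¹ * q)⁻¹)) - (4 : ℤ) • e i₀ = _
    rw [ψ_v, hs, D0_b h i₀]
  -- the basis
  have be : ∀ i, Lz h (ψ * t * ψ⁻¹) (e i) = T (e i₀) 4 (e i) := by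
    intro i
    rw [Lz_e, T_fix (om_e_e i i₀)]
    by_cases hi : i = i₀
    · rw [hi, ← hr]
      exact w_r
    · have e1 : (ψ * t * ψ⁻¹) (a i.succ) = a i.succ := by
        have h1 := hφ (a i.succ)
        rwa [ψ_a i hi, t_a, ψ_a i hi] at h1
      rw [e1, D0_a]
  have bf : ∀ i, Lz h (ψ * t * ψ⁻¹) (f i) = T (e i₀) 4 (f i) := by
    intro i
    rw [Lz_f]
    by_cases hi : i = i₀
    · rw [hi, ← hs, T_apply, om_f_e, w_s]
      module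
    · have e1 : (ψ * t * ψ⁻¹) (b i.succ) = b i.succ := by
        have h1 := hφ (b i.succ)
        rwa [ψ_b i hi, t_b, ψ_b i hi] at h1
      rw [T_fix (om_f_e_ne hi), e1, D0_b]
  generalize D0 h x = v
  have hT' : ∀ v : V n, T (e i₀) 4 v = tL (e i₀) 4 v := fun v => rfl
  rw [hT', expand v, map_sum, map_sum]
  refine Finset.sum_congr rfl fun i _ => ?_
  rw [map_add, map_add, map_smul, map_smul, map_smul, map_smul, be, bf, hT', hT']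

end Pool.Agent.H.MP_59b15d_al.H95T
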