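import Pool.Agent.H.MP_59b15d_al.R.Main
import Pool.Agent.H.MP_59b15d_al.h95t.Bo

/-!
# Isolation of a block: the general argument

PROOFS. `Block.iso`: For a finite set `S` of characters `≠ θ` let `F S` be the group of all `x` in
`N ⊓ PP a b` with `Triv θ' x` for all `θ'` in `S` (`N ⊓ PP a b ⊓ ⨅ θ' ∈ S, UU a b θ'`, or define it as a
subgroup by hand). CLAIM: `Full (B.im (F S))`, by induction on `S` (`Finset.induction_on`).
 `S = ∅`: with some `θ' ≠ θ` (`hne`), `N ⊓ UU a b θ' ≤ F ∅`, `Full.mono`.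
 `S ∪ {θ'}`: `Full.comb` (`2 ≤ n`) with `U = B.im (F S)`, `U' = B.im (N ⊓ UU a b θ')`,
`W = B.im (F (S ∪ {θ'}))`: for `x` in `F S`, `y` in `N ⊓ UU a b θ'`, the commutator
`x * y * x⁻¹ * y⁻¹` is in `N`, in `PP`, and `Triv θ''` for `θ''` in `S`: `y * x⁻¹ * y⁻¹` is `Triv θ''` by
`Triv.conj` (`y` preserves `θ''` as it is in `PP`), and `x` is; likewise for `θ'`. All elements of `PP`
are in `St a b θ`, `B.R` is multiplicative.
 There are finitely many characters (`finite_char h`), so take `S` = all characters `≠ θ`. Then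
`U = B.im (F S)` is normal in `Sp n`: `A = B.R ψ` (`B.surj`), `ψ` in `St a b θ`; for `x` in `F S` the
element `ψ * x * ψ⁻¹` is in `N` (`hN`), in `PP` (each `θ' ∘ ψ` is a character: `Triv.conj`-type
computation), and `Triv θ' (ψ * x * ψ⁻¹)` for `θ' ≠ θ`: by `Triv.conj` from `Triv (θ' ∘ ψ) x`, and
`θ' ∘ ψ ≠ θ` because `θ ∘ ψ = θ` (if `θ' ∘ ψ = θ = θ ∘ ψ` then `θ' = θ`, `ψ` being onto). Here
`θ' ∘ ψ = θ'.comp ψ.toMonoidHom`.
 `Full.cg` gives `m ≠ 0` with `Cg m A → A ∈ U`. Let `φ` be in `PP` and `TrivN m θ φ`. It is in `St a b θ`,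
`Cg m (B.R φ)` by `B.lev`, so `B.R φ = B.R x` with `x` in `F S`, and `B.R (x⁻¹ * φ) = 1`, `B.triv`.

`hit`: let `θ'' = θ' ∘ ψ`; `θ'' (b i) = -1`, so `τ ^ 2` is in `UU a b θ''` (`sq_UU`), and
`ψ * τ ^ 2 * ψ⁻¹` is in `UU a b θ'` (`PP` is normalised by `MCG`; `Triv.conj`). By `R.exists_pow` (with
`P = N`, `M = MCG a b`) there is `k > 0` with `w ^ k ∈ N` for all `w` in `MCG a b`. So
`x = (ψ * τ ^ 2 * ψ⁻¹) ^ k` is in `N ⊓ UU a b θ'`, and `B.R x = (B.R ψ * (T v 1) ^ 2 * (B.R ψ)⁻¹) ^ k =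
T (B.R ψ v) (2 * k)` (`T_conj`, `T_zpow`/`T_mul`). Take `m = 2 * k`.
-/

set_option autoImplicit false

namespace Pool.Agent.H.MP_59b15d_al.H95T

open Pool.MP_59b15d_al.H24T Pool.MP_59b15d_al.H76R
open Pool.Agent.H.MP_59b15d_al.SP

section

variable {G : Type*} [Group G] {g n : ℕ} {a b : Fin g → G}

/-- Conjugation of `PP`. -/
theorem PP_conj {f x : MulAut G} (hf : f ∈ MCG a b) (hx : x ∈ PP a b) : f * x * f⁻¹ ∈ PP a b := by
  refine ⟨(MCG a b).mul_mem ((MCG a b).mul_mem hf hx.1) ((MCG a b).inv_mem hf), fun θ y => ?_⟩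
  have h1 := hx.2 (θ.comp f.toMonoidHom) (f⁻¹ y)
  change θ (f (x (f⁻¹ y))) = θ (f (f⁻¹ y)) at h1
  change θ (f (x (f⁻¹ y))) = θ y
  rw [h1, MulAut.apply_inv_self]

private theorem IsA_St {x : MulAut G} (hx : x ∈ PP a b) (θ : G →* ℤˣ) : x ∈ St a b θ :=
  ⟨hx.1, hx.2 θ⟩

private theorem IsA_im {θ : G →* ℤˣ} (B : Block a b θ n) (F : Subgroup (MulAut G)) (A : Sp n) :
    A ∈ B.im F ↔ ∃ φ : St a b θ, (φ : MulAut G) ∈ F ∧ B.R φ = A := by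
  unfold Block.im
  rw [Subgroup.mem_map]
  constructor
  · rintro ⟨φ, h1, h2⟩
    exact ⟨φ, Subgroup.mem_subgroupOf.1 h1, h2⟩
  · rintro ⟨φ, h1, h2⟩
    exact ⟨φ, Subgroup.mem_subgroupOf.2 h1, h2⟩

/-- The elements of `N` which are trivial for the characters in `S`. -/
private def IsA_F (a b : Fin g → G) (N : Subgroup (MulAut G)) (S : Set (G →* ℤˣ)) :
    Subgroup (MulAut G) where
  carrier := {x | x ∈ N ∧ x ∈ PP a b ∧ ∀ θ' ∈ S, Triv θ' x}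
  mul_mem' h1 h2 := ⟨N.mul_mem h1.1 h2.1, (PP a b).mul_mem h1.2.1 h2.2.1,
    fun θ' hθ' => (h1.2.2 θ' hθ').mul (h2.2.2 θ' hθ')⟩
  one_mem' := ⟨N.one_mem, (PP a b).one_mem, fun θ' _ => Triv.one θ'⟩
  inv_mem' h1 := ⟨N.inv_mem h1.1, (PP a b).inv_mem h1.2.1, fun θ' hθ' => (h1.2.2 θ' hθ').inv⟩

private theorem IsA_full {θ : G →* ℤˣ} (hn : 3 ≤ n) (B : Block a b θ n)
    {N : Subgroup (MulAut G)} (hne : ∃ θ' : G →* ℤˣ, θ' ≠ θ)
    (hF : ∀ θ', θ' ≠ θ → Full (B.im (N ⊓ UU a b θ'))) (S : Set (G →* ℤˣ)) (hS : S.Finite) :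
    (∀ θ' ∈ S, θ' ≠ θ) → Full (B.im (IsA_F a b N S)) := by
  induction S, hS using Set.Finite.induction_on with
  | empty =>
    intro _
    obtain ⟨θ', hθ'⟩ := hne
    refine Full.mono ?_ (hF θ' hθ')
    intro A hA
    obtain ⟨φ, h1, h2⟩ := (IsA_im B _ A).1 hA
    exact (IsA_im B _ A).2 ⟨φ, ⟨h1.1, h1.2.1, fun θ'' h => absurd h (Set.notMem_empty _)⟩, h2⟩
  | @insert θ' S _ _ ih =>
    intro hne'
    refine Full.comb (by omega) ?_ (ih fun θ'' h => hne' θ'' (Set.mem_insert_of_mem _ h))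
      (hF θ' (hne' θ' (Set.mem_insert _ _)))
    intro x hx y hy
    obtain ⟨φ, h1, rfl⟩ := (IsA_im B _ x).1 hx
    obtain ⟨ψ, h2, rfl⟩ := (IsA_im B _ y).1 hy
    obtain ⟨hφN, hφP, hφT⟩ := h1
    obtain ⟨hψN, hψP, hψT⟩ := h2
    refine (IsA_im B _ _).2 ⟨φ * ψ * φ⁻¹ * ψ⁻¹, ⟨?_, ?_, ?_⟩, ?_⟩
    · exact N.mul_mem (N.mul_mem (N.mul_mem hφN hψN) (N.inv_mem hφN)) (N.inv_mem hψN)
    · exact (PP a b).mul_mem ((PP a b).mul_mem ((PP a b).mul_mem hφP hψP) ((PP a b).inv_mem hφP))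
        ((PP a b).inv_mem hψP)
    · intro θ'' hθ''
      rcases Set.mem_insert_iff.1 hθ'' with rfl | hθ''
      · exact (hψT.conj (hφP.2 θ'')).mul hψT.inv
      · have h3 : Triv θ'' ((φ : MulAut G) * ((ψ : MulAut G) * (φ : MulAut G)⁻¹ *
            (ψ : MulAut G)⁻¹)) :=
          (hφT θ'' hθ'').mul (((hφT θ'' hθ'').inv).conj (hψP.2 θ''))
        have h4 : ((φ * ψ * φ⁻¹ * ψ⁻¹ : St a b θ) : MulAut G) =
            (φ : MulAut G) * ((ψ : MulAut G) * (φ : MulAut G)⁻¹ * (ψ : MulAut G)⁻¹) := by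
          change (φ : MulAut G) * (ψ : MulAut G) * (φ : MulAut G)⁻¹ * (ψ : MulAut G)⁻¹ = _
          group
        rw [h4]
        exact h3
    · rw [map_mul, map_mul, map_mul, map_inv, map_inv]

theorem Block.iso (h : IsSurf a b) (hn : 3 ≤ n) {θ : G →* ℤˣ} (B : Block a b θ n)
    {N : Subgroup (MulAut G)} (hN : Nml a b N) (hne : ∃ θ' : G →* ℤˣ, θ' ≠ θ)
    (hF : ∀ θ', θ' ≠ θ → Full (B.im (N ⊓ UU a b θ'))) : Iso a b N θ := by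
  have hfin := finite_char h
  have hfull := IsA_full hn B hne hF {θ' | θ' ≠ θ} (Set.toFinite _) fun θ' h => h
  have hnor : (B.im (IsA_F a b N {θ' | θ' ≠ θ})).Normal := by
    refine ⟨fun x hx A => ?_⟩
    obtain ⟨ψ, rfl⟩ := B.surj A
    obtain ⟨φ, ⟨hφN, hφP, hφT⟩, rfl⟩ := (IsA_im B _ x).1 hx
    refine (IsA_im B _ _).2 ⟨ψ * φ * ψ⁻¹, ⟨hN _ ψ.2.1 _ hφN, PP_conj ψ.2.1 hφP, ?_⟩, ?_⟩
    · intro θ' hθ'
      have h1 : θ'.comp (ψ : MulAut G).toMonoidHom ≠ θ := by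
        intro he
        apply hθ'
        refine MonoidHom.ext fun y => ?_
        obtain ⟨x, rfl⟩ := (ψ : MulAut G).surjective y
        have h2 := DFunLike.congr_fun he x
        change θ' ((ψ : MulAut G) x) = θ x at h2
        rw [h2]
        exact (ψ.2.2 x).symm
      exact (hφT _ h1).conj fun x => rfl
    · rw [map_mul, map_mul, map_inv]
  obtain ⟨m, hm0, hm⟩ := Full.cg hn hnor hfull
  refine ⟨m, hm0, fun φ hφ hT => ?_⟩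
  have h1 := hm _ (B.lev m ⟨φ, IsA_St hφ θ⟩ hT)
  obtain ⟨x, ⟨hxN, hxP, hxT⟩, hx⟩ := (IsA_im B _ _).1 h1
  refine ⟨x, hxN, hxP, hxT, ?_⟩
  have h2 := B.triv (x⁻¹ * ⟨φ, IsA_St hφ θ⟩) (by rw [map_mul, map_inv, hx, inv_mul_cancel])
  exact h2

theorem hit (h : IsSurf a b) {θ : G →* ℤˣ} (B : Block a b θ n) {N : Subgroup (MulAut G)}
    (hf : N.relIndex (MCG a b) ≠ 0) {i : Fin g} {τ : St a b θ} (hτ : IsB a b i (τ : MulAut G))
    {v : V n} (hR : B.R τ = T v 1) (ψ : St a b θ) {θ' : G →* ℤˣ}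
    (hθ' : θ' ((ψ : MulAut G) (b i)) = -1) :
    ∃ m : ℤ, m ≠ 0 ∧ T (B.R ψ v) m ∈ B.im (N ⊓ UU a b θ') := by
  have h1 : (τ : MulAut G) ^ 2 ∈ UU a b (θ'.comp (ψ : MulAut G).toMonoidHom) := sq_UU h hτ hθ'
  have h2 : (ψ : MulAut G) * (τ : MulAut G) ^ 2 * (ψ : MulAut G)⁻¹ ∈ UU a b θ' :=
    ⟨PP_conj ψ.2.1 h1.1, h1.2.conj fun x => rfl⟩
  obtain ⟨k, hk, hk'⟩ := R.exists_pow hf
  refine ⟨2 * k, by omega, (IsA_im B _ _).2 ⟨(ψ * τ ^ 2 * ψ⁻¹) ^ k, ⟨?_, ?_⟩, ?_⟩⟩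
  · exact hk' _ h2.1.1
  · exact (UU a b θ').pow_mem h2 k
  · rw [map_pow, map_mul, map_mul, map_inv, map_pow, hR, sq, T_mul, T_conj, ← zpow_natCast, T_zpow]
    norm_num

end

end Pool.Agent.H.MP_59b15d_al.H95T
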