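import Pool.Agent.H.MP_59b15d_al.h95t.FoB

/-!
# The action on the block of `θ₀ = th h (f 0)`

PROOFS. `Rz`: `mk (Lz h φ) (Lz h φ⁻¹) ..` (`mk` in sp/Base.lean; `Lz_Lz_inv`, `om_Lz`); multiplicative
by `D0_surj` and `Lz_D0`. `Rz_D0`: `Lz_D0`. `Rz_ext`: two elements of `Sp n` which agree on all
`D0 h x`, `θ₀ x = 1`, are equal (`D0_surj`).
`Rz_triv`: `D0 h (φ x) = D0 h x` if `θ₀ x = 1`; `der_fac`.
`Rz_lev`: `v = D0 h x`, `θ₀ x = 1`; the coordinates of `D0` are integer valued crossed homomorphisms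
(`IsDer.map` with the linear maps `v ↦ (v i).1`, `v ↦ (v i).2`), so `m` divides the coordinates of
`D0 h (φ x) - D0 h x = Rz h φ v - v`.
Twists (`sp_ext` on the basis: use `lin_ext` of h11c/Hone.lean or `expand`): for the twists of the last
`n` handles all words occurring have `θ₀ = 1` on all generators, so `D0` is additive (`D0_mul`,
`D0_inv`), and the computation is that of `H1_A`, `H1_B`, `H1_C` in h11c/Hone.lean. `Pres` of a twist
`τ`: the two characters `θ₀` and `θ₀ ∘ τ` agree on the generators (`hom_ext`).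
 `Rz_C0`: `IsC a b 0 i₀.succ τ`: `u = (a i₀.succ)⁻¹ * b 0`, `θ₀ u = 1`, `D0 u = -e i₀`;
`τ (a i₀.succ) = u⁻¹ * a i₀.succ * u`, `D0` of it is `e i₀`; `τ (b i₀.succ) = b i₀.succ * u`, `D0` of it
is `f i₀ - e i₀`; the other handles are fixed; and `T (e i₀) 1 (f i₀) = f i₀ + om (f i₀) (e i₀) • e i₀
= f i₀ - e i₀`. `Pres`: `θ₀ (τ (a 0)) = θ₀ (a 0) * θ₀ u = -1`, `θ₀ (τ (b 0)) = 1`, etc.
`Rz_surj`: as `spm_surj` in h11c/Hone.lean (`hum_eq_top`), with the twists `TA h i.succ`, `TB h i.succ`,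
`TC h i.succ j.succ _`.
`exists_chi`: `χ = τC * τA` with `τC = TC h 0 i₀.succ _`, `τA = TA h i₀.succ`:
`Rz h χ = T (e i₀) 1 * T (e i₀) (-1) = 1`; `χ (b i₀.succ) = τC (b i₀.succ * a i₀.succ) =
b i₀.succ * u * (u⁻¹ * a i₀.succ * u) = b i₀.succ * b 0`.
-/

set_option autoImplicit false

namespace Pool.Agent.H.MP_59b15d_al.H95T

open Pool.MP_59b15d_al.H24T Pool.MP_59b15d_al.H76R
open Pool.Agent.H.MP_59b15d_al.SP

variable {G : Type*} [Group G] {n : ℕ} {a b : Fin (n + 1) → G} (h : IsSurf a b)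

theorem exists_Rz : ∃ R : St a b (th h (f 0)) →* Sp n, ∀ (φ : St a b (th h (f 0))) (v : V n),
    R φ v = Lz h φ v := by
  have hinv : ∀ φ : St a b (th h (f 0)), (φ : MulAut G)⁻¹ ∈ St a b (th h (f 0)) :=
    fun φ => (St a b (th h (f 0))).inv_mem φ.2
  let F : St a b (th h (f 0)) → Sp n := fun φ => mk (Lz h φ) (Lz h (φ : MulAut G)⁻¹)
    (fun x => Lz_Lz_inv h φ.2 x)
    (fun x => by
      have h1 := Lz_Lz_inv h (hinv φ) x
      rwa [inv_inv] at h1)
    (fun u v => om_Lz h φ.2 u v)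
  have hF : ∀ (φ : St a b (th h (f 0))) (v : V n), F φ v = Lz h φ v := fun φ v => rfl
  have hmul : ∀ φ ψ : St a b (th h (f 0)), F (φ * ψ) = F φ * F ψ := by
    intro φ ψ
    refine sp_ext fun v => ?_
    obtain ⟨x, hx, rfl⟩ := D0_surj h v
    have hx' : th h (f 0) ((ψ : MulAut G) x) = 1 := (ψ.2.2 x).trans hx
    rw [sp_mul, hF, hF, hF, Lz_D0 h (φ * ψ).2.2 hx, Lz_D0 h ψ.2.2 hx, Lz_D0 h φ.2.2 hx']
    rfl
  exact ⟨MonoidHom.mk' F hmul, hF⟩

/-- The action on the block of `θ₀`. -/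
noncomputable def Rz : St a b (th h (f 0)) →* Sp n := (exists_Rz h).choose

theorem Rz_apply (φ : St a b (th h (f 0))) (v : V n) : Rz h φ v = Lz h φ v :=
  (exists_Rz h).choose_spec φ v

theorem Rz_D0 (φ : St a b (th h (f 0))) {x : G} (hx : th h (f 0) x = 1) :
    Rz h φ (D0 h x) = D0 h ((φ : MulAut G) x) := by
  rw [Rz_apply, Lz_D0 h φ.2.2 hx]

theorem Rz_triv (φ : St a b (th h (f 0))) (hφ : Rz h φ = 1) : Triv (th h (f 0)) (φ : MulAut G) := by
  refine ⟨φ.2.2, fun c hc x hx => ?_⟩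
  obtain ⟨L, -, -, hL⟩ := der_fac h hc
  have hx' : th h (f 0) ((φ : MulAut G) x) = 1 := (φ.2.2 x).trans hx
  rw [hL _ hx', hL _ hx, ← Rz_D0 h φ hx, hφ, sp_one]

theorem Rz_lev (m : ℤ) (φ : St a b (th h (f 0))) (hφ : TrivN m (th h (f 0)) (φ : MulAut G)) :
    Cg m (Rz h φ) := by
  intro v
  obtain ⟨x, hx, rfl⟩ := D0_surj h v
  rw [Rz_D0 h φ hx]
  have h1 : ∀ i, m ∣ (D0 h ((φ : MulAut G) x) i).1 - (D0 h x i).1 := fun i =>
    hφ.2 _ ((D0_der h).map ((LinearMap.fst ℤ ℤ ℤ).comp (LinearMap.proj i : V n →ₗ[ℤ] ℤ × ℤ))) x hx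
  have h2 : ∀ i, m ∣ (D0 h ((φ : MulAut G) x) i).2 - (D0 h x i).2 := fun i =>
    hφ.2 _ ((D0_der h).map ((LinearMap.snd ℤ ℤ ℤ).comp (LinearMap.proj i : V n →ₗ[ℤ] ℤ × ℤ))) x hx
  choose p hp using h1
  choose q hq using h2
  exact ⟨fun i => (p i, q i), funext fun i => Prod.ext (hp i) (hq i)⟩

private theorem Rz_pres {τ : MulAut G} (ha : ∀ k, th h (f 0) (τ (a k)) = th h (f 0) (a k))
    (hb : ∀ k, th h (f 0) (τ (b k)) = th h (f 0) (b k)) : Pres (th h (f 0)) τ := by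
  have h1 : (th h (f 0)).comp τ.toMonoidHom = th h (f 0) := hom_ext h ha hb
  exact fun x => DFunLike.congr_fun h1 x

theorem A_St {i : Fin n} {τ : MulAut G} (hτ : IsA a b i.succ τ) : τ ∈ St a b (th h (f 0)) := by
  refine ⟨Subgroup.subset_closure (Or.inr (Or.inl ⟨i.succ, trivial, hτ⟩)), ?_⟩
  obtain ⟨h1, h2, h3⟩ := hτ
  refine Rz_pres h (fun k => by rw [h2]) fun k => ?_
  by_cases hk : k = i.succ
  · rw [hk, h1, map_mul, th0_a, mul_one]
  · rw [h3 k hk]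

theorem B_St {i : Fin n} {τ : MulAut G} (hτ : IsB a b i.succ τ) : τ ∈ St a b (th h (f 0)) := by
  refine ⟨Subgroup.subset_closure (Or.inr (Or.inr (Or.inl ⟨i.succ, trivial, hτ⟩))), ?_⟩
  obtain ⟨h1, h2, h3⟩ := hτ
  refine Rz_pres h (fun k => ?_) fun k => by rw [h2]
  by_cases hk : k = i.succ
  · rw [hk, h1, map_mul, th0_b, mul_one]
  · rw [h3 k hk]

private theorem Rz_e (φ : St a b (th h (f 0))) (k : Fin n) :
    Rz h φ (e k) = D0 h ((φ : MulAut G) (a k.succ)) := by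
  rw [← D0_a h k, Rz_D0 h φ (th0_a h k)]

private theorem Rz_f (φ : St a b (th h (f 0))) (k : Fin n) :
    Rz h φ (f k) = D0 h ((φ : MulAut G) (b k.succ)) := by
  rw [← D0_b h k, Rz_D0 h φ (th0_b h k)]

private theorem Rz_ext {A B : Sp n} (h1 : ∀ i, A (e i) = B (e i)) (h2 : ∀ i, A (f i) = B (f i)) :
    A = B := Subtype.ext (lin_ext h1 h2)

theorem Rz_A {i : Fin n} {φ : St a b (th h (f 0))} (hτ : IsA a b i.succ (φ : MulAut G)) :
    Rz h φ = T (e i) (-1) := by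
  obtain ⟨h1, h2, h3⟩ := hτ
  refine Rz_ext (fun k => ?_) (fun k => ?_)
  · rw [Rz_e, h2, D0_a]
    exact (T_fix (om_e_e k i) (-1)).symm
  · rw [Rz_f]
    by_cases hk : k = i
    · rw [hk, h1, D0_mul h (th0_b h i), D0_a, D0_b, T_apply, om_f_e]
      module
    · rw [h3 k.succ fun hc => hk (Fin.succ_injective _ hc), D0_b]
      exact (T_fix (om_f_e_ne hk) (-1)).symm

theorem Rz_B {i : Fin n} {φ : St a b (th h (f 0))} (hτ : IsB a b i.succ (φ : MulAut G)) :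
    Rz h φ = T (f i) 1 := by
  obtain ⟨h1, h2, h3⟩ := hτ
  refine Rz_ext (fun k => ?_) (fun k => ?_)
  · rw [Rz_e]
    by_cases hk : k = i
    · rw [hk, h1, D0_mul h (th0_a h i), D0_a, D0_b, T_apply, om_e_f]
      module
    · rw [h3 k.succ fun hc => hk (Fin.succ_injective _ hc), D0_a]
      exact (T_fix (om_e_f_ne hk) 1).symm
  · rw [Rz_f, h2, D0_b]
    exact (T_fix (om_f_f k i) 1).symm

private theorem C_St {i j : Fin n} (hij : (j : ℕ) = i + 1) {τ : MulAut G}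
    (hτ : IsC a b i.succ j.succ τ) : τ ∈ St a b (th h (f 0)) := by
  have hij' : ((j.succ : Fin (n + 1)) : ℕ) = (i.succ : Fin (n + 1)) + 1 := by
    rw [Fin.val_succ, Fin.val_succ, hij]
  refine ⟨Subgroup.subset_closure (Or.inr (Or.inr (Or.inr
    ⟨i.succ, j.succ, hij', trivial, hτ⟩))), ?_⟩
  obtain ⟨u, hu, h1, h2, h3, h4, h5⟩ := hτ
  have hu1 : th h (f 0) u = 1 := by rw [hu, map_mul, map_inv, th0_a, th0_b, inv_one, one_mul]
  refine Rz_pres h (fun k => ?_) fun k => ?_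
  · by_cases hk : k = i.succ
    · rw [hk, h1, map_mul, hu1, mul_one]
    · by_cases hkj : k = j.succ
      · rw [hkj, h3, map_mul, map_mul, map_inv, hu1, inv_one, one_mul, mul_one]
      · rw [(h5 k hk hkj).1]
  · by_cases hk : k = i.succ
    · rw [hk, h2, map_mul, map_mul, map_mul, map_inv, hu1, inv_one, one_mul, mul_one, mul_one,
        th0_a, th0_b]
    · by_cases hkj : k = j.succ
      · rw [hkj, h4, map_mul, hu1, mul_one]
      · rw [(h5 k hk hkj).2]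

private theorem Rz_C {i j : Fin n} (hij : i ≠ j) {φ : St a b (th h (f 0))}
    (hτ : IsC a b i.succ j.succ (φ : MulAut G)) : Rz h φ = T (f i - e j) 1 := by
  obtain ⟨u, hu, h1, h2, h3, h4, h5⟩ := hτ
  have hu1 : th h (f 0) u = 1 := by rw [hu, map_mul, map_inv, th0_a, th0_b, inv_one, one_mul]
  have hui : th h (f 0) u⁻¹ = 1 := by rw [map_inv, hu1, inv_one]
  have haj : th h (f 0) (a j.succ)⁻¹ = 1 := by rw [map_inv, th0_a, inv_one]
  have huaj : th h (f 0) (u⁻¹ * a j.succ) = 1 := by rw [map_mul, hui, th0_a, one_mul]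
  have huaju : th h (f 0) (u⁻¹ * a j.succ * u) = 1 := by rw [map_mul, huaj, hu1, one_mul]
  have hcu : D0 h u = f i - e j := by
    rw [hu, D0_mul h haj, D0_inv h (th0_a h j), D0_a, D0_b]
    abel
  refine Rz_ext (fun k => ?_) (fun k => ?_)
  · rw [Rz_e, T_apply, om_sub_right, om_e_e]
    by_cases hk : k = i
    · rw [hk, h1, D0_mul h (th0_a h i), D0_a, hcu, om_e_f]
      module
    · rw [om_e_f_ne hk]
      by_cases hkj : k = j
      · rw [hkj, h3, D0_mul h huaj, D0_mul h hui, D0_inv h hu1, hcu, D0_a]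
        module
      · rw [(h5 k.succ (fun hc => hk (Fin.succ_injective _ hc))
          fun hc => hkj (Fin.succ_injective _ hc)).1, D0_a]
        module
  · rw [Rz_f, T_apply, om_sub_right, om_f_f]
    by_cases hk : k = j
    · rw [hk, h4, D0_mul h (th0_b h j), D0_b, hcu, om_f_e]
      module
    · rw [om_f_e_ne hk]
      by_cases hki : k = i
      · rw [hki, h2, D0_mul h huaju, D0_mul h huaj, D0_mul h hui, D0_inv h hu1, hcu, D0_a]
        module
      · rw [(h5 k.succ (fun hc => hki (Fin.succ_injective _ hc))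
          fun hc => hk (Fin.succ_injective _ hc)).2, D0_b]
        module

theorem Rz_surj : Function.Surjective (Rz h) := by
  rw [← MonoidHom.range_eq_top, eq_top_iff, ← hum_eq_top, Hum, Subgroup.closure_le]
  rintro A (⟨i, rfl⟩ | ⟨i, rfl⟩ | ⟨i, j, hij, rfl⟩)
  · have hA : IsA a b i.succ (TA h i.succ) := (isA_iff h i.succ _).2 rfl
    refine ⟨(⟨TA h i.succ, A_St h hA⟩ : St a b (th h (f 0)))⁻¹, ?_⟩
    rw [map_inv, Rz_A h (φ := ⟨TA h i.succ, A_St h hA⟩) hA, T_inv, neg_neg]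
  · have hB : IsB a b i.succ (TB h i.succ) := (isB_iff h i.succ _).2 rfl
    exact ⟨⟨TB h i.succ, B_St h hB⟩, Rz_B h hB⟩
  · have hij' : ((j.succ : Fin (n + 1)) : ℕ) = (i.succ : Fin (n + 1)) + 1 := by
      rw [Fin.val_succ, Fin.val_succ, hij]
    have hC : IsC a b i.succ j.succ (TC h i.succ j.succ hij') :=
      (isC_iff h i.succ j.succ hij' _).2 rfl
    have hne : i ≠ j := by
      rintro rfl
      omega
    exact ⟨⟨TC h i.succ j.succ hij', C_St h hij hC⟩, Rz_C h hne hC⟩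

theorem exists_chi {i₀ : Fin n} (h0 : (i₀ : ℕ) = 0) :
    ∃ χ : St a b (th h (f 0)), Rz h χ = 1 ∧
      (χ : MulAut G) (b i₀.succ) = b i₀.succ * b 0 := by
  have hij' : ((i₀.succ : Fin (n + 1)) : ℕ) = ((0 : Fin (n + 1)) : ℕ) + 1 := by
    rw [Fin.val_succ, h0, Fin.val_zero]
  have hne : (i₀.succ : Fin (n + 1)) ≠ 0 := Fin.succ_ne_zero i₀
  have hC : IsC a b 0 i₀.succ (TC h 0 i₀.succ hij') := (isC_iff h 0 i₀.succ hij' _).2 rfl
  have hA : IsA a b i₀.succ (TA h i₀.succ) := (isA_iff h i₀.succ _).2 rfl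
  have hCm : TC h 0 i₀.succ hij' ∈ MCG a b :=
    Subgroup.subset_closure (Or.inr (Or.inr (Or.inr ⟨0, i₀.succ, hij', trivial, hC⟩)))
  obtain ⟨u, hu, h1, h2, h3, h4, h5⟩ := hC
  have hu1 : th h (f 0) u = 1 := by rw [hu, map_mul, map_inv, th0_a, th0_b0, inv_one, one_mul]
  have hui : th h (f 0) u⁻¹ = 1 := by rw [map_inv, hu1, inv_one]
  have haj : th h (f 0) (a i₀.succ)⁻¹ = 1 := by rw [map_inv, th0_a, inv_one]
  have huaj : th h (f 0) (u⁻¹ * a i₀.succ) = 1 := by rw [map_mul, hui, th0_a, one_mul]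
  have hcu : D0 h u = -e i₀ := by
    rw [hu, D0_mul h haj, D0_inv h (th0_a h i₀), D0_a, D0_b0, add_zero]
  have hp : Pres (th h (f 0)) (TC h 0 i₀.succ hij') := by
    refine Rz_pres h (fun k => ?_) fun k => ?_
    · by_cases hk : k = 0
      · rw [hk, h1, map_mul, hu1, mul_one]
      · by_cases hkj : k = i₀.succ
        · rw [hkj, h3, map_mul, map_mul, map_inv, hu1, inv_one, one_mul, mul_one]
        · rw [(h5 k hk hkj).1]
    · by_cases hk : k = 0
      · rw [hk, h2, map_mul, map_mul, map_mul, map_inv, hu1, inv_one, one_mul, mul_one, mul_one,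
          th0_a, th0_b0]
      · by_cases hkj : k = i₀.succ
        · rw [hkj, h4, map_mul, hu1, mul_one]
        · rw [(h5 k hk hkj).2]
  obtain ⟨σ, hσ⟩ : ∃ σ : St a b (th h (f 0)), (σ : MulAut G) = TC h 0 i₀.succ hij' :=
    ⟨⟨_, hCm, hp⟩, rfl⟩
  obtain ⟨ρ, hρ⟩ : ∃ ρ : St a b (th h (f 0)), (ρ : MulAut G) = TA h i₀.succ :=
    ⟨⟨_, A_St h hA⟩, rfl⟩
  have hR : Rz h σ = T (e i₀) 1 := by
    refine Rz_ext (fun k => ?_) (fun k => ?_)
    · rw [Rz_e, hσ, T_apply, om_e_e]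
      by_cases hk : k = i₀
      · rw [hk, h3, D0_mul h huaj, D0_mul h hui, D0_inv h hu1, hcu, D0_a]
        module
      · rw [(h5 k.succ (Fin.succ_ne_zero k) fun hc => hk (Fin.succ_injective _ hc)).1, D0_a]
        module
    · rw [Rz_f, hσ, T_apply]
      by_cases hk : k = i₀
      · rw [hk, h4, D0_mul h (th0_b h i₀), D0_b, hcu, om_f_e]
        module
      · rw [(h5 k.succ (Fin.succ_ne_zero k) fun hc => hk (Fin.succ_injective _ hc)).2, D0_b,
          om_f_e_ne hk]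
        module
  have hR2 : Rz h ρ = T (e i₀) (-1) := Rz_A h (by rw [hρ]; exact hA)
  refine ⟨σ * ρ, ?_, ?_⟩
  · rw [map_mul, hR, hR2, T_mul, add_neg_cancel, T_zero]
  · change (σ : MulAut G) ((ρ : MulAut G) (b i₀.succ)) = _
    rw [hσ, hρ, hA.1, map_mul, h4, h3, hu]
    group

/-- The block of `θ₀`. -/
noncomputable def Bz : Block a b (th h (f 0)) n := ⟨Rz h, Rz_surj h, Rz_triv h, Rz_lev h⟩

end Pool.Agent.H.MP_59b15d_al.H95T
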