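import Pool.Agent.H.MP_59b15d_al.h95t.IsA
import Pool.Agent.H.MP_59b15d_al.h95t.Rz
import Pool.Agent.H.MP_59b15d_al.h95t.Gm

/-!
# Isolation of the block of the trivial character and of the block of `θ₀`

PROOFS. `iso_one`: `Block.iso` for `B1 h` (`n = g`); a character `≠ 1` exists (`th h (f i)` for an index
`i : Fin g`, e.g. by `dv_of_th`: `f i` is not divisible by 2; note `th h 0 = 1`). Let `θ' ≠ 1`,
`eta_of h θ'` gives `η` with `θ' x = η (cls h x)`, and `η x ≠ 1` for some `x` (else `θ' = 1`).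
`full_of_half`: let `v` be in `Orb`, `η v = -1`, `v = A (f i)`, `A = (B1 h).R ψ`. `hit` with
`τ = TB h i` (in `St a b 1`; `isB_iff`), `B1_B`: `θ' (ψ (b i)) = η (cls h (ψ (b i))) = η (A (f i)) = η v = -1`
(`B1_cls`, `cls_b`).

`orb_base`: `f i₀ ~ f i` by `orb_link` through `e i₀ + e i` if `i ≠ i₀`
(`om (f i₀) (e i₀ + e i) = -1`, `om (e i₀ + e i) (f i) = 1`); `v = A (f i)`.

`eta_zero`: let `w i = (p, q)` with `sg q = θ' (a i.succ)`, `sg p = θ' (b i.succ)` (`p, q ∈ {0, 1}`),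
`η v = sg (om v w)`; `η (e i) = θ' (a i.succ)`, `η (f i) = θ' (b i.succ)`, `η (-v) = η v`. Because of
`η (s • v) = η v` for `s = ±1`, `x ↦ η (D0 h x)` is a homomorphism `θ'' : G →* ℤˣ`, with
`θ'' (a 0) = θ'' (b 0) = 1`. So `θ'` and `θ''` agree on all generators except possibly `a 0`. If
`θ' (a 0) = 1`: `θ' = θ''` (`hom_ext`); otherwise `θ' = θ'' * θ₀`. In both cases `θ' x = η (D0 h x)` if
`θ₀ x = 1`. If `η = 1` then `θ' = 1` or `θ' = θ₀`.

`iso_zero`: `Block.iso` for `Bz h`; `1 ≠ θ₀` (`th0_ne_one`). Let `θ' ≠ θ₀` and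
`U = (Bz h).im (N ⊓ UU a b θ')`; `(Bz h).R = Rz h`. `i₀ : Fin n` the index 0.
 Case `θ' = 1`: let `φ` be as in `exists_gm`. It is in `UU a b 1` (`tor_UU`), so in `St`,
`Rz h φ = T (e i₀) 4` (compare on `D0 h x`, `D0_surj`, `Rz_D0`, `T_apply`), and a power `φ ^ k`, `k > 0`,
is in `N` (`R.exists_pow`): `T (e i₀) (4 * k) ∈ U`. `U` is normal: for `A = Rz h ψ` and `x` in
`N ⊓ UU a b 1`, `ψ * x * ψ⁻¹` is in `N`, in `PP` (`PP_conj`) and `Triv 1` (`Triv.conj`, the trivial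
character is preserved by all `ψ`). `full_of_normal`.
 Case `θ' (b 0) = -1`: let `v` be in `Orb`, `v = A (f i₀)` (`orb_base`), `A = Rz h ψ`; `τ = TB h i₀.succ`
(`B_St`, `Rz_B`). If `θ' (ψ (b i₀.succ)) = -1`: `hit`. Otherwise it is 1; let `χ` be as in `exists_chi`,
`Rz h (ψ * χ) = A`, `(ψ * χ) (b i₀.succ) = ψ (b i₀.succ) * ψ (b 0)`, and
`θ' (ψ (b 0)) = θ' (b 0) = -1` by `st_b0`; `hit` for `ψ * χ`.
 Case `θ' (b 0) = 1`, `θ' ≠ 1`: `eta_zero`, `full_of_half`: `v = A (f i)`, `A = Rz h ψ`, `η v = -1`;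
`b i.succ` has `θ₀ = 1` (`th0_b`), `D0 h (b i.succ) = f i`, and `ψ (b i.succ)` has `θ₀ = 1`, so
`θ' (ψ (b i.succ)) = η (D0 h (ψ (b i.succ))) = η (A (f i)) = η v = -1`; `hit` with `τ = TB h i.succ`.
-/

set_option autoImplicit false

namespace Pool.Agent.H.MP_59b15d_al.H95T

open Pool.MP_59b15d_al.H24T Pool.MP_59b15d_al.H76R
open Pool.Agent.H.MP_59b15d_al.SP

section

variable {G : Type*} [Group G] {g : ℕ} {a b : Fin g → G}

private theorem IsB_mem {i : Fin g} {τ : MulAut G} (hτ : IsB a b i τ) : τ ∈ MCG a b :=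
  Subgroup.subset_closure (Or.inr (Or.inr (Or.inl ⟨i, trivial, hτ⟩)))

theorem iso_one (h : IsSurf a b) (hg : 3 ≤ g) {N : Subgroup (MulAut G)} (hN : Nml a b N)
    (hf : N.relIndex (MCG a b) ≠ 0) : Iso a b N 1 := by
  have i₀ : Fin g := ⟨0, by omega⟩
  refine Block.iso h hg (B1 h) hN ⟨th h (f i₀), fun h0 => ?_⟩ fun θ' hθ' => ?_
  · have h1 := DFunLike.congr_fun h0 (a i₀)
    rw [th_apply, cls_a, om_e_f, sg_one, MonoidHom.one_apply] at h1
    exact absurd h1 (by decide)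
  obtain ⟨η, hη, hηc⟩ := eta_of h θ'
  refine full_of_half hg η hη ?_ ?_
  · by_contra hc
    push Not at hc
    exact hθ' (MonoidHom.ext fun x => (hηc x).trans (hc _))
  · rintro v ⟨A, i, rfl⟩ hv
    obtain ⟨ψ, rfl⟩ := (B1 h).surj A
    have hB : IsB a b i (TB h i) := (isB_iff h i _).2 rfl
    have hm : TB h i ∈ St a b 1 := ⟨IsB_mem hB, fun x => rfl⟩
    refine hit h (B1 h) hf (τ := ⟨TB h i, hm⟩) hB (B1_B h hB) ψ ?_
    rw [hηc, ← B1_cls, cls_b]
    exact hv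

end

section

variable {G : Type*} [Group G] {n : ℕ} {a b : Fin (n + 1) → G}

theorem orb_base {v : V n} (hv : Orb v) (i₀ : Fin n) : ∃ A : Sp n, A (f i₀) = v := by
  obtain ⟨A, i, rfl⟩ := hv
  by_cases hi : i = i₀
  · subst hi
    exact ⟨A, rfl⟩
  · obtain ⟨B, hB⟩ := orb_link (x := f i₀) (y := e i₀ + e i) (Or.inr (by
      rw [om_add_right, om_f_e, om_f_e_ne (Ne.symm hi), add_zero]))
    obtain ⟨C, hC⟩ := orb_link (x := e i₀ + e i) (y := f i) (Or.inl (by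
      rw [om_add_left, om_e_f, om_e_f_ne (Ne.symm hi), zero_add]))
    refine ⟨A * (C * B), ?_⟩
    rw [sp_mul, sp_mul, hB, hC]

private theorem IsB_bit (u : ℤˣ) : ∃ n : ℤ, sg n = u := by
  rcases Int.units_eq_one_or u with h | h
  · exact ⟨0, h ▸ sg_zero⟩
  · exact ⟨1, h ▸ sg_one⟩

private theorem IsB_sg_neg (m : ℤ) : sg (-m) = sg m := by
  have h1 := sg_add (-m) m
  rw [neg_add_cancel, sg_zero] at h1
  have h2 : sg m * sg m = 1 := Int.units_mul_self _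
  exact mul_right_cancel (h1.symm.trans h2.symm)

theorem eta_zero (h : IsSurf a b) {θ' : G →* ℤˣ} (h1 : θ' ≠ 1) (h2 : θ' ≠ th h (f 0))
    (h3 : θ' (b 0) = 1) : ∃ η : V n → ℤˣ, (∀ x y, η (x + y) = η x * η y) ∧ (∃ x, η x ≠ 1) ∧
      ∀ x, th h (f 0) x = 1 → θ' x = η (D0 h x) := by
  choose p hp using fun i : Fin n => IsB_bit (θ' (a i.succ))
  choose q hq using fun i : Fin n => IsB_bit (θ' (b i.succ))
  obtain ⟨w, hw⟩ : ∃ w : V n, w = fun i => (-(q i), p i) := ⟨_, rfl⟩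
  have hadd : ∀ x y : V n, sg (om (x + y) w) = sg (om x w) * sg (om y w) := by
    intro x y
    rw [om_add_left, sg_add]
  have hsm : ∀ (s : ℤˣ) (x : V n), sg (om ((s : ℤ) • x) w) = sg (om x w) := by
    intro s x
    rcases Int.units_eq_one_or s with hs | hs
    · rw [hs, Units.val_one, one_smul]
    · rw [hs, Units.val_neg, Units.val_one, neg_one_smul, om_neg_left, IsB_sg_neg]
  let θ₁ : G →* ℤˣ :=
    { toFun := fun x => sg (om (D0 h x) w)
      map_one' := by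
        rw [(D0_der h).one', om_zero_left, sg_zero]
      map_mul' := by
        intro x y
        rw [D0_der h x y, hadd, hsm] }
  have hθ₁ : ∀ x, θ₁ x = sg (om (D0 h x) w) := fun _ => rfl
  have ka0 : θ₁ (a 0) = 1 := by rw [hθ₁, D0_a0, om_zero_left, sg_zero]
  have kb0 : θ₁ (b 0) = 1 := by rw [hθ₁, D0_b0, om_zero_left, sg_zero]
  have ka : ∀ i : Fin n, θ₁ (a i.succ) = θ' (a i.succ) := by
    intro i
    rw [hθ₁, D0_a, om_e', ← hp i, hw]
  have kb : ∀ i : Fin n, θ₁ (b i.succ) = θ' (b i.succ) := by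
    intro i
    rw [hθ₁, D0_b, om_f', ← hq i, hw]
    congr 1
    exact neg_neg _
  have key : θ' = θ₁ ∨ θ' = θ₁ * th h (f 0) := by
    by_cases h4 : θ' (a 0) = -1
    · right
      refine hom_ext h (fun i => ?_) fun i => ?_
      · refine Fin.cases ?_ (fun j => ?_) i
        · rw [MonoidHom.mul_apply, ka0, th0_a0, h4, one_mul]
        · rw [MonoidHom.mul_apply, ka, th0_a, mul_one]
      · refine Fin.cases ?_ (fun j => ?_) i
        · rw [MonoidHom.mul_apply, kb0, th0_b0, h3, one_mul]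
        · rw [MonoidHom.mul_apply, kb, th0_b, mul_one]
    · left
      replace h4 := units_ne h4
      refine hom_ext h (fun i => ?_) fun i => ?_
      · refine Fin.cases ?_ (fun j => ?_) i
        · rw [ka0, h4]
        · rw [ka]
      · refine Fin.cases ?_ (fun j => ?_) i
        · rw [kb0, h3]
        · rw [kb]
  refine ⟨fun v => sg (om v w), hadd, ?_, fun x hx => ?_⟩
  · by_contra hc
    push Not at hc
    have h5 : θ₁ = 1 := MonoidHom.ext fun x => hc _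
    rcases key with k | k
    · exact h1 (k.trans h5)
    · rw [h5, one_mul] at k
      exact h2 k
  · rcases key with k | k
    · rw [k, hθ₁]
    · rw [k, MonoidHom.mul_apply, hx, mul_one, hθ₁]

theorem iso_zero (h : IsSurf a b) (hn : 3 ≤ n) {N : Subgroup (MulAut G)} (hN : Nml a b N)
    (hf : N.relIndex (MCG a b) ≠ 0) : Iso a b N (th h (f 0)) := by
  obtain ⟨i₀, hi₀⟩ : ∃ i₀ : Fin n, (i₀ : ℕ) = 0 := ⟨⟨0, by omega⟩, rfl⟩
  refine Block.iso h hn (Bz h) hN ⟨1, (th0_ne_one h).symm⟩ fun θ' hθ' => ?_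
  by_cases h1 : θ' = 1
  · subst h1
    obtain ⟨φ, hφM, hφc, hφD⟩ := exists_gm h hi₀
    have hU := tor_UU h hφM hφc
    have hS : φ ∈ St a b (th h (f 0)) := ⟨hφM, hU.1.2 _⟩
    have hT : Rz h ⟨φ, hS⟩ = T (e i₀) 4 := by
      refine sp_ext fun v => ?_
      obtain ⟨x, hx, rfl⟩ := D0_surj h v
      rw [Rz_D0 h _ hx, T_apply]
      exact hφD x hx
    obtain ⟨k, hk, hpow⟩ := R.exists_pow hf
    have hnor : ((Bz h).im (N ⊓ UU a b 1)).Normal := by
      refine ⟨?_⟩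
      rintro _ ⟨x, hx, rfl⟩ A
      obtain ⟨ψ, rfl⟩ := (Bz h).surj A
      refine ⟨ψ * x * ψ⁻¹, ⟨?_, ?_, ?_⟩, ?_⟩
      · exact hN _ ψ.2.1 _ hx.1
      · exact PP_conj ψ.2.1 hx.2.1
      · exact Triv.conj (θ := 1) (θ' := 1) hx.2.2 fun _ => rfl
      · rw [map_mul, map_mul, map_inv]
    refine full_of_normal hnor (m := 4 * k) (by positivity) (i := i₀) ?_
    refine ⟨⟨φ, hS⟩ ^ k, ⟨?_, ?_⟩, ?_⟩
    · exact hpow _ hφM
    · exact (UU a b 1).pow_mem hU k
    · rw [map_pow]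
      change (Rz h ⟨φ, hS⟩) ^ k = _
      rw [hT, ← zpow_natCast, T_zpow]
  · by_cases h3 : θ' (b 0) = -1
    · intro v hv
      obtain ⟨A, hA⟩ := orb_base hv i₀
      obtain ⟨ψ, rfl⟩ := Rz_surj h A
      have hB : IsB a b i₀.succ (TB h i₀.succ) := (isB_iff h _ _).2 rfl
      by_cases h4 : θ' ((ψ : MulAut G) (b i₀.succ)) = -1
      · have h5 := hit h (Bz h) hf (τ := ⟨TB h i₀.succ, B_St h hB⟩) hB
          (Rz_B h (φ := ⟨TB h i₀.succ, B_St h hB⟩) hB) ψ h4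
        change ∃ m : ℤ, m ≠ 0 ∧ T (Rz h ψ (f i₀)) m ∈ _ at h5
        rw [hA] at h5
        exact h5
      · replace h4 := units_ne h4
        obtain ⟨χ, hχ1, hχ2⟩ := exists_chi h hi₀
        have h6 : θ' (((ψ * χ : St a b (th h (f 0))) : MulAut G) (b i₀.succ)) = -1 := by
          change θ' ((ψ : MulAut G) ((χ : MulAut G) (b i₀.succ))) = -1
          rw [hχ2, map_mul, map_mul, h4, st_b0 h ψ.2, h3, one_mul]
        have h5 := hit h (Bz h) hf (τ := ⟨TB h i₀.succ, B_St h hB⟩) hB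
          (Rz_B h (φ := ⟨TB h i₀.succ, B_St h hB⟩) hB) (ψ * χ) h6
        change ∃ m : ℤ, m ≠ 0 ∧ T (Rz h (ψ * χ) (f i₀)) m ∈ _ at h5
        rw [map_mul, hχ1, mul_one, hA] at h5
        exact h5
    · replace h3 := units_ne h3
      obtain ⟨η, hη, hne, hηD⟩ := eta_zero h h1 hθ' h3
      refine full_of_half hn η hη hne ?_
      rintro v ⟨A, i, rfl⟩ hv
      obtain ⟨ψ, rfl⟩ := Rz_surj h A
      have hB : IsB a b i.succ (TB h i.succ) := (isB_iff h _ _).2 rfl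
      refine hit h (Bz h) hf (τ := ⟨TB h i.succ, B_St h hB⟩) hB
        (Rz_B h (φ := ⟨TB h i.succ, B_St h hB⟩) hB) ψ ?_
      have h5 : th h (f 0) ((ψ : MulAut G) (b i.succ)) = 1 := (ψ.2.2 _).trans (th0_b h i)
      rw [hηD _ h5, ← Rz_D0 h ψ (th0_b h i), D0_b]
      exact hv

end

end Pool.Agent.H.MP_59b15d_al.H95T
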