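import Pool.Agent.H.MP_59b15d_al.h95t.IsB

/-!
# Isolation of all blocks

PROOFS. `Iso.conj`: `m` the same. Let `φ` be in `PP`, `TrivN m θ φ`. `φ' = ψ⁻¹ * φ * ψ` is in `PP`
(`PP_conj`) and `TrivN m θ' φ'`: for a crossed homomorphism `c` for `θ'` the map `x ↦ c (ψ⁻¹ x)` is one
for `θ` (`IsDer.comp`, `θ' (ψ⁻¹ x) = θ x`); for `θ' y = 1` put `x = ψ y`: `c (φ' y) - c y =
c (ψ⁻¹ (φ x)) - c (ψ⁻¹ x)`. So there is `x'` in `N`, in `PP`, `Triv θ'' x'` for `θ'' ≠ θ'`,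
`Triv θ' (x'⁻¹ * φ')`. Take `x = ψ * x' * ψ⁻¹`: in `N` (`hN`), in `PP`; for `θ'' ≠ θ`,
`θ'' ∘ ψ ≠ θ ∘ ψ = θ'`, so `Triv (θ'' ∘ ψ) x'`, and `Triv θ'' x` by `Triv.conj`; and
`x⁻¹ * φ = ψ * (x'⁻¹ * φ') * ψ⁻¹`, `Triv θ` by `Triv.conj`.
`iso_all`: `θ = 1`: `iso_one`. Otherwise `exists_trans` and `Iso.conj` from `iso_zero`
(`g = n + 1`).
`split`: the characters form a finite set (`finite_char`); choose `m θ ≠ 0` from `iso_all`; `m` = the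
product of all `m θ` (`TrivN m θ φ → TrivN (m θ) θ φ` as `m θ ∣ m`). Let `φ` be in `MCG` with
`TrivN m θ φ` for all `θ`; it is in `PP`. For each finite set `S` of characters there is `x` in `N`, in
`PP`, with `Triv θ x` for `θ ∉ S` and `Triv θ (x⁻¹ * φ)` for `θ ∈ S`: `S = ∅`: `x = 1`. `S ∪ {θ}`,
`θ ∉ S`: let `x` be the element for `S` and `y` the element given by `Iso a b N θ` for `φ`:
`y ∈ N`, `Triv θ' y` for `θ' ≠ θ`, `Triv θ (y⁻¹ * φ)`. Take `x * y`: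
for `θ' ∉ S ∪ {θ}`, `Triv θ' (x * y)`; for `θ' ∈ S`: `(x * y)⁻¹ * φ = y⁻¹ * (x⁻¹ * φ)`, both factors
are `Triv θ'`; for `θ`: `(x * y)⁻¹ * φ = (y⁻¹ * x⁻¹ * y) * (y⁻¹ * φ)`; `Triv θ x` (as `θ ∉ S`), and
`y⁻¹ * x⁻¹ * y` is `Triv θ` by `Triv.conj` (`y` is in `PP`).
-/

set_option autoImplicit false

namespace Pool.Agent.H.MP_59b15d_al.H95T

open Pool.MP_59b15d_al.H24T Pool.MP_59b15d_al.H76R
open Pool.Agent.H.MP_59b15d_al.SP

variable {G : Type*} [Group G] {g : ℕ} {a b : Fin g → G}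

theorem Iso.conj {N : Subgroup (MulAut G)} (hN : Nml a b N) {θ θ' : G →* ℤˣ} {ψ : MulAut G}
    (hψ : ψ ∈ MCG a b) (h1 : ∀ x, θ (ψ x) = θ' x) (h2 : Iso a b N θ') : Iso a b N θ := by
  obtain ⟨m, hm, H⟩ := h2
  have hinv : ∀ y, θ' (ψ⁻¹ y) = θ y := by
    intro y
    rw [← h1, MulAut.apply_inv_self]
  refine ⟨m, hm, fun φ hφ hT => ?_⟩
  have hφ' : ψ⁻¹ * φ * ψ ∈ PP a b := by
    have h3 := PP_conj ((MCG a b).inv_mem hψ) hφ
    rwa [inv_inv] at h3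
  have hT' : TrivN m θ' (ψ⁻¹ * φ * ψ) := by
    refine ⟨hφ'.2 θ', fun c hc x hx => ?_⟩
    have h3 := hT.2 _ (hc.comp hinv) (ψ x) ((h1 x).trans hx)
    change m ∣ c (ψ⁻¹ (φ (ψ x))) - c (ψ⁻¹ (ψ x)) at h3
    rw [MulAut.inv_apply_self] at h3
    exact h3
  obtain ⟨x', hx1, hx2, hx3, hx4⟩ := H _ hφ' hT'
  refine ⟨ψ * x' * ψ⁻¹, hN ψ hψ x' hx1, PP_conj hψ hx2, fun θ'' hne => ?_, ?_⟩
  · have hne' : θ''.comp ψ.toMonoidHom ≠ θ' := by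
      intro he
      apply hne
      ext1 y
      have h3 : θ'' (ψ (ψ⁻¹ y)) = θ' (ψ⁻¹ y) := by
        rw [← he]
        rfl
      rw [MulAut.apply_inv_self, hinv] at h3
      exact h3
    exact (hx3 _ hne').conj fun x => rfl
  · have h3 : (ψ * x' * ψ⁻¹)⁻¹ * φ = ψ * (x'⁻¹ * (ψ⁻¹ * φ * ψ)) * ψ⁻¹ := by group
    rw [h3]
    exact hx4.conj h1

theorem iso_all (h : IsSurf a b) (hg : 4 ≤ g) {N : Subgroup (MulAut G)} (hN : Nml a b N)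
    (hf : N.relIndex (MCG a b) ≠ 0) (θ : G →* ℤˣ) : Iso a b N θ := by
  by_cases h1 : θ = 1
  · rw [h1]
    exact iso_one h (by omega) hN hf
  · obtain ⟨n, rfl⟩ : ∃ n, g = n + 1 := ⟨g - 1, by omega⟩
    obtain ⟨ψ, hψ, h2⟩ := exists_trans h θ h1
    exact Iso.conj hN hψ h2 (iso_zero h (by omega) hN hf)

theorem split (h : IsSurf a b) (hg : 4 ≤ g) {N : Subgroup (MulAut G)} (hN : Nml a b N)
    (hf : N.relIndex (MCG a b) ≠ 0) : ∃ m : ℤ, m ≠ 0 ∧ ∀ φ ∈ MCG a b, (∀ θ, TrivN m θ φ) →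
      ∃ x ∈ N, x ∈ MCG a b ∧ ∀ θ, Triv θ (x⁻¹ * φ) := by
  classical
  have hfin : Finite (G →* ℤˣ) := finite_char h
  have : Fintype (G →* ℤˣ) := Fintype.ofFinite _
  choose m hm0 hm using fun θ => iso_all h hg hN hf θ
  refine ⟨∏ θ, m θ, Finset.prod_ne_zero_iff.2 fun θ _ => hm0 θ, fun φ hφ hT => ?_⟩
  have hPP : φ ∈ PP a b := ⟨hφ, fun θ => (hT θ).1⟩
  have hTm : ∀ θ, TrivN (m θ) θ φ := fun θ =>
    ⟨(hT θ).1, fun c hc x hx =>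
      (Finset.dvd_prod_of_mem m (Finset.mem_univ θ)).trans ((hT θ).2 c hc x hx)⟩
  have key : ∀ S : Finset (G →* ℤˣ), ∃ x ∈ N, x ∈ PP a b ∧ (∀ θ, θ ∉ S → Triv θ x) ∧
      ∀ θ ∈ S, Triv θ (x⁻¹ * φ) := by
    intro S
    induction S using Finset.induction_on with
    | empty =>
      exact ⟨1, N.one_mem, (PP a b).one_mem, fun θ _ => Triv.one θ,
        fun θ hθ => absurd hθ (Finset.notMem_empty θ)⟩
    | insert θ S hθ ih =>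
      obtain ⟨x, x1, x2, x3, x4⟩ := ih
      obtain ⟨y, y1, y2, y3, y4⟩ := hm θ φ hPP (hTm θ)
      refine ⟨x * y, N.mul_mem x1 y1, (PP a b).mul_mem x2 y2, fun θ' h' => ?_, fun θ' h' => ?_⟩
      · rw [Finset.mem_insert, not_or] at h'
        exact (x3 θ' h'.2).mul (y3 θ' h'.1)
      · rw [Finset.mem_insert] at h'
        rcases h' with h' | h'
        · subst h'
          have e1 : (x * y)⁻¹ * φ = (y⁻¹ * x⁻¹ * y⁻¹⁻¹) * (y⁻¹ * φ) := by group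
          rw [e1]
          exact ((x3 θ' hθ).inv.conj (y2.2 θ').inv).mul y4
        · have hne : θ' ≠ θ := fun he => hθ (he ▸ h')
          have e1 : (x * y)⁻¹ * φ = y⁻¹ * (x⁻¹ * φ) := by group
          rw [e1]
          exact (y3 θ' hne).inv.mul (x4 θ' h')
  obtain ⟨x, x1, x2, -, x4⟩ := key Finset.univ
  exact ⟨x, x1, x2.1, fun θ => x4 θ (Finset.mem_univ θ)⟩

end Pool.Agent.H.MP_59b15d_al.H95T
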