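import Pool.Agent.H.MP_59b15d_al.h95t.Ea
import Pool.Agent.H.MP_59b15d_al.h95t.Ch
import Pool.Agent.H.MP_59b15d_al.h78e.Ab

/-!
# `KK G` is generated by the squares
-/

set_option autoImplicit false

namespace Pool.Agent.H.MP_59b15d_al.H95T

open Pool.MP_59b15d_al.H24T Pool.MP_59b15d_al.H76R Pool.MP_59b15d_al.H76
open Pool.Agent.H.MP_59b15d_al.SP
open scoped commutatorElement

variable {G : Type*} [Group G] {g : ℕ} {a b : Fin g → G}

/-- The subgroup generated by the squares contains the commutators. -/
theorem comm_sq {x : G} (hx : x ∈ commutator G) :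
    x ∈ Subgroup.closure (Set.range fun x : G => x ^ 2) := by
  have h1 : commutator G ≤ Subgroup.closure (Set.range fun x : G => x ^ 2) := by
    rw [commutator_eq_closure, Subgroup.closure_le]
    rintro _ ⟨x, y, rfl⟩
    have e1 : ⁅x, y⁆ = x ^ 2 * (x⁻¹ * y) ^ 2 * (y⁻¹) ^ 2 := by
      rw [commutatorElement_def]
      simp only [pow_two]
      group
    rw [e1]
    exact Subgroup.mul_mem _ (Subgroup.mul_mem _ (Subgroup.subset_closure ⟨x, rfl⟩)
      (Subgroup.subset_closure ⟨_, rfl⟩)) (Subgroup.subset_closure ⟨_, rfl⟩)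
  exact h1 hx

theorem KK_eq (h : IsSurf a b) : KK G = Subgroup.closure (Set.range fun x : G => x ^ 2) := by
  apply le_antisymm
  · intro x hx
    rw [mem_KK] at hx
    have h1 : th h (cls h x) = th h (cls h x) := rfl
    -- the class of `x` is divisible by 2
    have h2 : Dv 2 (cls h x) := by
      have h3 : ∀ w : V g, (2 : ℤ) ∣ om (cls h x) w := fun w => even_of_sg (hx (th h w))
      choose p hp using fun i => h3 (f i)
      choose q hq using fun i => h3 (e i)
      refine ⟨fun i => (p i, -q i), ?_⟩
      funext i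
      have e1 := hp i
      have e2 := hq i
      rw [om_f] at e1
      rw [om_e] at e2
      refine Prod.ext ?_ ?_
      · change (cls h x i).1 = 2 * p i
        exact e1
      · change (cls h x i).2 = 2 * -q i
        linarith
    obtain ⟨v, hv⟩ := h2
    obtain ⟨z, hz⟩ := cls_surj h v
    have h3 : x * (z ^ 2)⁻¹ ∈ commutator G := by
      apply H78E.comm_of_cls h
      rw [cls_mul, cls_inv, pow_two, cls_mul, hz, hv]
      module
    have h4 := Subgroup.mul_mem _ (comm_sq h3)
      (Subgroup.subset_closure (k := Set.range fun x : G => x ^ 2) ⟨z, rfl⟩)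
    simpa using h4
  · rw [Subgroup.closure_le]
    rintro _ ⟨x, rfl⟩
    change x ^ 2 ∈ KK G
    rw [mem_KK]
    intro θ
    rw [map_pow]
    rcases Int.units_eq_one_or (θ x) with h1 | h1 <;> rw [h1] <;> rfl

end Pool.Agent.H.MP_59b15d_al.H95T
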