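import Pool.Agent.H.MP_59b15d_al.h95t.Fin
import Pool.Agent.H.MP_59b15d_al.h95t.Sq

/-!
# The theorem for all subgroups of finite index
-/

set_option autoImplicit false

namespace Pool.Agent.H.MP_59b15d_al.H95T

open Pool.MP_59b15d_al.H24T Pool.MP_59b15d_al.H76R Pool.MP_59b15d_al.H76
open Pool.Agent.H.MP_59b15d_al.SP

/-- A decreasing sequence of subgroups of finite index which contain a fixed subgroup of finite
index is eventually constant. -/
theorem stab {A : Type*} [Group A] {N M : Subgroup A} (hf : N.relIndex M ≠ 0)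
    (U : ℕ → Subgroup A) (hN : ∀ k, N ≤ U k) (hM : ∀ k, U k ≤ M) (hd : ∀ k, U (k + 1) ≤ U k) :
    ∃ k₀, ∀ k, U k₀ ≤ U k := by
  have hanti : ∀ k l, k ≤ l → U l ≤ U k := by
    intro k l hkl
    induction l, hkl using Nat.le_induction with
    | base => exact le_refl _
    | succ l _ ih => exact (hd l).trans ih
  have hbd : ∀ k, (U k).relIndex M ≤ N.relIndex M := fun k =>
    Nat.le_of_dvd (Nat.pos_of_ne_zero hf) (Subgroup.relIndex_dvd_of_le_left M (hN k))
  have hne : ∀ k, (U k).relIndex M ≠ 0 := fun k h0 =>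
    hf (Nat.eq_zero_of_zero_dvd (h0 ▸ Subgroup.relIndex_dvd_of_le_left M (hN k)))
  -- an index with maximal relative index
  obtain ⟨k₀, hk₀⟩ : ∃ k₀, ∀ k, (U k).relIndex M ≤ (U k₀).relIndex M := by
    by_contra hcon
    push Not at hcon
    have h1 : ∀ n : ℕ, ∃ k, n ≤ (U k).relIndex M := by
      intro n
      induction n with
      | zero => exact ⟨0, Nat.zero_le _⟩
      | succ n ih =>
        obtain ⟨k, hk⟩ := ih
        obtain ⟨l, hl⟩ := hcon k
        exact ⟨l, by omega⟩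
    obtain ⟨k, hk⟩ := h1 (N.relIndex M + 1)
    have := hbd k
    omega
  refine ⟨k₀, fun k => ?_⟩
  rcases le_total k k₀ with h1 | h1
  · exact hanti k k₀ h1
  · have h2 := Subgroup.relIndex_mul_relIndex (U k) (U k₀) M (hanti k₀ k h1) (hM k₀)
    have h3 := hk₀ k
    have h4 := Nat.pos_of_ne_zero (hne k₀)
    have h5 := Nat.pos_of_ne_zero (hne k)
    have h6 : (U k).relIndex (U k₀) = 1 := by
      rcases Nat.lt_or_ge 1 ((U k).relIndex (U k₀)) with h7 | h7
      · nlinarith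
      · rcases Nat.eq_zero_or_pos ((U k).relIndex (U k₀)) with h8 | h8
        · rw [h8, zero_mul] at h2
          omega
        · omega
    exact Subgroup.relIndex_eq_one.1 h6

variable {G : Type*} [Group G] {g : ℕ} {a b : Fin g → G}

/-- Every subgroup of finite index, modulo arbitrarily deep terms of the filtration. -/
theorem main_all (h : IsSurf a b) (hg : 4 ≤ g) (H : Subgroup (MulAut G))
    (hH : H.relIndex (MCG a b) ≠ 0) :
    ∃ Γ : Subgroup G, Γ.Characteristic ∧ Γ.FiniteIndex ∧ ∀ k : ℕ,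
      (∀ φ ∈ MCG a b, (∀ x, φ x * x⁻¹ ∈ Γ) → ∃ ψ ∈ MCG a b,
        (∀ x, ψ x * x⁻¹ ∈ (KK G).lowerCentralSeries k) ∧ φ * ψ⁻¹ ∈ H) ∧
      ((∀ x : G, MulAut.conj x ∈ H) → ∀ φ ∈ MCG a b, InnMod Γ φ → ∃ ψ ∈ MCG a b,
        (∀ x, ψ x * x⁻¹ ∈ (KK G).lowerCentralSeries k) ∧ φ * ψ⁻¹ ∈ H) := by
  have hKc : (KK G).Characteristic := KK_char
  -- the core
  have hfin : (H.subgroupOf (MCG a b)).FiniteIndex := ⟨hH⟩
  obtain ⟨P, hP⟩ : ∃ P, P = (H.subgroupOf (MCG a b)).normalCore := ⟨_, rfl⟩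
  have hPn : P.Normal := by rw [hP]; infer_instance
  have hPf : P.FiniteIndex := by rw [hP]; infer_instance
  have hPH : ∀ x ∈ P, (x : MulAut G) ∈ H := by
    intro x hx
    rw [hP] at hx
    have h1 := Subgroup.normalCore_le (H.subgroupOf (MCG a b)) hx
    exact h1
  -- the filtration, as normal subgroups of `MCG`
  let J : ℕ → Subgroup (MCG a b) := fun k =>
    (trivMod ((KK G).lowerCentralSeries k)).subgroupOf (MCG a b)
  have hJc : ∀ k, ((KK G).lowerCentralSeries k).Characteristic := fun k => inferInstance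
  have hJn : ∀ k, (J k).Normal := by
    intro k
    have := trivMod_normal (hJc k)
    exact inferInstance
  have hJd : ∀ k, J (k + 1) ≤ J k := by
    intro k x hx
    refine trivMod_mono ?_ hx
    have hn : (KK G).Normal := inferInstance
    have h1 := R.lc_succ_le (KK G) k
    rw [lc_eq, lc_eq] at h1
    exact h1
  obtain ⟨k₀, hk₀⟩ := stab (N := P) (M := ⊤) (by
    rw [Subgroup.relIndex_top_right]
    exact hPf.index_ne_zero) (fun k => P ⊔ J k) (fun k => le_sup_left) (fun k => le_top)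
    (fun k => sup_le_sup_left (hJd k) P)
  -- the theorem for `P ⊔ J k₀`
  obtain ⟨Γ, hc, hf, h1, -⟩ := main h hg k₀ ((P ⊔ J k₀).map (MCG a b).subtype)
    (by
      have e1 : ((P ⊔ J k₀).map (MCG a b).subtype).subgroupOf (MCG a b) = P ⊔ J k₀ :=
        Subgroup.comap_map_eq_self_of_injective (MCG a b).subtype_injective _
      rw [Subgroup.relIndex, e1]
      exact (Subgroup.finiteIndex_of_le (H := P) (K := P ⊔ J k₀) le_sup_left).index_ne_zero)
    (fun φ hφ h2 => ⟨⟨φ, hφ⟩, Subgroup.mem_sup_right h2, rfl⟩)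
  have key : ∀ k, ∀ φ ∈ MCG a b, (∀ x, φ x * x⁻¹ ∈ Γ) → ∃ ψ ∈ MCG a b,
      (∀ x, ψ x * x⁻¹ ∈ (KK G).lowerCentralSeries k) ∧ φ * ψ⁻¹ ∈ H := by
    intro k φ hφ h2
    obtain ⟨y, hy, hyφ⟩ := h1 φ hφ h2
    have h3 : y ∈ P ⊔ J k := hk₀ k hy
    have hn := hJn k
    rw [Subgroup.mem_sup_of_normal_right] at h3
    obtain ⟨p, hp, j, hj, hpj⟩ := h3
    refine ⟨j, j.2, hj, ?_⟩
    have h4 : φ = (p : MulAut G) * j := by
      rw [← hyφ, ← hpj]
      rfl
    rw [h4, mul_inv_cancel_right]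
    exact hPH p hp
  refine ⟨Γ, hc, hf, fun k => ⟨key k, fun hI φ hφ hi => ?_⟩⟩
  have hn : Γ.Normal := inferInstance
  obtain ⟨x, hx⟩ := (innMod_iff hn).1 hi
  have hM : MulAut.conj x ∈ MCG a b := Subgroup.subset_closure (Or.inl ⟨x, rfl⟩)
  obtain ⟨ψ, hψ, h2, h3⟩ := key k _ ((MCG a b).mul_mem ((MCG a b).inv_mem hM) hφ) hx
  refine ⟨ψ, hψ, h2, ?_⟩
  have h4 := H.mul_mem (hI x) h3
  have e1 : MulAut.conj x * ((MulAut.conj x)⁻¹ * φ * ψ⁻¹) = φ * ψ⁻¹ := by group
  rwa [e1] at h4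

end Pool.Agent.H.MP_59b15d_al.H95T
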