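import Pool.Agent.H.MP_59b15d_al.h95t.Defs
import Pool.Agent.H.MP_59b15d_al.sp.Main

/-!
# Full subgroups of Sp(2n, Z)

Everything in this file is elementary linear algebra in `V n` with the form `om` (file sp/Base.lean:
`T_apply`, `S_apply`, `T_conj`, `T_mul`, `T_zpow`, `om_*`, `sp_*`, `expand`; file sp/Main.lean:
`cg_mem`; `kills_all` in sp/).

PROOFS.
`orb_link`: if `om x y = s = ±1`, `A = T (y - x) s`: `A x = x + s * om x (y - x) • (y - x) = y`.
`Orb.step`: compose. `Orb.map`: compose. `orb_f`: `A = 1`. `orb_e`: step from `f i`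
(`om (f i) (e i) = -1`). `Orb.neg`: `v = A (f i)`, so `om (A (e i)) v = 1`, `A (e i)` is in `Orb`
(map of `orb_e`), and `om (A (e i)) (-v) = -1`, step.

`comm_S`: `om v w = 0`, `om v w' = 0`: for `P = S v w s`, `Q = S v w' t`:
`P * Q * P⁻¹ * Q⁻¹ = T v (-2 * s * t * om w w')`. Proof: show `P * Q = T v (..) * (Q * P)` by
`sp_ext`, `S_apply`, `T_apply`, then `module` (write `om w' w = - om w w'`).

`S_of_T`: `om v w = 0`: `T (v + w) M * T (v - w) (-M) = S v w (2 * M)` (apply to `x`; the two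
transvections: `om (v - w) (v + w) = 0`).

`core`: let `U, U'` be subgroups, `v w w'` with `om v w = 0`, `om v w' = 0`, `om w w' = 1 or -1`,
nonzero powers of the transvections along `v + w, v - w` in `U`, along `v + w', v - w'` in `U'`.
Take common multiples (`T_zpow`): `S v w (2 M)` in `U`, `S v w' (2 M')` in `U'`, `M, M' ≠ 0`.
If all commutators `x * y * x⁻¹ * y⁻¹` (`x` in `U`, `y` in `U'`) are in `W`, then
`T v (-2 * (2 M) * (2 M') * om w w')` is in `W`, and this integer is not 0.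

`Full.comb`: `v = A (f i)`, choose `j ≠ i` (`2 ≤ n`), `w = A (e j)`, `w' = A (f j)`. The vectors
`v ± w`, `v ± w'` are in `Orb`: `om (A (e i)) (v ± w) = 1`, `Orb.step`. Apply `core`.

`full_of_half`: Let `v` be in `Orb`. If `η v = -1`: `hU`. Otherwise `η v = 1`.
 FACT 1 (`half1`): if `v, w, w'` are as in `core` (`om w w' = 1`), `η v = 1`, `η w = -1`, `η w' = -1`
and `v ± w`, `v ± w'` in `Orb`, then some `T v m`, `m ≠ 0`, is in `U`: by `core` with
`U = U' = W`, because `η (v ± w) = -1` (note `η (-x) = η x`, since `η x * η x = 1`).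
 `v = A (f i)`.
 Case 1: some `j ≠ i` has `η (A (e j)) = -1` or `η (A (f j)) = -1`. Choose
`w = A (e j)` if `η (A (e j)) = -1`, otherwise `w = A (e j + f j)`;
`w' = A (f j)` if `η (A (f j)) = -1`, otherwise `w' = A (e j + f j)`. (In the case both are not -1
nothing to do; in the three remaining cases `om w w'` is 1.) `v ± w`, `v ± w'` are in `Orb` since
`om (A (e i)) _ = 1`. FACT 1.
 Case 2: `η (A (e j)) = η (A (f j)) = 1` for all `j ≠ i`. Then `η (A (e i)) = -1`, as otherwise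
`η = 1` (`expand (A⁻¹ x)`; `η` of an integer multiple is a power of `η`; induction over the finite
sum). Take `j ≠ i` and `l ≠ i, j` (`3 ≤ n`). For `s = ±1` put `v₁ = A (f i + s • e j)` and
`y = A (e i + s • f j)`: `om v₁ y = -1 + 1 = 0` (`s * s = 1`), `η v₁ = 1`, `η y = -1`. With
`w₁ = y + A (e l)`, `w₁' = y + A (f l)`: `om v₁ w₁ = 0 = om v₁ w₁'`, `om w₁ w₁' = 1`,
`η w₁ = η w₁' = -1`; `v₁ ± w₁` is in `Orb` since its product with `A (f l)` is `±1`, `v₁ ± w₁'`
since its product with `A (e l)` is `±1`. By FACT 1 some `T v₁ m` is in `U`, `m ≠ 0`. The same for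
`A (f i + s • f j)` (with `y = A (e i - s • e j)`: `om (f i + s f j) (e i - s e j) = -1 + 1 = 0`).
So nonzero powers of the transvections along `v ± A (e j)` and `v ± A (f j)` are in `U`;
`core` with `w = A (e j)`, `w' = A (f j)`, `U = U' = W`.

`full_of_normal`: `kills_all` (as in the proof of `cg_mem`) gives `T v m ∈ U` for all `v`.
`Full.cg`: `orb_e`, `cg_mem`.

`orb_mod2`: let `w'` have the coordinates of `w` modulo 2, in `{0, 1}`; `Dv 2 (w' - w)`; `w' ≠ 0`.
Show `∃ A, A (f i₀) = w'`. If some `i ≠ i₀` has `w' i ≠ 0`: with `t = (w' i₀).2`, `z = e i₀ + (t - 1) •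
f i` if `(w' i).1 = 1`, and `z = e i₀ + (1 - t) • e i` if `(w' i).1 = 0`, `(w' i).2 = 1`; then
`om (f i₀) z = -1`, `om z w' = 1`; `orb_link` twice. Otherwise `w'` is supported at `i₀`: if
`w' i₀ = (0, 1)` it is `f i₀`; if `w' i₀ = (1, q)`, `om (f i₀) w' = -1`, `orb_link`.
-/

set_option autoImplicit false

namespace Pool.Agent.H.MP_59b15d_al.H95T

open Pool.Agent.H.MP_59b15d_al.SP

variable {n : ℕ}


private lemma cs (u v : V n) (h : om u v = 0) : om v u = 0 := by rw [om_swap, h]; rfl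

theorem orb_link {x y : V n} (h : om x y = 1 ∨ om x y = -1) : ∃ A : Sp n, A x = y := by
  rcases h with h | h
  · refine ⟨T (y - x) 1, ?_⟩
    rw [T_apply, om_sub_right, om_self, h]
    module
  · refine ⟨T (y - x) (-1), ?_⟩
    rw [T_apply, om_sub_right, om_self, h]
    module

theorem Orb.map {v : V n} (hv : Orb v) (A : Sp n) : Orb (A v) := by
  obtain ⟨B, i, rfl⟩ := hv
  exact ⟨A * B, i, sp_mul A B _⟩

theorem Orb.step {v w : V n} (hv : Orb v) (h : om v w = 1 ∨ om v w = -1) : Orb w := by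
  obtain ⟨A, hA⟩ := orb_link h
  rw [← hA]
  exact hv.map A

theorem orb_f (i : Fin n) : Orb (f i) := ⟨1, i, sp_one _⟩

theorem orb_e (i : Fin n) : Orb (e i) := (orb_f i).step (Or.inr (om_f_e i))

theorem Full.mono {U W : Subgroup (Sp n)} (h : U ≤ W) (hU : Full U) : Full W := by
  intro v hv
  obtain ⟨m, hm, hT⟩ := hU v hv
  exact ⟨m, hm, h hT⟩

lemma T_mem_of_dvd {U : Subgroup (Sp n)} {v : V n} {m s : ℤ} (h : T v m ∈ U) (hs : m ∣ s) :
    T v s ∈ U := by
  obtain ⟨k, rfl⟩ := hs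
  rw [← T_zpow]
  exact U.zpow_mem h k

lemma comm_S {u w w' : V n} (h : om u w = 0) (h' : om u w' = 0) (s t : ℤ) :
    S u w s * S u w' t = T u (-(2 * s * t * om w w')) * (S u w' t * S u w s) := by
  have h1 : om w u = 0 := cs _ _ h
  have h2 : om w' u = 0 := cs _ _ h'
  have h3 : om w' w = -om w w' := om_swap _ _
  refine sp_ext fun x => ?_
  rw [sp_mul, sp_mul, sp_mul, T_apply, S_apply h, S_apply h, S_apply h', S_apply h']
  simp only [om_add_left, om_smul_left, om_self, h, h', h1, h2, h3]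
  module

lemma S_of_T {v w : V n} (h : om v w = 0) (s : ℤ) :
    T (v + w) s * (T (v - w) s)⁻¹ = S v w (2 * s) := by
  have h' : om w v = 0 := cs _ _ h
  refine sp_ext fun x => ?_
  rw [T_inv, sp_mul, T_apply, T_apply, S_apply h]
  simp only [om_add_left, om_add_right, om_sub_left, om_sub_right, om_smul_left, om_self, h, h']
  module

/-- `S v w M` in `U`. -/
lemma S_mem {U : Subgroup (Sp n)} {v w : V n} (h : om v w = 0)
    (h1 : ∃ m : ℤ, m ≠ 0 ∧ T (v + w) m ∈ U) (h2 : ∃ m : ℤ, m ≠ 0 ∧ T (v - w) m ∈ U) :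
    ∃ m : ℤ, m ≠ 0 ∧ S v w m ∈ U := by
  obtain ⟨m, hm, h1⟩ := h1
  obtain ⟨m', hm', h2⟩ := h2
  refine ⟨2 * (m * m'), by simp [hm, hm'], ?_⟩
  rw [← S_of_T h]
  exact U.mul_mem (T_mem_of_dvd h1 (dvd_mul_right _ _))
    (U.inv_mem (T_mem_of_dvd h2 (dvd_mul_left _ _)))

lemma core {U U' W : Subgroup (Sp n)} (hc : ∀ x ∈ U, ∀ y ∈ U', x * y * x⁻¹ * y⁻¹ ∈ W)
    {v w w' : V n} (h1 : om v w = 0) (h2 : om v w' = 0) (h3 : om w w' = 1 ∨ om w w' = -1)
    (a1 : ∃ m : ℤ, m ≠ 0 ∧ T (v + w) m ∈ U) (a2 : ∃ m : ℤ, m ≠ 0 ∧ T (v - w) m ∈ U)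
    (b1 : ∃ m : ℤ, m ≠ 0 ∧ T (v + w') m ∈ U') (b2 : ∃ m : ℤ, m ≠ 0 ∧ T (v - w') m ∈ U') :
    ∃ m : ℤ, m ≠ 0 ∧ T v m ∈ W := by
  obtain ⟨m, hm, hS⟩ := S_mem h1 a1 a2
  obtain ⟨m', hm', hS'⟩ := S_mem h2 b1 b2
  refine ⟨-(2 * m * m' * om w w'), ?_, ?_⟩
  · rcases h3 with h3 | h3 <;> rw [h3] <;> simp [hm, hm']
  · have h4 := hc _ hS _ hS'
    rw [comm_S h1 h2] at h4
    have h5 : T v (-(2 * m * m' * om w w')) * (S v w' m' * S v w m) * (S v w m)⁻¹ *
        (S v w' m')⁻¹ = T v (-(2 * m * m' * om w w')) := by group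
    rw [h5] at h4
    exact h4

theorem Full.comb (hn : 2 ≤ n) {U U' W : Subgroup (Sp n)}
    (h : ∀ x ∈ U, ∀ y ∈ U', x * y * x⁻¹ * y⁻¹ ∈ W) (hU : Full U) (hU' : Full U') : Full W := by
  rintro v ⟨A, i, rfl⟩
  obtain ⟨j, hj⟩ : ∃ j : Fin n, i ≠ j := by
    haveI : Nontrivial (Fin n) := Fin.nontrivial_iff_two_le.2 hn
    obtain ⟨j, hj⟩ := exists_ne i
    exact ⟨j, hj.symm⟩
  have hE : Orb (A (e i)) := (orb_e i).map A
  have a1 : Orb (A (f i) + A (e j)) := hE.step (Or.inl (by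
    rw [om_add_right, sp_om, sp_om, om_e_f, om_e_e, add_zero]))
  have a2 : Orb (A (f i) - A (e j)) := hE.step (Or.inl (by
    rw [om_sub_right, sp_om, sp_om, om_e_f, om_e_e, sub_zero]))
  have b1 : Orb (A (f i) + A (f j)) := hE.step (Or.inl (by
    rw [om_add_right, sp_om, sp_om, om_e_f, om_e_f_ne hj, add_zero]))
  have b2 : Orb (A (f i) - A (f j)) := hE.step (Or.inl (by
    rw [om_sub_right, sp_om, sp_om, om_e_f, om_e_f_ne hj, sub_zero]))
  refine core h (v := A (f i)) (w := A (e j)) (w' := A (f j)) ?_ ?_ (Or.inl ?_) (hU _ a1)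
    (hU _ a2) (hU' _ b1) (hU' _ b2)
  · rw [sp_om, om_f_e_ne hj]
  · rw [sp_om, om_f_f]
  · rw [sp_om, om_e_f]

section half

variable {U : Subgroup (Sp n)} {η : V n → ℤˣ}

lemma η_neg (hη : ∀ x y, η (x + y) = η x * η y) (x : V n) : η (-x) = η x := by
  have h0 : η 0 = 1 := by
    have h := hη 0 0
    rw [add_zero] at h
    exact (left_eq_mul₀ (Units.ne_zero _)).1 (by exact_mod_cast congrArg Units.val h) |> fun h' =>
      Units.ext h'
  have h1 := hη x (-x)
  rw [add_neg_cancel, h0] at h1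
  have h2 : η x * η x = 1 := Int.units_mul_self _
  exact mul_left_cancel (h1.symm.trans h2.symm)

lemma half1 (hη : ∀ x y, η (x + y) = η x * η y)
    (hU : ∀ v, Orb v → η v = -1 → ∃ m : ℤ, m ≠ 0 ∧ T v m ∈ U)
    {v w w' : V n} (h1 : om v w = 0) (h2 : om v w' = 0) (h3 : om w w' = 1)
    (h4 : η v = 1) (h5 : η w = -1) (h6 : η w' = -1)
    (a1 : Orb (v + w)) (a2 : Orb (v - w)) (b1 : Orb (v + w')) (b2 : Orb (v - w')) :
    ∃ m : ℤ, m ≠ 0 ∧ T v m ∈ U := by
  have key : ∀ x, η x = -1 → η (v + x) = -1 ∧ η (v - x) = -1 := by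
    intro x hx
    rw [sub_eq_add_neg, hη, hη, η_neg hη, h4, hx]
    exact ⟨one_mul _, one_mul _⟩
  exact core (U := U) (U' := U) (fun x hx y hy => U.mul_mem (U.mul_mem (U.mul_mem hx hy)
    (U.inv_mem hx)) (U.inv_mem hy)) h1 h2 (Or.inl h3) (hU _ a1 (key _ h5).1)
    (hU _ a2 (key _ h5).2) (hU _ b1 (key _ h6).1) (hU _ b2 (key _ h6).2)

/-- Case 2. -/
lemma half2 (hη : ∀ x y, η (x + y) = η x * η y)
    (hU : ∀ v, Orb v → η v = -1 → ∃ m : ℤ, m ≠ 0 ∧ T v m ∈ U)
    {E F P Q K L : V n} (hEF : om E F = 1) (hPQ : om P Q = 1) (hKL : om K L = 1)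
    (hEP : om E P = 0) (hEQ : om E Q = 0) (hFP : om F P = 0) (hFQ : om F Q = 0)
    (hEK : om E K = 0) (hEL : om E L = 0) (hFK : om F K = 0) (hFL : om F L = 0)
    (hPK : om P K = 0) (hPL : om P L = 0) (hQK : om Q K = 0) (hQL : om Q L = 0)
    (hK : Orb K) (hL : Orb L)
    (nE : η E = -1) (nF : η F = 1) (nP : η P = 1) (nQ : η Q = 1) (nK : η K = 1) (nL : η L = 1)
    {s : ℤ} (hs : s = 1 ∨ s = -1) : ∃ m : ℤ, m ≠ 0 ∧ T (F + s • P) m ∈ U := by
  have nsm : ∀ x, η x = 1 → η (s • x) = 1 := by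
    intro x hx
    rcases hs with rfl | rfl
    · rw [one_smul]; exact hx
    · rw [neg_one_zsmul, η_neg hη]; exact hx
  have hss : s * s = 1 := by rcases hs with rfl | rfl <;> rfl
  have hPE := cs _ _ hEP
  have hQE := cs _ _ hEQ
  have hPF := cs _ _ hFP
  have hQF := cs _ _ hFQ
  have hKE := cs _ _ hEK
  have hLE := cs _ _ hEL
  have hKF := cs _ _ hFK
  have hLF := cs _ _ hFL
  have hKP := cs _ _ hPK
  have hLP := cs _ _ hPL
  have hKQ := cs _ _ hQK
  have hLQ := cs _ _ hQL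
  have hFE : om F E = -1 := by rw [om_swap, hEF]
  have hQP : om Q P = -1 := by rw [om_swap, hPQ]
  have hLK : om L K = -1 := by rw [om_swap, hKL]
  refine half1 hη hU (v := F + s • P) (w := (E + s • Q) + K) (w' := (E + s • Q) + L)
    ?_ ?_ ?_ ?_ ?_ ?_ ?_ ?_ ?_ ?_
  · simp only [om_add_left, om_add_right, om_smul_left, om_smul_right, hFE, hFQ, hFK, hPE, hPQ,
      hPK]
    linear_combination hss
  · simp only [om_add_left, om_add_right, om_smul_left, om_smul_right, hFE, hFQ, hFL, hPE, hPQ,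
      hPL]
    linear_combination hss
  · simp only [om_add_left, om_add_right, om_smul_left, om_smul_right, om_self, hEQ, hQE, hEL,
      hQL, hKE, hKQ, hKL]
    ring
  · rw [hη, nF, nsm _ nP]; rfl
  · rw [hη, hη, nE, nsm _ nQ, nK]; rfl
  · rw [hη, hη, nE, nsm _ nQ, nL]; rfl
  · refine hL.step (Or.inr ?_)
    simp only [om_add_left, om_add_right, om_smul_left, om_smul_right, hLF, hLP, hLE, hLQ, hLK]
    ring
  · refine hL.step (Or.inl ?_)
    simp only [om_add_left, om_add_right, om_sub_right, om_smul_left, om_smul_right, hLF, hLP,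
      hLE, hLQ, hLK]
    ring
  · refine hK.step (Or.inl ?_)
    simp only [om_add_left, om_add_right, om_smul_left, om_smul_right, hKF, hKP, hKE, hKQ, hKL]
    ring
  · refine hK.step (Or.inr ?_)
    simp only [om_add_left, om_add_right, om_sub_right, om_smul_left, om_smul_right, hKF, hKP,
      hKE, hKQ, hKL]
    ring

lemma η_basis (hη : ∀ x y, η (x + y) = η x * η y) (A : Sp n) (he : ∀ i, η (A (e i)) = 1)
    (hf : ∀ i, η (A (f i)) = 1) (x : V n) : η x = 1 := by
  obtain ⟨F, hF⟩ : ∃ F : V n →+ Additive ℤˣ, ∀ x, F x = Additive.ofMul (η (A x)) :=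
    ⟨AddMonoidHom.mk' (fun x => Additive.ofMul (η (A x))) (fun a b => by
      rw [sp_add, hη]; rfl), fun _ => rfl⟩
  have h1 : ∀ i, F (e i) = 0 := fun i => (hF _).trans (congrArg Additive.ofMul (he i))
  have h2 : ∀ i, F (f i) = 0 := fun i => (hF _).trans (congrArg Additive.ofMul (hf i))
  have h3 : ∀ y, F y = 0 := by
    intro y
    rw [expand y, map_sum]
    refine Finset.sum_eq_zero fun i _ => ?_
    rw [map_add, map_zsmul, map_zsmul, h1, h2, smul_zero, smul_zero, add_zero]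
  have h4 := (hF (A⁻¹ x)).symm.trans (h3 (A⁻¹ x))
  rw [sp_apply_inv] at h4
  exact Additive.ofMul.injective h4

end half

lemma units_ne {u : ℤˣ} (h : u ≠ -1) : u = 1 := by
  rcases Int.units_eq_one_or u with h1 | h1
  · exact h1
  · exact absurd h1 h

theorem full_of_half (hn : 3 ≤ n) {U : Subgroup (Sp n)} (η : V n → ℤˣ)
    (hη : ∀ x y, η (x + y) = η x * η y) (h1 : ∃ x, η x ≠ 1)
    (hU : ∀ v, Orb v → η v = -1 → ∃ m : ℤ, m ≠ 0 ∧ T v m ∈ U) : Full U := by
  intro v hv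
  by_cases hv1 : η v = -1
  · exact hU v hv hv1
  replace hv1 := units_ne hv1
  obtain ⟨A, i, rfl⟩ := hv
  have hE : Orb (A (e i)) := (orb_e i).map A
  have oE : ∀ x, om (e i) x = 0 → Orb (A (f i) + A x) ∧ Orb (A (f i) - A x) := by
    intro x hx
    refine ⟨hE.step (Or.inl ?_), hE.step (Or.inl ?_)⟩
    · rw [om_add_right, sp_om, sp_om, om_e_f, hx, add_zero]
    · rw [om_sub_right, sp_om, sp_om, om_e_f, hx, sub_zero]
  have fin : ∀ x y, om (f i) x = 0 → om (f i) y = 0 → om (e i) x = 0 → om (e i) y = 0 →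
      om x y = 1 → η (A x) = -1 → η (A y) = -1 → ∃ m : ℤ, m ≠ 0 ∧ T (A (f i)) m ∈ U := by
    intro x y h1 h2 h3 h4 h5 h6 h7
    exact half1 hη hU (by rw [sp_om, h1]) (by rw [sp_om, h2]) (by rw [sp_om, h5]) hv1 h6 h7
      (oE x h3).1 (oE x h3).2 (oE y h4).1 (oE y h4).2
  by_cases hc : ∃ j, i ≠ j ∧ (η (A (e j)) = -1 ∨ η (A (f j)) = -1)
  · obtain ⟨j, hj, hc⟩ := hc
    have j1 := om_f_e_ne hj
    have j2 := om_f_f i j
    have j3 := om_e_e i j
    have j4 := om_e_f_ne hj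
    have j5 := om_e_f j
    have k1 : om (f i) (e j + f j) = 0 := by rw [om_add_right, j1, j2]; rfl
    have k2 : om (e i) (e j + f j) = 0 := by rw [om_add_right, j3, j4]; rfl
    by_cases c1 : η (A (e j)) = -1
    · by_cases c2 : η (A (f j)) = -1
      · exact fin (e j) (f j) j1 j2 j3 j4 j5 c1 c2
      · replace c2 := units_ne c2
        exact fin (e j) (e j + f j) j1 k1 j3 k2 (by rw [om_add_right, om_self, j5]; rfl) c1
          (by rw [sp_add, hη, c1, c2]; rfl)
    · have c2 : η (A (f j)) = -1 := hc.resolve_left c1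
      replace c1 := units_ne c1
      exact fin (e j + f j) (f j) k1 j2 k2 j4 (by rw [om_add_left, om_self, j5]; rfl)
        (by rw [sp_add, hη, c1, c2]; rfl) c2
  · push Not at hc
    have hc1 : ∀ j, i ≠ j → η (A (e j)) = 1 := fun j hj => units_ne (hc j hj).1
    have hc2 : ∀ j, i ≠ j → η (A (f j)) = 1 := fun j hj => units_ne (hc j hj).2
    have hEi : η (A (e i)) = -1 := by
      by_contra h2
      replace h2 := units_ne h2
      obtain ⟨x, hx⟩ := h1
      refine hx (η_basis hη A (fun j => ?_) (fun j => ?_) x)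
      · by_cases hj : i = j
        · rw [← hj]; exact h2
        · exact hc1 j hj
      · by_cases hj : i = j
        · rw [← hj]; exact hv1
        · exact hc2 j hj
    obtain ⟨j, l, hj, hl, hjl⟩ : ∃ j l : Fin n, i ≠ j ∧ i ≠ l ∧ j ≠ l := by
      obtain ⟨j, hj⟩ : ∃ j : Fin n, j ∉ ({i} : Finset (Fin n)) := by
        by_contra h2
        push Not at h2
        have h3 : (Finset.univ : Finset (Fin n)) ⊆ {i} := fun x _ => h2 x
        have h4 := Finset.card_le_card h3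
        rw [Finset.card_univ, Fintype.card_fin, Finset.card_singleton] at h4
        omega
      obtain ⟨l, hl⟩ : ∃ l : Fin n, l ∉ ({i, j} : Finset (Fin n)) := by
        by_contra h2
        push Not at h2
        have h3 : (Finset.univ : Finset (Fin n)) ⊆ {i, j} := fun x _ => h2 x
        have h4 := (Finset.card_le_card h3).trans Finset.card_le_two
        rw [Finset.card_univ, Fintype.card_fin] at h4
        omega
      simp only [Finset.mem_singleton, Finset.mem_insert, not_or] at hj hl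
      exact ⟨j, l, Ne.symm hj, Ne.symm hl.1, Ne.symm hl.2⟩
    have m1 : ∀ s : ℤ, (s = 1 ∨ s = -1) → ∃ m : ℤ, m ≠ 0 ∧ T (A (f i) + s • A (e j)) m ∈ U := by
      intro s hs
      refine half2 hη hU (E := A (e i)) (F := A (f i)) (P := A (e j)) (Q := A (f j))
        (K := A (e l)) (L := A (f l)) ?_ ?_ ?_ ?_ ?_ ?_ ?_ ?_ ?_ ?_ ?_ ?_ ?_ ?_ ?_
        ((orb_e l).map A) ((orb_f l).map A) hEi hv1 (hc1 j hj) (hc2 j hj) (hc1 l hl) (hc2 l hl) hs
      all_goals rw [sp_om]
      · exact om_e_f i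
      · exact om_e_f j
      · exact om_e_f l
      · exact om_e_e i j
      · exact om_e_f_ne hj
      · exact om_f_e_ne hj
      · exact om_f_f i j
      · exact om_e_e i l
      · exact om_e_f_ne hl
      · exact om_f_e_ne hl
      · exact om_f_f i l
      · exact om_e_e j l
      · exact om_e_f_ne hjl
      · exact om_f_e_ne hjl
      · exact om_f_f j l
    have m2 : ∀ s : ℤ, (s = 1 ∨ s = -1) → ∃ m : ℤ, m ≠ 0 ∧ T (A (f i) + s • A (f j)) m ∈ U := by
      intro s hs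
      refine half2 hη hU (E := A (e i)) (F := A (f i)) (P := A (f j)) (Q := -A (e j))
        (K := A (e l)) (L := A (f l)) ?_ ?_ ?_ ?_ ?_ ?_ ?_ ?_ ?_ ?_ ?_ ?_ ?_ ?_ ?_
        ((orb_e l).map A) ((orb_f l).map A) hEi hv1 (hc2 j hj)
        ((η_neg hη _).trans (hc1 j hj)) (hc1 l hl) (hc2 l hl) hs
      all_goals simp only [om_neg_left, om_neg_right, sp_om]
      · exact om_e_f i
      · rw [om_f_e]; rfl
      · exact om_e_f l
      · exact om_e_f_ne hj
      · rw [om_e_e]; rfl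
      · exact om_f_f i j
      · rw [om_f_e_ne hj]; rfl
      · exact om_e_e i l
      · exact om_e_f_ne hl
      · exact om_f_e_ne hl
      · exact om_f_f i l
      · exact om_f_e_ne hjl
      · exact om_f_f j l
      · rw [om_e_e]; rfl
      · rw [om_e_f_ne hjl]; rfl
    have e1 : ∀ x y : V n, x + (1 : ℤ) • y = x + y := fun x y => by rw [one_smul]
    have e2 : ∀ x y : V n, x + (-1 : ℤ) • y = x - y := fun x y => by
      rw [neg_one_zsmul, sub_eq_add_neg]
    have p1 := m1 1 (Or.inl rfl)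
    have p2 := m1 (-1) (Or.inr rfl)
    have p3 := m2 1 (Or.inl rfl)
    have p4 := m2 (-1) (Or.inr rfl)
    rw [e1] at p1 p3
    rw [e2] at p2 p4
    refine core (U := U) (U' := U) (fun x hx y hy => U.mul_mem (U.mul_mem (U.mul_mem hx hy)
      (U.inv_mem hx)) (U.inv_mem hy)) ?_ ?_ (Or.inl ?_) p1 p2 p3 p4
    · rw [sp_om, om_f_e_ne hj]
    · rw [sp_om, om_f_f]
    · rw [sp_om, om_e_f]

theorem full_of_normal {U : Subgroup (Sp n)} (hU : U.Normal) {m : ℤ} (hm : m ≠ 0) {i : Fin n}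
    (h : T (e i) m ∈ U) : Full U := by
  intro v _
  refine ⟨m, hm, ?_⟩
  have h1 := kills_all (k := i) (QuotientGroup.mk' U) ((QuotientGroup.eq_one_iff _).2 h) v
  exact (QuotientGroup.eq_one_iff _).1 h1

theorem Full.cg (hn : 3 ≤ n) {U : Subgroup (Sp n)} (hN : U.Normal) (hU : Full U) :
    ∃ m : ℤ, m ≠ 0 ∧ ∀ A : Sp n, Cg m A → A ∈ U := by
  obtain ⟨m, hm, h⟩ := hU _ (orb_e (⟨0, by omega⟩ : Fin n))
  exact ⟨m, hm, fun A hA => cg_mem hn hm h hA⟩

theorem orb_mod2 (i₀ : Fin n) (w : V n) (hw : ¬ Dv 2 w) : ∃ A : Sp n, Dv 2 (A (f i₀) - w) := by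
  obtain ⟨w', hw'⟩ : ∃ w' : V n, ∀ i, w' i = ((w i).1 % 2, (w i).2 % 2) := ⟨_, fun _ => rfl⟩
  have hd : Dv 2 (w' - w) := by
    refine ⟨fun i => (-((w i).1 / 2), -((w i).2 / 2)), ?_⟩
    funext i
    rw [Pi.sub_apply, Pi.smul_apply, hw']
    ext
    · simp only [Prod.fst_sub, Prod.smul_fst, smul_eq_mul]; omega
    · simp only [Prod.snd_sub, Prod.smul_snd, smul_eq_mul]; omega
  suffices h : ∃ A : Sp n, A (f i₀) = w' by
    obtain ⟨A, hA⟩ := h
    exact ⟨A, by rw [hA]; exact hd⟩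
  have b1 : ∀ i, (w' i).1 = 0 ∨ (w' i).1 = 1 := fun i => by rw [hw']; dsimp only; omega
  have b2 : ∀ i, (w' i).2 = 0 ∨ (w' i).2 = 1 := fun i => by rw [hw']; dsimp only; omega
  have link2 : ∀ z : V n, om (f i₀) z = -1 → om z w' = 1 → ∃ A : Sp n, A (f i₀) = w' := by
    intro z h1 h2
    obtain ⟨A, hA⟩ := orb_link (Or.inr h1)
    obtain ⟨B, hB⟩ := orb_link (Or.inl h2)
    exact ⟨B * A, by rw [sp_mul, hA, hB]⟩
  by_cases hc : ∃ i, i₀ ≠ i ∧ w' i ≠ 0
  · obtain ⟨i, hi, hne⟩ := hc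
    rcases b1 i with h1 | h1
    · have h2 : (w' i).2 = 1 := by
        rcases b2 i with h2 | h2
        · exact absurd (Prod.ext h1 h2) hne
        · exact h2
      refine link2 (e i₀ + (1 - (w' i₀).2) • e i) ?_ ?_
      · rw [om_add_right, om_smul_right, om_f_e, om_f_e_ne hi, mul_zero]; rfl
      · rw [om_add_left, om_smul_left, om_e', om_e', h2]; ring
    · refine link2 (e i₀ + ((w' i₀).2 - 1) • f i) ?_ ?_
      · rw [om_add_right, om_smul_right, om_f_e, om_f_f, mul_zero]; rfl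
      · rw [om_add_left, om_smul_left, om_e', om_f', h1]; ring
  · push Not at hc
    rcases b1 i₀ with h1 | h1
    · rcases b2 i₀ with h2 | h2
      · exfalso
        apply hw
        have h0 : w' = 0 := by
          funext i
          by_cases hi : i₀ = i
          · rw [← hi]; exact Prod.ext h1 h2
          · exact hc i hi
        rw [h0, zero_sub] at hd
        have := hd.neg
        rwa [neg_neg] at this
      · refine ⟨1, ?_⟩
        rw [sp_one]
        funext i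
        by_cases hi : i₀ = i
        · rw [← hi, f_self]; exact (Prod.ext h1 h2).symm
        · rw [f_ne (Ne.symm hi), hc i hi]
    · exact orb_link (Or.inr (by rw [om_f', h1]))

end Pool.Agent.H.MP_59b15d_al.H95T
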